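import Pool.Agent.MP_7c5cdb.GeoA

/-!
# Uncut points
-/

set_option autoImplicit false
set_option linter.unusedSectionVars false

namespace Pool.Agent.MP7c5cdb.Geo

open Metric

variable {E : Type*} [NormedAddCommGroup E] [InnerProductSpace ℝ E] [ProperSpace E]

/-- The finite net. -/
theorem net {t ρ : ℝ} (ht : t < 1 + ρ) (h1 : 1 / 4 < ρ) :
    ∃ F : Finset E, F.Nonempty ∧ (∀ f ∈ F, ‖f‖ ≤ ρ) ∧
      (∀ v : E, ‖v‖ ≤ t → ∃ f ∈ F, ‖v - f‖ < 1) ∧
      (∀ v : E, 3 / 4 ≤ ‖v‖ → ∃ f ∈ F, 1 ≤ ‖v - f‖) := by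
  classical
  have hρ : 0 < ρ := by linarith
  -- the first net
  obtain ⟨F1, hF1⟩ := (isCompact_closedBall (0 : E) t).elim_finite_subcover
    (fun f : closedBall (0 : E) ρ => ball (f : E) 1) (fun _ => isOpen_ball) (by
      intro v hv
      rw [mem_closedBall_zero_iff] at hv
      rw [Set.mem_iUnion]
      by_cases hvρ : ‖v‖ ≤ ρ
      · exact ⟨⟨v, by rwa [mem_closedBall_zero_iff]⟩, mem_ball_self one_pos⟩
      · push Not at hvρ
        have hv0 : 0 < ‖v‖ := hρ.trans hvρ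
        refine ⟨⟨(ρ / ‖v‖) • v, ?_⟩, ?_⟩
        · rw [mem_closedBall_zero_iff, norm_smul, Real.norm_of_nonneg (by positivity),
            div_mul_cancel₀ _ hv0.ne']
        · rw [mem_ball, dist_eq_norm]
          have h2 : v - (ρ / ‖v‖) • v = (1 - ρ / ‖v‖) • v := by rw [sub_smul, one_smul]
          have h3 : 0 ≤ 1 - ρ / ‖v‖ := by
            rw [sub_nonneg, div_le_one hv0]
            exact hvρ.le
          simp only
          rw [h2, norm_smul, Real.norm_of_nonneg h3, sub_mul, one_mul, div_mul_cancel₀ _ hv0.ne']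
          linarith)
  -- the second net
  have hK : IsCompact (closedBall (0 : E) 2 ∩ {v | 3 / 4 ≤ ‖v‖}) :=
    (isCompact_closedBall (0 : E) 2).inter_right (isClosed_le continuous_const continuous_norm)
  obtain ⟨F2, hF2⟩ := hK.elim_finite_subcover
    (fun f : closedBall (0 : E) ρ => {v | 1 < ‖v - f‖})
    (fun f => isOpen_lt continuous_const (by fun_prop)) (by
      rintro v ⟨-, hv⟩
      rw [Set.mem_ofPred_eq] at hv
      rw [Set.mem_iUnion]
      have hv0 : 0 < ‖v‖ := by linarith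
      refine ⟨⟨-((ρ / ‖v‖) • v), ?_⟩, ?_⟩
      · rw [mem_closedBall_zero_iff, norm_neg, norm_smul, Real.norm_of_nonneg (by positivity),
          div_mul_cancel₀ _ hv0.ne']
      · rw [Set.mem_ofPred_eq]
        simp only
        have h2 : v - -((ρ / ‖v‖) • v) = (1 + ρ / ‖v‖) • v := by
          rw [sub_neg_eq_add, add_smul, one_smul]
        rw [h2, norm_smul, Real.norm_of_nonneg (by positivity), add_mul, one_mul,
          div_mul_cancel₀ _ hv0.ne']
        linarith)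
  refine ⟨insert 0 (F1.image Subtype.val ∪ F2.image Subtype.val),
    ⟨0, Finset.mem_insert_self _ _⟩, ?_, ?_, ?_⟩
  · intro f hf
    rw [Finset.mem_insert, Finset.mem_union, Finset.mem_image, Finset.mem_image] at hf
    rcases hf with rfl | ⟨g, -, rfl⟩ | ⟨g, -, rfl⟩
    · rw [norm_zero]
      exact hρ.le
    · exact mem_closedBall_zero_iff.1 g.2
    · exact mem_closedBall_zero_iff.1 g.2
  · intro v hv
    have h2 := hF1 (mem_closedBall_zero_iff.2 hv)
    simp only [Set.mem_iUnion] at h2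
    obtain ⟨f, hf, hvf⟩ := h2
    refine ⟨f, ?_, ?_⟩
    · exact Finset.mem_insert_of_mem (Finset.mem_union_left _ (Finset.mem_image_of_mem _ hf))
    · rwa [mem_ball, dist_eq_norm] at hvf
  · intro v hv
    by_cases hv2 : ‖v‖ ≤ 2
    · have h2 := hF2 ⟨mem_closedBall_zero_iff.2 hv2, hv⟩
      simp only [Set.mem_iUnion, Set.mem_ofPred_eq] at h2
      obtain ⟨f, hf, hvf⟩ := h2
      refine ⟨f, ?_, hvf.le⟩
      exact Finset.mem_insert_of_mem (Finset.mem_union_right _ (Finset.mem_image_of_mem _ hf))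
    · push Not at hv2
      refine ⟨0, Finset.mem_insert_self _ _, ?_⟩
      rw [sub_zero]
      linarith

/-- A packing with edges of length `3 / 2`. -/
structure Pk (P : AddSubgroup E) (k : ℕ) (z : ℕ → E) (par : ℕ → ℕ) : Prop where
  tree : ∀ e < k, par e ≤ k ∧ ‖z (e + 1) - z (par e)‖ = 3 / 2
  sep : ∀ i ≤ k, ∀ j ≤ k, ∀ p ∈ P, (i ≠ j ∨ p ≠ 0) → 3 / 2 ≤ ‖z i - z j - p‖

theorem Cfg.toPk {P : AddSubgroup E} {k : ℕ} {z : ℕ → E} {par : ℕ → ℕ} (h : Cfg P k z par) :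
    Pk P k z par :=
  ⟨fun e he => ⟨(h.tree e he).1.trans he.le, (h.tree e he).2⟩, h.sep⟩

/-- The data of a packing with positions: `U j` are the positions of the component `j`. -/
structure Pos (P : AddSubgroup E) (k : ℕ) (z : ℕ → E) (par : ℕ → ℕ) (R t ρ : ℝ)
    (U : ℕ → Set E) : Prop extends Pk P k z par where
  cov : ∀ y, ∃ j ≤ k, ∃ p ∈ P, ‖y - z j - p‖ ≤ R
  hR : R < t
  ht : 5 / 4 < t
  hρ0 : 0 ≤ ρ
  hρ : ρ < 1 / 2
  near : ∀ j ≤ k, ∀ u ∈ U j, ‖u - z j‖ ≤ ρ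
  n1 : ∀ j ≤ k, ∀ v : E, ‖v‖ ≤ t → ∃ u ∈ U j, ‖v - (u - z j)‖ < 1
  n2 : ∀ j ≤ k, ∀ v : E, 3 / 4 ≤ ‖v‖ → ∃ u ∈ U j, 1 ≤ ‖v - (u - z j)‖

/-- The point `y` is uncut: no component is partially seen. -/
def Uncut (P : AddSubgroup E) (k : ℕ) (U : ℕ → Set E) (y : E) : Prop :=
  ∀ j ≤ k, ∀ p ∈ P, (∀ u ∈ U j, ‖y - p - u‖ < 1) ∨ (∀ u ∈ U j, ¬ ‖y - p - u‖ < 1)

variable {P : AddSubgroup E} {k : ℕ} {z : ℕ → E} {par : ℕ → ℕ} {R t ρ : ℝ} {U : ℕ → Set E}

theorem Pos.all_near (h : Pos P k z par R t ρ U) {j : ℕ} (hj : j ≤ k) {y p : E}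
    (ha : ∀ u ∈ U j, ‖y - p - u‖ < 1) : ‖y - p - z j‖ < 3 / 4 := by
  by_contra hc
  push Not at hc
  obtain ⟨u, hu, h1⟩ := h.n2 j hj _ hc
  have h2 : y - p - z j - (u - z j) = y - p - u := by abel
  rw [h2] at h1
  exact absurd (ha u hu) (not_lt.2 h1)

theorem Pos.none_far (h : Pos P k z par R t ρ U) {j : ℕ} (hj : j ≤ k) {y p : E}
    (ha : ∀ u ∈ U j, ¬ ‖y - p - u‖ < 1) : t < ‖y - p - z j‖ := by
  by_contra hc
  push Not at hc
  obtain ⟨u, hu, h1⟩ := h.n1 j hj _ hc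
  have h2 : y - p - z j - (u - z j) = y - p - u := by abel
  rw [h2] at h1
  exact ha u hu h1

/-- Exactly one component is seen from an uncut point. -/
theorem Pos.exists_home (h : Pos P k z par R t ρ U) {y : E} (hy : Uncut P k U y) :
    ∃ j ≤ k, ∃ p ∈ P, (∀ u ∈ U j, ‖y - p - u‖ < 1) ∧ ‖y - p - z j‖ < 3 / 4 ∧
      ∀ i ≤ k, ∀ p' ∈ P, (i ≠ j ∨ p' ≠ p) →
        (∀ u ∈ U i, ¬ ‖y - p' - u‖ < 1) ∧ t < ‖y - p' - z i‖ := by
  obtain ⟨j, hj, p, hp, hjp⟩ := h.cov y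
  have h1 : ‖y - p - z j‖ ≤ R := by
    have h2 : y - p - z j = y - z j - p := by abel
    rwa [h2]
  have hall : ∀ u ∈ U j, ‖y - p - u‖ < 1 := by
    rcases hy j hj p hp with h2 | h2
    · exact h2
    · have h3 := h.none_far hj h2
      have := h.hR
      linarith
  have hnear := h.all_near hj hall
  refine ⟨j, hj, p, hp, hall, hnear, fun i hi p' hp' hne => ?_⟩
  have hnone : ∀ u ∈ U i, ¬ ‖y - p' - u‖ < 1 := by
    rcases hy i hi p' hp' with h2 | h2
    · exfalso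
      have h3 := h.all_near hi h2
      have h4 := h.sep i hi j hj (p - p') (P.sub_mem hp hp') (by
        rcases hne with h5 | h5
        · exact Or.inl h5
        · exact Or.inr (sub_ne_zero.2 (Ne.symm h5)))
      have h5 : z i - z j - (p - p') = (y - p - z j) - (y - p' - z i) := by abel
      rw [h5] at h4
      have h6 := norm_sub_le (y - p - z j) (y - p' - z i)
      linarith
    · exact h2
  exact ⟨hnone, h.none_far hi hnone⟩

/-- The link of the edge `e`. -/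
noncomputable def lk (z : ℕ → E) (par : ℕ → ℕ) (e : ℕ) : E :=
  (1 / 2 : ℝ) • (z (e + 1) + z (par e))

theorem par_law (a b y : E) :
    ‖y - (1 / 2 : ℝ) • (a + b)‖ ^ 2 =
      (‖y - a‖ ^ 2 + ‖y - b‖ ^ 2) / 2 - ‖a - b‖ ^ 2 / 4 := by
  have h1 : y - (1 / 2 : ℝ) • (a + b) = (1 / 2 : ℝ) • ((y - a) + (y - b)) := by
    module
  have h2 : a - b = (y - b) - (y - a) := by abel
  rw [h1, norm_smul, mul_pow, h2]
  have h3 := parallelogram_law_with_norm ℝ (y - a) (y - b)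
  rw [norm_sub_rev (y - b) (y - a)]
  have h4 : ‖(1 / 2 : ℝ)‖ = 1 / 2 := by norm_num
  rw [h4]
  nlinarith

/-- The links are seen only from the homes at their ends. -/
theorem Pos.link (h : Pos P k z par R t ρ U) {y : E} {j : ℕ} {p : E}
    (hfar : ∀ i ≤ k, ∀ p' ∈ P, (i ≠ j ∨ p' ≠ p) → t < ‖y - p' - z i‖) {e : ℕ} (he : e < k)
    {p' : E} (hp' : p' ∈ P) (hs : ‖y - p' - lk z par e‖ < 1) :
    p' = p ∧ (j = e + 1 ∨ j = par e) := by
  obtain ⟨h1, h2⟩ := h.tree e he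
  have ht0 := h.ht
  by_contra hc
  have h3 : (e + 1 ≠ j ∨ p' ≠ p) ∧ (par e ≠ j ∨ p' ≠ p) := by
    by_cases hpp : p' = p
    · have h4 : ¬ (j = e + 1 ∨ j = par e) := fun h5 => hc ⟨hpp, h5⟩
      push Not at h4
      exact ⟨Or.inl (Ne.symm h4.1), Or.inl (Ne.symm h4.2)⟩
    · exact ⟨Or.inr hpp, Or.inr hpp⟩
  have h4 := hfar (e + 1) he p' hp' h3.1
  have h5 := hfar (par e) h1 p' hp' h3.2
  have h6 := par_law (z (e + 1)) (z (par e)) (y - p')
  rw [h2] at h6
  unfold lk at hs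
  have h7 : ‖y - p' - (1 / 2 : ℝ) • (z (e + 1) + z (par e))‖ ^ 2 < 1 := by
    have := norm_nonneg (y - p' - (1 / 2 : ℝ) • (z (e + 1) + z (par e)))
    nlinarith
  nlinarith

/-- Near the point `z j` everything is as in the component `j`. -/
theorem Pk.near_home (h : Pk P k z par) (hρ : ρ < 1 / 2)
    (hU : ∀ i ≤ k, ∀ u ∈ U i, ‖u - z i‖ ≤ ρ) {j : ℕ} (hj : j ≤ k) {y : E}
    (hy : ‖y - z j‖ < 1 / 4) (hy' : ‖y - z j‖ < 1 / 2 - ρ) :
    (∀ u ∈ U j, ‖y - u‖ < 1) ∧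
    (∀ i ≤ k, ∀ p ∈ P, (i ≠ j ∨ p ≠ 0) → ∀ u ∈ U i, ¬ ‖y - p - u‖ < 1) ∧
    (∀ e < k, (j = e + 1 ∨ j = par e) → ‖y - lk z par e‖ < 1) := by
  refine ⟨?_, ?_, ?_⟩
  · intro u hu
    have h1 := hU j hj u hu
    have h2 : y - u = (y - z j) - (u - z j) := by abel
    rw [h2]
    have := norm_sub_le (y - z j) (u - z j)
    linarith
  · intro i hi p hp hne u hu hlt
    have h1 := hU i hi u hu
    have h2 := h.sep j hj i hi p hp (by
      rcases hne with h3 | h3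
      · exact Or.inl (Ne.symm h3)
      · exact Or.inr h3)
    have h3 : z j - z i - p = (y - p - u) + (u - z i) - (y - z j) := by abel
    rw [h3] at h2
    have h4 := norm_sub_le ((y - p - u) + (u - z i)) (y - z j)
    have h5 := norm_add_le (y - p - u) (u - z i)
    linarith
  · intro e he hje
    obtain ⟨h1, h2⟩ := h.tree e he
    have h3 : ‖z j - lk z par e‖ = 3 / 4 := by
      rcases hje with rfl | rfl
      · have h4 : z (e + 1) - lk z par e = (1 / 2 : ℝ) • (z (e + 1) - z (par e)) := by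
          unfold lk
          module
        rw [h4, norm_smul, h2]
        norm_num
      · have h4 : z (par e) - lk z par e = (-(1 / 2) : ℝ) • (z (e + 1) - z (par e)) := by
          unfold lk
          module
        rw [h4, norm_smul, h2]
        norm_num
    have h4 : y - lk z par e = (y - z j) + (z j - lk z par e) := by abel
    rw [h4]
    have := norm_add_le (y - z j) (z j - lk z par e)
    linarith

/-- Near the point `z j` everything is as in the component `j`. -/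
theorem Pos.near_home (h : Pos P k z par R t ρ U) {j : ℕ} (hj : j ≤ k) {y : E}
    (hy : ‖y - z j‖ < 1 / 4) (hy' : ‖y - z j‖ < 1 / 2 - ρ) :
    (∀ u ∈ U j, ‖y - u‖ < 1) ∧
    (∀ i ≤ k, ∀ p ∈ P, (i ≠ j ∨ p ≠ 0) → ∀ u ∈ U i, ¬ ‖y - p - u‖ < 1) ∧
    (∀ e < k, (j = e + 1 ∨ j = par e) → ‖y - lk z par e‖ < 1) :=
  h.toPk.near_home h.hρ h.near hj hy hy'

/-- The points near `z j` are uncut. -/
theorem Pos.near_uncut (h : Pos P k z par R t ρ U) {j : ℕ} (hj : j ≤ k) {y : E}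
    (hy : ‖y - z j‖ < 1 / 4) (hy' : ‖y - z j‖ < 1 / 2 - ρ) : Uncut P k U y := by
  obtain ⟨h1, h2, -⟩ := h.near_home hj hy hy'
  intro i hi p hp
  by_cases hne : i ≠ j ∨ p ≠ 0
  · exact Or.inr (h2 i hi p hp hne)
  · push Not at hne
    obtain ⟨rfl, rfl⟩ := hne
    left
    simpa using h1

end Pool.Agent.MP7c5cdb.Geo
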