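import Pool.Agent.MP_7c5cdb.Complete

set_option autoImplicit false
set_option maxHeartbeats 400000
open MeasureTheory Set
open scoped ENNReal ComplexConjugate

namespace Pool.Agent.MP7c5cdb

variable {d : ℕ}

/-- Translating the window does not change anything. -/
theorem exists_isGRB_translate {Ω : Set (Fin d → ℝ)} (z : Fin d → ℝ)
    (h : ∃ S, IsGRB Ω S) : ∃ S, IsGRB {y | y - z ∈ Ω} S := by
  classical
  obtain ⟨S, A, B, hA, hB, hS, hc⟩ := h
  let φ : ((Fin d → ℝ) × (Fin d → ℝ)) ≃ ((Fin d → ℝ) × (Fin d → ℝ)) :=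
    { toFun := fun p => (p.1 - z, p.2)
      invFun := fun p => (p.1 + z, p.2)
      left_inv := fun p => by simp
      right_inv := fun p => by simp }
  have hgab : ∀ p x, gab {y | y - z ∈ Ω} (φ p) x = gab Ω p x := by
    intro p x
    unfold gab
    have h0 : (φ p).2 = p.2 := rfl
    have h1 : (x - (φ p).1 ∈ {y | y - z ∈ Ω}) ↔ x - p.1 ∈ Ω := by
      have : x - (φ p).1 - z = x - p.1 := by
        show x - (p.1 - z) - z = x - p.1
        abel
      rw [Set.mem_setOf_eq, this]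
    rw [h0]
    congr 1
    by_cases h2 : x - p.1 ∈ Ω
    · rw [Set.indicator_of_mem h2, Set.indicator_of_mem (h1.2 h2)]
    · rw [Set.indicator_of_notMem h2, Set.indicator_of_notMem (fun h3 => h2 (h1.1 h3))]
  refine ⟨φ '' S, A, B, hA, hB, ?_, ?_⟩
  · intro F hF c
    have hF' : (↑(F.map φ.symm.toEmbedding) : Set ((Fin d → ℝ) × (Fin d → ℝ))) ⊆ S := by
      intro p hp
      rw [Finset.coe_map] at hp
      obtain ⟨q, hq, rfl⟩ := hp
      obtain ⟨s, hs, hs2⟩ := hF hq
      rw [← hs2]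
      simpa using hs
    have h1 := hS (F.map φ.symm.toEmbedding) hF' (fun p => c (φ p))
    simp only [Finset.sum_map, Equiv.coe_toEmbedding, Equiv.apply_symm_apply] at h1
    have h2 : ∀ x, ∑ p ∈ F, c p * gab Ω (φ.symm p) x = ∑ p ∈ F, c p * gab {y | y - z ∈ Ω} p x := by
      intro x
      refine Finset.sum_congr rfl (fun p _ => ?_)
      rw [← hgab, Equiv.apply_symm_apply]
    simp only [h2] at h1
    exact h1
  · intro f hf ε hε
    obtain ⟨F, hF, c, hc2⟩ := hc f hf ε hε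
    refine ⟨F.map φ.toEmbedding, ?_, fun p => c (φ.symm p), ?_⟩
    · rw [Finset.coe_map]
      exact Set.image_mono hF
    · simp only [Finset.sum_map, Equiv.coe_toEmbedding, Equiv.symm_apply_apply, hgab]
      exact hc2

/-- Linear change of variables. -/
theorem exists_isGRB_linear {Ω : Set (Fin d → ℝ)} (G : Matrix (Fin d) (Fin d) ℝ)
    (hG : G.det ≠ 0) (h : ∃ S, IsGRB {u | G.mulVec u ∈ Ω} S) : ∃ S, IsGRB Ω S := by
  classical
  obtain ⟨S, A, B, hA, hB, hS, hc⟩ := h
  have hu : IsUnit G.det := isUnit_iff_ne_zero.2 hG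
  have hGi : G * G⁻¹ = 1 := Matrix.mul_nonsing_inv G hu
  have hiG : G⁻¹ * G = 1 := Matrix.nonsing_inv_mul G hu
  let φ : ((Fin d → ℝ) × (Fin d → ℝ)) ≃ ((Fin d → ℝ) × (Fin d → ℝ)) :=
    { toFun := fun p => (G.mulVec p.1, Matrix.vecMul p.2 G⁻¹)
      invFun := fun p => (G⁻¹.mulVec p.1, Matrix.vecMul p.2 G)
      left_inv := fun p => by simp [Matrix.mulVec_mulVec, Matrix.vecMul_vecMul, hGi, hiG]
      right_inv := fun p => by simp [Matrix.mulVec_mulVec, Matrix.vecMul_vecMul, hGi, hiG] }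
  have hgab : ∀ p u, gab Ω (φ p) (G.mulVec u) = gab {u | G.mulVec u ∈ Ω} p u := by
    intro p u
    unfold gab
    have h0 : (∑ i, (φ p).2 i * (G.mulVec u) i) = ∑ i, p.2 i * u i := by
      have : (φ p).2 ⬝ᵥ (G.mulVec u) = p.2 ⬝ᵥ u := by
        simp only [φ, Equiv.coe_fn_mk]
        rw [Matrix.dotProduct_mulVec, Matrix.vecMul_vecMul, hiG, Matrix.vecMul_one]
      exact this
    have h1 : G.mulVec u - (φ p).1 = G.mulVec (u - p.1) := by
      simp [φ, Matrix.mulVec_sub]
    rw [h0, h1]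
    rfl
  -- change of variables
  let e : (Fin d → ℝ) ≃L[ℝ] (Fin d → ℝ) :=
    (LinearEquiv.ofBijective (Matrix.toLin' G) (by
      constructor
      · intro x y hxy
        have : G⁻¹.mulVec (G.mulVec x) = G⁻¹.mulVec (G.mulVec y) := by
          rw [← Matrix.toLin'_apply G x, ← Matrix.toLin'_apply G y, hxy]
        simpa [Matrix.mulVec_mulVec, hiG] using this
      · intro y
        refine ⟨G⁻¹.mulVec y, ?_⟩
        simp [Matrix.mulVec_mulVec, hGi])).toContinuousLinearEquiv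
  have he : ∀ u, e u = G.mulVec u := fun u => rfl
  have hme : MeasurableEmbedding (fun u : Fin d → ℝ => G.mulVec u) :=
    e.toHomeomorph.measurableEmbedding
  have hmap : Measure.map (fun u : Fin d → ℝ => G.mulVec u) volume =
      ENNReal.ofReal |(G.det)⁻¹| • (volume : Measure (Fin d → ℝ)) :=
    Real.map_matrix_volume_pi_eq_smul_volume_pi hG
  have hD : 0 < |G.det| := abs_pos.2 hG
  have hDi : 0 < |(G.det)⁻¹| := abs_pos.2 (inv_ne_zero hG)
  have hint : ∀ F : (Fin d → ℝ) → ℝ, ∫ x, F x = |G.det| * ∫ u, F (G.mulVec u) := by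
    intro F
    have h1 := hme.integral_map (μ := volume) F
    rw [hmap, integral_smul_measure, ENNReal.toReal_ofReal hDi.le] at h1
    rw [← h1, smul_eq_mul, ← mul_assoc, abs_inv, mul_inv_cancel₀ hD.ne', one_mul]
  refine ⟨φ '' S, |G.det| * A, |G.det| * B, by positivity, by positivity, ?_, ?_⟩
  · intro F hF c
    have hF' : (↑(F.map φ.symm.toEmbedding) : Set ((Fin d → ℝ) × (Fin d → ℝ))) ⊆ S := by
      intro p hp
      rw [Finset.coe_map] at hp
      obtain ⟨q, hq, rfl⟩ := hp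
      obtain ⟨s, hs, hs2⟩ := hF hq
      rw [← hs2]
      simpa using hs
    have h1 := hS (F.map φ.symm.toEmbedding) hF' (fun p => c (φ p))
    simp only [Finset.sum_map, Equiv.coe_toEmbedding, Equiv.apply_symm_apply] at h1
    have h2 : ∀ u, ∑ p ∈ F, c p * gab {u | G.mulVec u ∈ Ω} (φ.symm p) u =
        ∑ p ∈ F, c p * gab Ω p (G.mulVec u) := by
      intro u
      refine Finset.sum_congr rfl (fun p _ => ?_)
      rw [← hgab, Equiv.apply_symm_apply]
    simp only [h2] at h1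
    rw [hint]
    constructor
    · rw [mul_assoc]
      exact mul_le_mul_of_nonneg_left h1.1 hD.le
    · rw [mul_assoc]
      exact mul_le_mul_of_nonneg_left h1.2 hD.le
  · intro f hf ε hε
    have hf' : MemLp (fun u => f (G.mulVec u)) 2 volume := by
      have h1 : MemLp f 2 (Measure.map (fun u : Fin d → ℝ => G.mulVec u) volume) := by
        rw [hmap]
        exact hf.smul_measure ENNReal.ofReal_ne_top
      exact h1.comp_of_map hme.measurable.aemeasurable
    obtain ⟨F, hF, c, hc2⟩ := hc _ hf' (ε / |G.det|) (by positivity)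
    refine ⟨F.map φ.toEmbedding, ?_, fun p => c (φ.symm p), ?_⟩
    · rw [Finset.coe_map]
      exact Set.image_mono hF
    · rw [hint]
      simp only [Finset.sum_map, Equiv.coe_toEmbedding, Equiv.symm_apply_apply, hgab]
      rw [lt_div_iff₀ hD] at hc2
      rw [mul_comm]
      exact hc2

/-- It suffices to treat the unit ball centred at the origin. -/
theorem exists_isGRB_ball (h : ∃ S, IsGRB {y : Fin d → ℝ | ∑ i, (y i) ^ 2 < 1} S)
    (z : Fin d → ℝ) (r : ℝ) (hr : 0 < r) :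
    ∃ S, IsGRB {y : Fin d → ℝ | ∑ i, (y i - z i) ^ 2 < r ^ 2} S := by
  have hr2 : 0 < r ^ 2 := by positivity
  have h2 : {u : Fin d → ℝ | (r • (1 : Matrix (Fin d) (Fin d) ℝ)).mulVec u ∈
      {y : Fin d → ℝ | ∑ i, (y i) ^ 2 < r ^ 2}} = {y : Fin d → ℝ | ∑ i, (y i) ^ 2 < 1} := by
    ext u
    have h3 : (r • (1 : Matrix (Fin d) (Fin d) ℝ)).mulVec u = fun i => r * u i := by
      rw [Matrix.smul_mulVec, Matrix.one_mulVec]
      rfl
    have h4 : ∑ i, ((fun i => r * u i) i) ^ 2 = r ^ 2 * ∑ i, (u i) ^ 2 := by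
      rw [Finset.mul_sum]
      refine Finset.sum_congr rfl (fun i _ => ?_)
      exact mul_pow _ _ _
    rw [Set.mem_setOf_eq, h3, Set.mem_setOf_eq, h4, Set.mem_setOf_eq]
    exact mul_lt_iff_lt_one_right hr2
  have h1 : ∃ S, IsGRB {y : Fin d → ℝ | ∑ i, (y i) ^ 2 < r ^ 2} S := by
    refine exists_isGRB_linear (r • (1 : Matrix (Fin d) (Fin d) ℝ)) ?_ ?_
    · rw [Matrix.det_smul, Matrix.det_one, mul_one]
      exact pow_ne_zero _ hr.ne'
    · rw [h2]
      exact h
  clear h2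
  have h5 : {y : Fin d → ℝ | y - z ∈ {y : Fin d → ℝ | ∑ i, (y i) ^ 2 < r ^ 2}} =
      {y : Fin d → ℝ | ∑ i, (y i - z i) ^ 2 < r ^ 2} := by
    ext y
    rw [Set.mem_setOf_eq, Set.mem_setOf_eq, Set.mem_setOf_eq]
    simp only [Pi.sub_apply]
  rw [← h5]
  exact exists_isGRB_translate z h1

end Pool.Agent.MP7c5cdb
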