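import Mathlib

set_option autoImplicit false
set_option maxHeartbeats 400000

namespace Pool.Agent.MP7c5cdb

/-- Subtracting from every column its predecessor column does not change the determinant. -/
lemma det_sub_pred {K R : Type*} [Fintype K] [DecidableEq K] [CommRing R]
    (A B : Matrix K K R) (pred : K → Option K) (rk : K → ℕ)
    (hrk : ∀ k k', pred k = some k' → rk k' < rk k)
    (h0 : ∀ ρ k, pred k = none → B ρ k = A ρ k)
    (h1 : ∀ ρ k k', pred k = some k' → B ρ k = A ρ k - A ρ k') : B.det = A.det := by
  classical
  let U : Matrix K K R := fun i j => (if i = j then 1 else 0) - (if pred j = some i then 1 else 0)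
  have hBU : B = A * U := by
    ext1 ρ k
    rw [Matrix.mul_apply]
    simp only [U, mul_sub, mul_ite, mul_one, mul_zero, Finset.sum_sub_distrib]
    rw [Finset.sum_ite_eq' Finset.univ k (fun i => A ρ i), if_pos (Finset.mem_univ k)]
    cases hp : pred k with
    | none =>
      rw [h0 ρ k hp]
      simp
    | some k' =>
      rw [h1 ρ k k' hp]
      congr 1
      simp only [Option.some.injEq]
      rw [Finset.sum_ite_eq Finset.univ k' (fun i => A ρ i), if_pos (Finset.mem_univ k')]
  have htri : U.BlockTriangular rk := by
    intro i j hij
    simp only [U]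
    rw [if_neg, if_neg, sub_zero]
    · intro hp
      have := hrk j i hp
      omega
    · intro h
      rw [h] at hij
      exact lt_irrefl _ hij
  have hU : U.det = 1 := by
    rw [htri.det]
    refine Finset.prod_eq_one (fun a _ => ?_)
    have h2 : U.toSquareBlock rk a = 1 := by
      ext1 i j
      rw [Matrix.toSquareBlock_def, Matrix.of_apply]
      simp only [U]
      have h6 : ¬ (pred j.1 = some i.1) := by
        intro hp
        have h3 := hrk j.1 i.1 hp
        have h4 := i.2
        have h5 := j.2
        omega
      rw [if_neg h6, sub_zero, Matrix.one_apply]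
      by_cases hij : i = j
      · rw [if_pos hij, if_pos (congrArg Subtype.val hij)]
      · rw [if_neg hij, if_neg (fun h => hij (Subtype.ext h))]
    rw [h2, Matrix.det_one]
  rw [hBU, Matrix.det_mul, hU, mul_one]

end Pool.Agent.MP7c5cdb
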