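import Pool.Agent.MP_7c5cdb.Fiber

set_option autoImplicit false
open MeasureTheory Set
open scoped ENNReal ComplexConjugate

namespace Pool.Agent.MP7c5cdb

variable {d : ℕ} {J : Type}

lemma volume_lt_top_of_bdd {Ω : Set (Fin d → ℝ)} (h : ∃ R : ℝ, ∀ y ∈ Ω, ∀ i, |y i| ≤ R) :
    volume Ω < ∞ := by
  obtain ⟨R, hR⟩ := h
  refine lt_of_le_of_lt (measure_mono (t := Metric.closedBall 0 |R|) ?_) measure_closedBall_lt_top
  intro y hy
  rw [mem_closedBall_zero_iff, pi_norm_le_iff_of_nonneg (abs_nonneg _)]
  intro i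
  rw [Real.norm_eq_abs]
  exact (hR y hy i).trans (le_abs_self _)

lemma memLp_gab {Ω : Set (Fin d → ℝ)} (hm : MeasurableSet Ω)
    (h : ∃ R : ℝ, ∀ y ∈ Ω, ∀ i, |y i| ≤ R) (p : (Fin d → ℝ) × (Fin d → ℝ)) :
    MemLp (gab Ω p) 2 volume := by
  have hpre : volume ((fun x : Fin d → ℝ => x - p.1) ⁻¹' Ω) < ∞ := by
    have : MeasurePreserving (fun x : Fin d → ℝ => x - p.1) volume volume :=
      measurePreserving_sub_right volume p.1
    rw [this.measure_preimage hm.nullMeasurableSet]
    exact volume_lt_top_of_bdd h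
  have hmp : MeasurableSet ((fun x : Fin d → ℝ => x - p.1) ⁻¹' Ω) :=
    hm.preimage (measurable_sub_const _)
  refine MemLp.mono (g := fun x => Set.indicator ((fun x : Fin d → ℝ => x - p.1) ⁻¹' Ω)
    (fun _ => (1 : ℂ)) x) ?_ (measurable_gab hm p).aestronglyMeasurable ?_
  · exact memLp_indicator_const 2 hmp (1 : ℂ) (Or.inr hpre.ne)
  · refine Filter.Eventually.of_forall (fun x => ?_)
    by_cases hx : x - p.1 ∈ Ω
    · have hx' : x ∈ ((fun x : Fin d → ℝ => x - p.1) ⁻¹' Ω) := hx
      rw [Set.indicator_of_mem hx']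
      simpa using norm_gab_le p x
    · have hx' : x ∉ ((fun x : Fin d → ℝ => x - p.1) ⁻¹' Ω) := hx
      rw [Set.indicator_of_notMem hx']
      unfold gab
      rw [Set.indicator_of_notMem hx]
      simp

lemma norm_fib_le (Ω : Set (Fin d → ℝ)) (c a : J → Fin d → ℝ) (x : Fin d → ℝ)
    (p : Fin d → ℤ) (j : J) : ‖fib Ω c a x p j‖ ≤ 1 := by
  unfold fib
  rw [norm_mul, ee_norm, one_mul]
  by_cases h : (fun i => x i + (p i : ℝ) - c j i) ∈ Ω
  · simp [Set.indicator_of_mem h]
  · simp [Set.indicator_of_notMem h]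

lemma measurable_fib {Ω : Set (Fin d → ℝ)} (hm : MeasurableSet Ω) (c a : J → Fin d → ℝ)
    (p : Fin d → ℤ) (j : J) : Measurable (fun x => fib Ω c a x p j) := by
  unfold fib
  refine Measurable.const_mul ?_ _
  refine (measurable_const.indicator hm).comp ?_
  exact Continuous.measurable (by fun_prop)

/-- For bounded `Ω` only finitely many integer vectors matter for each column. -/
lemma fib_finite {Ω : Set (Fin d → ℝ)} (h : ∃ R : ℝ, ∀ y ∈ Ω, ∀ i, |y i| ≤ R)
    (c a : J → Fin d → ℝ) (j : J) :
    ∃ N : Finset (Fin d → ℤ), ∀ x ∈ cube d, ∀ n, n ∉ N → fib Ω c a x n j = 0 := by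
  obtain ⟨R, hR⟩ := h
  refine ⟨Fintype.piFinset (fun i => Finset.Icc (-⌈|R| + |c j i| + 1⌉) ⌈|R| + |c j i| + 1⌉), ?_⟩
  intro x hx n hn
  unfold fib
  rw [Set.indicator_of_notMem, mul_zero]
  intro hmem
  apply hn
  rw [Fintype.mem_piFinset]
  intro i
  have h1 := hR _ hmem i
  have h2 := hx i
  simp only [zero_add, mem_Ioc] at h2
  have h3 : |(n i : ℝ)| ≤ |R| + |c j i| + 1 := by
    have e : (n i : ℝ) = (x i + (n i : ℝ) - c j i) + c j i - x i := by ring
    rw [e]
    have h4 : |x i| ≤ 1 := by
      rw [abs_le]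
      constructor <;> linarith [h2.1, h2.2]
    calc |(x i + (n i : ℝ) - c j i) + c j i - x i|
        ≤ |(x i + (n i : ℝ) - c j i) + c j i| + |x i| := abs_sub _ _
      _ ≤ |(x i + (n i : ℝ) - c j i)| + |c j i| + |x i| := by
          gcongr
          exact abs_add_le _ _
      _ ≤ |R| + |c j i| + 1 := by
          have := le_abs_self R
          linarith
  have h5 : |(n i : ℝ)| ≤ (⌈|R| + |c j i| + 1⌉ : ℤ) := h3.trans (Int.le_ceil _)
  rw [abs_le] at h5
  rw [Finset.mem_Icc]
  constructor
  · exact_mod_cast h5.1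
  · exact_mod_cast h5.2

/-- An `L²` function orthogonal to the whole system vanishes. -/
lemma orth_zero [Countable J] {Ω : Set (Fin d → ℝ)} {c a : J → Fin d → ℝ}
    (H : FiberHyp Ω c a) (g : (Fin d → ℝ) → ℂ) (hg : StronglyMeasurable g)
    (hg2 : MemLp g 2 volume)
    (horth : ∀ q : J × (Fin d → ℤ), ∫ x, conj (gab Ω (par c a q) x) * g x = 0) :
    ∫⁻ x, ‖g x‖ₑ ^ 2 = 0 := by
  have hfin : ∫⁻ x, ‖g x‖ₑ ^ 2 < ∞ := by
    rw [← eLpNorm_two_sq]
    exact ENNReal.pow_lt_top hg2.2
  have hcol : ∀ j, ∀ᵐ x ∂((volume : Measure (Fin d → ℝ)).restrict (cube d)),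
      ∑' n : Fin d → ℤ, conj (fib Ω c a x n j) * g (x + zv n) = 0 := by
    intro j
    obtain ⟨N, hN⟩ := fib_finite H.bdd c a j
    let h : (Fin d → ℝ) → ℂ := fun x => conj (ee (dotr (a j) x)) *
      ∑ n ∈ N, conj (fib Ω c a x n j) * g (x + zv n)
    have hdr : Measurable (fun x : Fin d → ℝ => conj (ee (dotr (a j) x))) := by
      refine (Complex.continuous_conj.measurable).comp (continuous_ee.measurable.comp ?_)
      unfold dotr
      exact Continuous.measurable (by fun_prop)
    have hterm : ∀ n : Fin d → ℤ, StronglyMeasurable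
        (fun x => conj (fib Ω c a x n j) * g (x + zv n)) := by
      intro n
      refine StronglyMeasurable.mul ?_ (hg.comp_measurable (measurable_add_const _))
      exact ((Complex.continuous_conj.measurable).comp
        (measurable_fib H.meas c a n j)).stronglyMeasurable
    have hhm : StronglyMeasurable h := by
      refine StronglyMeasurable.mul hdr.stronglyMeasurable ?_
      exact Finset.stronglyMeasurable_fun_sum _ (fun n _ => hterm n)
    have hsum : ∀ x ∈ cube d, ∑' n : Fin d → ℤ, conj (fib Ω c a x n j) * g (x + zv n) =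
        ∑ n ∈ N, conj (fib Ω c a x n j) * g (x + zv n) := by
      intro x hx
      refine tsum_eq_sum (fun n hn => ?_)
      rw [hN x hx n hn]
      simp
    have hh2 : ∫⁻ x in cube d, ‖h x‖ₑ ^ 2 < ∞ := by
      have hL : MemLp (fun x => ∑ n ∈ N, conj (fib Ω c a x n j) * g (x + zv n)) 2
          ((volume : Measure (Fin d → ℝ)).restrict (cube d)) := by
        refine memLp_finsetSum _ (fun n _ => ?_)
        have hgn : MemLp (fun x => g (x + zv n)) 2 volume :=
          hg2.comp_measurePreserving (measurePreserving_add_right volume (zv n))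
        refine MemLp.mono (hgn.restrict _) (hterm n).aestronglyMeasurable ?_
        refine Filter.Eventually.of_forall (fun x => ?_)
        rw [norm_mul, RCLike.norm_conj]
        calc ‖fib Ω c a x n j‖ * ‖g (x + zv n)‖ ≤ 1 * ‖g (x + zv n)‖ := by
              gcongr
              exact norm_fib_le Ω c a x n j
          _ = ‖g (x + zv n)‖ := one_mul _
      have h3 : ∀ x, ‖h x‖ₑ ^ 2 = ‖∑ n ∈ N, conj (fib Ω c a x n j) * g (x + zv n)‖ₑ ^ 2 := by
        intro x
        simp only [h]
        rw [enorm_mul]
        have : ‖conj (ee (dotr (a j) x))‖ₑ = 1 := by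
          rw [← ofReal_norm, RCLike.norm_conj, ee_norm]
          simp
        rw [this, one_mul]
      simp only [h3]
      rw [← eLpNorm_two_sq]
      exact ENNReal.pow_lt_top hL.2
    have hcoef : ∀ γ : Fin d → ℤ, ∫ x in cube d, ee (-(dotz γ x)) * h x = 0 := by
      intro γ
      have h4 := horth (j, γ)
      have hsm : StronglyMeasurable (fun x => conj (gab Ω (par c a (j, γ)) x) * g x) :=
        ((Complex.continuous_conj.measurable).comp
          (measurable_gab H.meas _)).stronglyMeasurable.mul hg
      have hint : Integrable (fun x => conj (gab Ω (par c a (j, γ)) x) * g x) := by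
        have h5 := memLp_gab H.meas H.bdd (par c a (j, γ))
        have h6 : MemLp (fun x => conj (gab Ω (par c a (j, γ)) x)) 2 volume := h5.star
        exact h6.integrable_mul hg2
      rw [integral_unfold _ hsm hint] at h4
      rw [← h4]
      refine setIntegral_congr_fun measurableSet_cube (fun x hx => ?_)
      simp only [h]
      rw [← hsum x hx, ← mul_assoc, ← tsum_mul_left]
      refine tsum_congr (fun n => ?_)
      rw [gab_unfold, map_mul, map_mul, ← ee_conj]
      ring
    have hz := ae_zero_of_coeff h hhm hh2 hcoef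
    filter_upwards [hz, ae_restrict_mem measurableSet_cube] with x hx hxc
    rw [hsum x hxc]
    have h7 : conj (ee (dotr (a j) x)) ≠ 0 := by
      rw [ee_conj]
      exact ee_ne_zero _
    exact (mul_eq_zero.1 hx).resolve_left h7
  have hcol' := ae_all_iff.2 hcol
  have hunf := lintegral_unfold (fun x => ‖g x‖ₑ ^ 2) (hg.enorm.pow_const 2)
  have hmt : Measurable (fun x => ∑' n : Fin d → ℤ, ‖g (x + zv n)‖ₑ ^ 2) :=
    Measurable.ennreal_tsum (fun n =>
      ((hg.comp_measurable (measurable_add_const _)).enorm).pow_const 2)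
  have hlt : ∀ᵐ x ∂((volume : Measure (Fin d → ℝ)).restrict (cube d)),
      ∑' n : Fin d → ℤ, ‖g (x + zv n)‖ₑ ^ 2 < ∞ := by
    refine ae_lt_top hmt ?_
    rw [← hunf]
    exact hfin.ne
  rw [hunf, lintegral_eq_zero_iff hmt]
  filter_upwards [hcol', hlt, H.adj] with x h1 h2 h3
  have h4 := h3 (fun n => g (x + zv n)) h2 h1
  have h5 : ∀ n : Fin d → ℤ, g (x + zv n) = 0 := fun n => congrFun h4 n
  simp [h5]

/-- The fibration lemma. -/
theorem isGRB_of_fiberHyp [Countable J] {Ω : Set (Fin d → ℝ)} {c a : J → Fin d → ℝ}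
    (H : FiberHyp Ω c a) : IsGRB Ω (shifts c a) := by
  classical
  obtain ⟨A, B, hA, hB, hAB⟩ := bounds_par H
  refine ⟨A, B, hA, hB, ?_, ?_⟩
  · intro F hF c'
    have hinj : Set.InjOn (par c a) (par c a ⁻¹' (↑F : Set ((Fin d → ℝ) × (Fin d → ℝ)))) :=
      (par_injective H).injOn
    have hs : ∀ {M : Type} [AddCommMonoid M] (G : (Fin d → ℝ) × (Fin d → ℝ) → M),
        ∑ p ∈ F, G p = ∑ q ∈ F.preimage (par c a) hinj, G (par c a q) := by
      intro M _ G
      rw [Finset.sum_preimage]
      intro p hp hp'
      exact absurd (hF hp) hp'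
    have h1 := hAB (F.preimage (par c a) hinj) (fun q => c' (par c a q))
    simp only [hs]
    exact h1
  · intro f hf ε hε
    let v : J × (Fin d → ℤ) → Lp ℂ 2 (volume : Measure (Fin d → ℝ)) := fun q =>
      (memLp_gab H.meas H.bdd (par c a q)).toLp _
    let K := Submodule.span ℂ (Set.range v)
    have hK : K.topologicalClosure = ⊤ := by
      rw [Submodule.topologicalClosure_eq_top_iff, Submodule.eq_bot_iff]
      intro g hg
      have horth : ∀ q : J × (Fin d → ℤ), ∫ x, conj (gab Ω (par c a q) x) * g x = 0 := by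
        intro q
        have h1 := (Submodule.mem_orthogonal K g).1 hg (v q)
          (Submodule.subset_span (Set.mem_range_self q))
        rw [L2.inner_def] at h1
        rw [← h1]
        refine integral_congr_ae ?_
        filter_upwards [(memLp_gab H.meas H.bdd (par c a q)).coeFn_toLp] with x hx
        simp only [v]
        rw [hx, RCLike.inner_apply]
        ring
      have h2 := orth_zero H g (Lp.stronglyMeasurable g) (Lp.memLp g) horth
      rw [← eLpNorm_two_sq] at h2
      have h3 : eLpNorm g 2 volume = 0 := by simpa using h2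
      rw [← Lp.enorm_def] at h3
      simpa using h3
    have hcl : (hf.toLp f) ∈ closure (K : Set (Lp ℂ 2 (volume : Measure (Fin d → ℝ)))) := by
      have : (hf.toLp f) ∈ K.topologicalClosure := by
        rw [hK]
        trivial
      exact this
    rw [Metric.mem_closure_iff] at hcl
    obtain ⟨k, hkK, hk⟩ := hcl (Real.sqrt ε) (Real.sqrt_pos.2 hε)
    obtain ⟨l, hl⟩ := (Finsupp.mem_span_range_iff_exists_finsupp).1 hkK
    refine ⟨l.support.image (par c a), ?_, Function.extend (par c a) l 0, ?_⟩
    · intro p hp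
      rw [Finset.coe_image] at hp
      obtain ⟨q, _, rfl⟩ := hp
      exact Set.mem_range_self q
    · have hs : ∀ x, ∑ p ∈ l.support.image (par c a), Function.extend (par c a) l 0 p * gab Ω p x =
          ∑ q ∈ l.support, l q * gab Ω (par c a q) x := by
        intro x
        rw [Finset.sum_image (fun q _ q' _ h => par_injective H h)]
        refine Finset.sum_congr rfl (fun q _ => ?_)
        rw [(par_injective H).extend_apply]
      simp only [hs]
      have hsm : MemLp (fun x => ∑ q ∈ l.support, l q * gab Ω (par c a q) x) 2 volume :=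
        memLp_finsetSum _ (fun q _ => (memLp_gab H.meas H.bdd (par c a q)).const_mul _)
      have hk' : k = hsm.toLp _ := by
        rw [← hl]
        apply Lp.ext
        refine Filter.EventuallyEq.trans ?_ hsm.coeFn_toLp.symm
        unfold Finsupp.sum
        refine (Lp.coeFn_finsetSum _ _).trans ?_
        have hall : ∀ᵐ x ∂(volume : Measure (Fin d → ℝ)), ∀ q ∈ l.support,
            (l q • v q : Lp ℂ 2 (volume : Measure (Fin d → ℝ))) x =
              l q * gab Ω (par c a q) x := by
          rw [Filter.eventually_all_finset]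
          intro q _
          filter_upwards [Lp.coeFn_smul (l q) (v q),
            (memLp_gab H.meas H.bdd (par c a q)).coeFn_toLp] with x h1 h2
          rw [h1, Pi.smul_apply, smul_eq_mul]
          simp only [v]
          rw [h2]
        filter_upwards [hall] with x hx
        rw [Finset.sum_apply]
        exact Finset.sum_congr rfl hx
      have hdiff : MemLp (fun x => f x - ∑ q ∈ l.support, l q * gab Ω (par c a q) x) 2 volume :=
        hf.sub hsm
      have hnorm : ∫ x, ‖f x - ∑ q ∈ l.support, l q * gab Ω (par c a q) x‖ ^ 2 =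
          ‖hdiff.toLp _‖ ^ 2 := by
        rw [integral_eq_lintegral_of_nonneg_ae]
        · have h1 : ∫⁻ x, ENNReal.ofReal
              (‖f x - ∑ q ∈ l.support, l q * gab Ω (par c a q) x‖ ^ 2) =
              eLpNorm (fun x => f x - ∑ q ∈ l.support, l q * gab Ω (par c a q) x) 2 volume ^ 2 := by
            rw [eLpNorm_two_sq]
            refine lintegral_congr (fun x => ?_)
            rw [ENNReal.ofReal_pow (norm_nonneg _), ofReal_norm]
          rw [h1, Lp.norm_toLp, ENNReal.toReal_pow]
        · exact Filter.Eventually.of_forall (fun x => by positivity)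
        · exact (hdiff.1.norm.aemeasurable.pow_const 2).aestronglyMeasurable
      rw [hnorm]
      have h8 : hdiff.toLp _ = hf.toLp f - k := by
        rw [hk']
        rfl
      rw [h8, ← dist_eq_norm]
      calc dist (hf.toLp f) k ^ 2 < (Real.sqrt ε) ^ 2 := by
            gcongr
        _ = ε := Real.sq_sqrt hε.le

end Pool.Agent.MP7c5cdb
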