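import Pool.Agent.MP_7c5cdb.Complete

set_option autoImplicit false
open MeasureTheory Set
open scoped ENNReal ComplexConjugate

namespace Pool.Agent.MP7c5cdb

/-- The shift set of a Gabor Riesz basis with bounded measurable window is countable. -/
theorem IsGRB.countable {d : ℕ} {Ω : Set (Fin d → ℝ)} (hm : MeasurableSet Ω)
    (hb : ∃ R : ℝ, ∀ y ∈ Ω, ∀ i, |y i| ≤ R)
    {S : Set ((Fin d → ℝ) × (Fin d → ℝ))} (h : IsGRB Ω S) : S.Countable := by
  classical
  obtain ⟨A, B, hA, hB, hS, -⟩ := h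
  have hmem : ∀ p, MemLp (gab Ω p) 2 (volume : Measure (Fin d → ℝ)) :=
    fun p => memLp_gab hm hb p
  have : Fact ((2 : ℝ≥0∞) ≠ ∞) := ⟨by norm_num⟩
  have hsep : TopologicalSpace.SeparableSpace (Lp ℂ 2 (volume : Measure (Fin d → ℝ))) := inferInstance
  let f : (Fin d → ℝ) × (Fin d → ℝ) → Lp ℂ 2 (volume : Measure (Fin d → ℝ)) :=
    fun p => (hmem p).toLp (gab Ω p)
  have hdist : ∀ p ∈ S, ∀ q ∈ S, p ≠ q → Real.sqrt A ≤ dist (f p) (f q) := by
    intro p hp q hq hpq
    have h1 := (hS {p, q} (by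
      intro x hx
      rw [Finset.mem_coe, Finset.mem_insert, Finset.mem_singleton] at hx
      rcases hx with rfl | rfl
      · exact hp
      · exact hq) (fun x => if x = p then 1 else -1)).1
    rw [Finset.sum_pair hpq] at h1
    simp only [Finset.sum_pair hpq, if_true, if_neg (Ne.symm hpq), one_mul, neg_mul,
      norm_neg, norm_one, one_pow] at h1
    have hsub : MemLp (fun x => gab Ω p x + -gab Ω q x) 2 (volume : Measure (Fin d → ℝ)) :=
      (hmem p).add (hmem q).neg
    have h2 : dist (f p) (f q) ^ 2 = ∫ x, ‖gab Ω p x + -gab Ω q x‖ ^ 2 := by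
      have h3 : f p - f q = hsub.toLp _ := by
        simp only [f]
        rw [← MemLp.toLp_sub]
        refine (MemLp.toLp_eq_toLp_iff _ _).2 (Filter.Eventually.of_forall (fun x => ?_))
        simp [sub_eq_add_neg]
      have h4 : ∫ x, ‖gab Ω p x + -gab Ω q x‖ ^ 2 =
          (∫⁻ x, ENNReal.ofReal (‖gab Ω p x + -gab Ω q x‖ ^ 2)).toReal :=
        integral_eq_lintegral_of_nonneg_ae (Filter.Eventually.of_forall (fun x => by
          show 0 ≤ ‖gab Ω p x + -gab Ω q x‖ ^ 2
          positivity)) (hsub.1.norm.pow 2)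
      rw [dist_eq_norm, h3, Lp.norm_toLp, ← ENNReal.toReal_pow, eLpNorm_two_sq, h4]
      congr 1
      refine lintegral_congr (fun x => ?_)
      rw [ENNReal.ofReal_pow (norm_nonneg _), ofReal_norm]
    rw [← h2] at h1
    refine Real.sqrt_le_iff.2 ⟨dist_nonneg, ?_⟩
    linarith
  have hpos : 0 < Real.sqrt A := Real.sqrt_pos.2 hA
  refine Set.PairwiseDisjoint.countable_of_isOpen
    (s := fun p => Metric.ball (f p) (Real.sqrt A / 2)) ?_ (fun p _ => Metric.isOpen_ball)
    (fun p _ => ⟨f p, Metric.mem_ball_self (by linarith)⟩)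
  intro p hp q hq hpq
  refine Metric.ball_disjoint_ball ?_
  have := hdist p hp q hq hpq
  linarith

end Pool.Agent.MP7c5cdb
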