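import Mathlib

set_option autoImplicit false
open MeasureTheory Set
open scoped ENNReal ComplexConjugate

namespace Pool.Agent.MP7c5cdb

/-- The time-frequency shift of the indicator function of `Ω`, exactly as in the frozen statement:
`p.1` is the translation and `p.2` the modulation. -/
noncomputable def gab {d : ℕ} (Ω : Set (Fin d → ℝ)) (p : (Fin d → ℝ) × (Fin d → ℝ))
    (x : Fin d → ℝ) : ℂ :=
  Complex.exp (2 * (Real.pi : ℂ) * Complex.I * ((∑ i, p.2 i * x i : ℝ) : ℂ)) *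
    Set.indicator Ω (fun _ => (1 : ℂ)) (x - p.1)

/-- The conclusion of the frozen statement: the Gabor system of the indicator of `Ω` with shifts
`S` has two-sided Riesz bounds and is complete in `L²`. -/
def IsGRB {d : ℕ} (Ω : Set (Fin d → ℝ)) (S : Set ((Fin d → ℝ) × (Fin d → ℝ))) : Prop :=
    ∃ A B : ℝ, 0 < A ∧ 0 < B ∧
    (∀ F : Finset ((Fin d → ℝ) × (Fin d → ℝ)), (↑F : Set ((Fin d → ℝ) × (Fin d → ℝ))) ⊆ S →
      ∀ c : (Fin d → ℝ) × (Fin d → ℝ) → ℂ,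
        A * ∑ p ∈ F, ‖c p‖ ^ 2 ≤
          ∫ x : Fin d → ℝ, ‖∑ p ∈ F, c p * gab Ω p x‖ ^ 2 ∧
        ∫ x : Fin d → ℝ, ‖∑ p ∈ F, c p * gab Ω p x‖ ^ 2
          ≤ B * ∑ p ∈ F, ‖c p‖ ^ 2) ∧
    (∀ f : (Fin d → ℝ) → ℂ, MemLp f 2 volume → ∀ ε : ℝ, 0 < ε →
      ∃ F : Finset ((Fin d → ℝ) × (Fin d → ℝ)),
        (↑F : Set ((Fin d → ℝ) × (Fin d → ℝ))) ⊆ S ∧
        ∃ c : (Fin d → ℝ) × (Fin d → ℝ) → ℂ,
          ∫ x : Fin d → ℝ, ‖f x - ∑ p ∈ F, c p * gab Ω p x‖ ^ 2 < ε)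

/-- The exponential `e(t) = exp(2 π i t)`. -/
noncomputable def ee (t : ℝ) : ℂ := Complex.exp (2 * (Real.pi : ℂ) * Complex.I * (t : ℂ))

lemma ee_zero : ee 0 = 1 := by simp [ee]

lemma ee_add (s t : ℝ) : ee (s + t) = ee s * ee t := by
  unfold ee
  rw [← Complex.exp_add]
  congr 1
  push_cast
  ring

lemma ee_norm (t : ℝ) : ‖ee t‖ = 1 := by
  unfold ee
  have : 2 * (Real.pi : ℂ) * Complex.I * (t : ℂ) = ((2 * Real.pi * t : ℝ) : ℂ) * Complex.I := by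
    push_cast
    ring
  rw [this, Complex.norm_exp_ofReal_mul_I]

lemma ee_int (n : ℤ) : ee (n : ℝ) = 1 := by
  unfold ee
  have : 2 * (Real.pi : ℂ) * Complex.I * (((n : ℝ)) : ℂ) = n * (2 * Real.pi * Complex.I) := by
    push_cast
    ring
  rw [this, Complex.exp_int_mul_two_pi_mul_I]

lemma ee_ne_zero (t : ℝ) : ee t ≠ 0 := Complex.exp_ne_zero _

lemma ee_conj (t : ℝ) : conj (ee t) = ee (-t) := by
  unfold ee
  rw [← Complex.exp_conj]
  congr 1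
  have h2 : (starRingEnd ℂ) 2 = 2 := map_ofNat _ 2
  simp [h2]

lemma ee_conj_mul (t : ℝ) : conj (ee t) * ee t = 1 := by
  rw [ee_conj, ← ee_add]
  simp [ee_zero]

lemma continuous_ee : Continuous ee := by
  unfold ee
  fun_prop

/-- The fibre matrix. -/
noncomputable def fib {d : ℕ} {J : Type} (Ω : Set (Fin d → ℝ)) (c a : J → Fin d → ℝ)
    (x : Fin d → ℝ) (p : Fin d → ℤ) (j : J) : ℂ :=
  ee (∑ i, a j i * (p i : ℝ)) *
    Set.indicator Ω (fun _ => (1 : ℂ)) (fun i => x i + (p i : ℝ) - c j i)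

/-- The shift set. -/
def shifts {d : ℕ} {J : Type} (c a : J → Fin d → ℝ) : Set ((Fin d → ℝ) × (Fin d → ℝ)) :=
  Set.range (fun q : J × (Fin d → ℤ) => ((c q.1, fun i => a q.1 i + (q.2 i : ℝ)) :
    (Fin d → ℝ) × (Fin d → ℝ)))

end Pool.Agent.MP7c5cdb
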