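import Pool.Agent.MP_7c5cdb.RowA

set_option autoImplicit false
set_option maxHeartbeats 400000
open MeasureTheory Set Filter Topology
open scoped ENNReal ComplexConjugate Pointwise

namespace Pool.Agent.MP7c5cdb

variable {G : Type} [AddCommGroup G]

/-- Dominant coefficient with respect to a finite set containing the support. -/
lemma domAt_iff [DecidableEq G] {φ : AddMonoidAlgebra ℂ G} {S : Finset G}
    (hS : ∀ g, g ∉ S → φ.coeff g = 0) :
    DomAt φ ↔ ∃ g, ∑ t ∈ S.erase g, ‖φ.coeff t‖ < ‖φ.coeff g‖ := by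
  have hsup : φ.coeff.support ⊆ S := by
    intro g hg
    by_contra h
    exact (Finsupp.mem_support_iff.1 hg) (hS g h)
  constructor
  · rintro ⟨g, z, ψ, h, hlt⟩
    refine ⟨g, ?_⟩
    have h1 : ∀ t, t ≠ g → φ.coeff t = ψ.coeff t := by
      intro t ht
      rw [h, AddMonoidAlgebra.coeff_add, Finsupp.add_apply, AddMonoidAlgebra.coeff_single,
        Finsupp.single_apply, if_neg (Ne.symm ht), zero_add]
    have h2 : φ.coeff g = z + ψ.coeff g := by
      rw [h, AddMonoidAlgebra.coeff_add, Finsupp.add_apply, AddMonoidAlgebra.coeff_single,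
        Finsupp.single_eq_same]
    have h3 : ∑ t ∈ S.erase g, ‖φ.coeff t‖ ≤ ∑ t ∈ ψ.coeff.support.erase g, ‖ψ.coeff t‖ := by
      have h4 : ∑ t ∈ S.erase g, ‖φ.coeff t‖ = ∑ t ∈ S.erase g, ‖ψ.coeff t‖ :=
        Finset.sum_congr rfl (fun t ht => by rw [h1 t (Finset.ne_of_mem_erase ht)])
      rw [h4, ← Finset.sum_filter_ne_zero (s := S.erase g)]
      refine Finset.sum_le_sum_of_subset_of_nonneg ?_ (fun _ _ _ => norm_nonneg _)
      intro t ht
      rw [Finset.mem_filter] at ht
      rw [Finset.mem_erase, Finsupp.mem_support_iff]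
      exact ⟨Finset.ne_of_mem_erase ht.1, fun h5 => ht.2 (by rw [h5, norm_zero])⟩
    have h5 : ∑ t ∈ ψ.coeff.support.erase g, ‖ψ.coeff t‖ + ‖ψ.coeff g‖ =
        ∑ t ∈ ψ.coeff.support, ‖ψ.coeff t‖ := by
      by_cases hg : g ∈ ψ.coeff.support
      · exact Finset.sum_erase_add _ _ hg
      · rw [Finset.erase_eq_of_notMem hg, Finsupp.notMem_support_iff.1 hg, norm_zero, add_zero]
    have h6 : ‖z‖ ≤ ‖φ.coeff g‖ + ‖ψ.coeff g‖ := by
      have : z = φ.coeff g - ψ.coeff g := by rw [h2]; ring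
      rw [this]
      exact norm_sub_le _ _
    linarith
  · rintro ⟨g, hg⟩
    let _ : MeasurableSpace G := ⊤
    have : DiscreteMeasurableSpace G := ⟨fun _ => trivial⟩
    refine DomAt.of_coeff ⟨g, lt_of_le_of_lt ?_ hg⟩
    exact Finset.sum_le_sum_of_subset_of_nonneg (Finset.erase_subset_erase g hsup)
      (fun _ _ _ => norm_nonneg _)

/-- Coefficientwise convergence with uniformly finite support. -/
def CT {I : Type*} (F : Filter I) (f : I → AddMonoidAlgebra ℂ G) (φ : AddMonoidAlgebra ℂ G) :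
    Prop :=
  ∃ S : Finset G, (∀ i g, g ∉ S → (f i).coeff g = 0) ∧ (∀ g, g ∉ S → φ.coeff g = 0) ∧
    ∀ g, Tendsto (fun i => (f i).coeff g) F (𝓝 (φ.coeff g))

namespace CT

variable {I : Type*} {F : Filter I}

omit [AddCommGroup G] in
lemma const (φ : AddMonoidAlgebra ℂ G) : CT F (fun _ => φ) φ :=
  ⟨φ.coeff.support, fun _ _ h => Finsupp.notMem_support_iff.1 h,
    fun _ h => Finsupp.notMem_support_iff.1 h, fun _ => tendsto_const_nhds⟩

lemma add {f h : I → AddMonoidAlgebra ℂ G} {φ ψ : AddMonoidAlgebra ℂ G}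
    (hf : CT F f φ) (hh : CT F h ψ) : CT F (fun i => f i + h i) (φ + ψ) := by
  classical
  obtain ⟨S, h1, h2, h3⟩ := hf
  obtain ⟨T, k1, k2, k3⟩ := hh
  refine ⟨S ∪ T, fun i g hg => ?_, fun g hg => ?_, fun g => ?_⟩
  · rw [Finset.notMem_union] at hg
    rw [AddMonoidAlgebra.coeff_add, Finsupp.add_apply, h1 i g hg.1, k1 i g hg.2, add_zero]
  · rw [Finset.notMem_union] at hg
    rw [AddMonoidAlgebra.coeff_add, Finsupp.add_apply, h2 g hg.1, k2 g hg.2, add_zero]
  · simp only [AddMonoidAlgebra.coeff_add, Finsupp.add_apply]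
    exact (h3 g).add (k3 g)

omit [AddCommGroup G] in
/-- A monomial with a convergent coefficient. -/
lemma single {c : I → ℂ} {z : ℂ} (hc : Tendsto c F (𝓝 z)) (g : G) :
    CT F (fun i => AddMonoidAlgebra.single g (c i)) (AddMonoidAlgebra.single g z) := by
  classical
  refine ⟨{g}, fun i t ht => ?_, fun t ht => ?_, fun t => ?_⟩
  · rw [AddMonoidAlgebra.coeff_single, Finsupp.single_apply, if_neg]
    intro h
    exact ht (by rw [← h]; exact Finset.mem_singleton_self _)
  · rw [AddMonoidAlgebra.coeff_single, Finsupp.single_apply, if_neg]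
    intro h
    exact ht (by rw [← h]; exact Finset.mem_singleton_self _)
  · simp only [AddMonoidAlgebra.coeff_single, Finsupp.single_apply]
    split_ifs
    · exact hc
    · exact tendsto_const_nhds

lemma mul {f h : I → AddMonoidAlgebra ℂ G} {φ ψ : AddMonoidAlgebra ℂ G}
    (hf : CT F f φ) (hh : CT F h ψ) : CT F (fun i => f i * h i) (φ * ψ) := by
  classical
  obtain ⟨S, h1, h2, h3⟩ := hf
  obtain ⟨T, k1, k2, k3⟩ := hh
  have key : ∀ (a b : AddMonoidAlgebra ℂ G), (∀ g, g ∉ S → a.coeff g = 0) →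
      ∀ g, (a * b).coeff g = ∑ s ∈ S, a.coeff s * b.coeff (-s + g) := by
    intro a b ha g
    have h4 : a = ∑ s ∈ S, AddMonoidAlgebra.single s (a.coeff s) := by
      apply AddMonoidAlgebra.coeff_injective
      ext t
      rw [AddMonoidAlgebra.coeff_sum, Finsupp.finsetSum_apply]
      simp only [AddMonoidAlgebra.coeff_single, Finsupp.single_apply]
      rw [Finset.sum_ite_eq' S t]
      split_ifs with ht
      · rfl
      · exact ha t ht
    conv_lhs => rw [h4]
    rw [Finset.sum_mul, AddMonoidAlgebra.coeff_sum, Finsupp.finsetSum_apply]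
    refine Finset.sum_congr rfl (fun s _ => ?_)
    rw [AddMonoidAlgebra.coeff_single_mul_apply]
  refine ⟨S + T, fun i g hg => ?_, fun g hg => ?_, fun g => ?_⟩
  · rw [key _ _ (h1 i)]
    refine Finset.sum_eq_zero (fun s hs => ?_)
    rw [k1 i, mul_zero]
    intro ht
    exact hg (by
      have := Finset.add_mem_add hs ht
      rwa [add_neg_cancel_left] at this)
  · rw [key _ _ h2]
    refine Finset.sum_eq_zero (fun s hs => ?_)
    rw [k2, mul_zero]
    intro ht
    exact hg (by
      have := Finset.add_mem_add hs ht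
      rwa [add_neg_cancel_left] at this)
  · simp only [key _ _ h2, fun i => key _ (h i) (h1 i) g]
    exact tendsto_finsetSum _ (fun s _ => (h3 s).mul (k3 _))

lemma smul {c : I → ℂ} {z : ℂ} (hc : Tendsto c F (𝓝 z)) {f : I → AddMonoidAlgebra ℂ G}
    {φ : AddMonoidAlgebra ℂ G} (hf : CT F f φ) : CT F (fun i => c i • f i) (z • φ) := by
  obtain ⟨S, h1, h2, h3⟩ := hf
  refine ⟨S, fun i g hg => ?_, fun g hg => ?_, fun g => ?_⟩
  · rw [AddMonoidAlgebra.coeff_smul_apply, h1 i g hg, smul_zero]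
  · rw [AddMonoidAlgebra.coeff_smul_apply, h2 g hg, smul_zero]
  · simp only [AddMonoidAlgebra.coeff_smul_apply]
    exact hc.smul (h3 g)

lemma sum {A : Type*} (s : Finset A) {f : A → I → AddMonoidAlgebra ℂ G}
    {φ : A → AddMonoidAlgebra ℂ G} (h : ∀ a ∈ s, CT F (f a) (φ a)) :
    CT F (fun i => ∑ a ∈ s, f a i) (∑ a ∈ s, φ a) := by
  classical
  induction s using Finset.induction_on with
  | empty =>
    simp only [Finset.sum_empty]
    exact const 0
  | insert a s ha ih =>
    simp only [Finset.sum_insert ha]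
    exact (h a (Finset.mem_insert_self a s)).add
      (ih (fun b hb => h b (Finset.mem_insert_of_mem hb)))

lemma prod {A : Type*} (s : Finset A) {f : A → I → AddMonoidAlgebra ℂ G}
    {φ : A → AddMonoidAlgebra ℂ G} (h : ∀ a ∈ s, CT F (f a) (φ a)) :
    CT F (fun i => ∏ a ∈ s, f a i) (∏ a ∈ s, φ a) := by
  classical
  induction s using Finset.induction_on with
  | empty =>
    simp only [Finset.prod_empty]
    exact const 1
  | insert a s ha ih =>
    simp only [Finset.prod_insert ha]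
    exact (h a (Finset.mem_insert_self a s)).mul
      (ih (fun b hb => h b (Finset.mem_insert_of_mem hb)))

lemma det {K : Type*} [Fintype K] [DecidableEq K] {A : I → Matrix K K (AddMonoidAlgebra ℂ G)}
    {B : Matrix K K (AddMonoidAlgebra ℂ G)} (h : ∀ r k, CT F (fun i => A i r k) (B r k)) :
    CT F (fun i => (A i).det) B.det := by
  simp only [Matrix.det_apply']
  refine sum _ (fun σ _ => ?_)
  exact (const _).mul (prod _ (fun k _ => h (σ k) k))

/-- Openness of the domination. -/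
lemma dom {f : I → AddMonoidAlgebra ℂ G} {φ : AddMonoidAlgebra ℂ G} (h : CT F f φ)
    (hφ : DomAt φ) : ∀ᶠ i in F, DomAt (f i) := by
  classical
  obtain ⟨S, h1, h2, h3⟩ := h
  obtain ⟨g, hg⟩ := (domAt_iff h2).1 hφ
  have h4 : Tendsto (fun i => ∑ t ∈ S.erase g, ‖(f i).coeff t‖) F
      (𝓝 (∑ t ∈ S.erase g, ‖φ.coeff t‖)) :=
    tendsto_finsetSum _ (fun t _ => (h3 t).norm)
  have h5 : Tendsto (fun i => ‖(f i).coeff g‖) F (𝓝 ‖φ.coeff g‖) := (h3 g).norm
  filter_upwards [h4.eventually_lt h5 hg] with i hi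
  exact (domAt_iff (h1 i)).2 ⟨g, hi⟩

end CT

/-- Multiplying by a nonzero scalar. -/
lemma DomAt.smul {φ : AddMonoidAlgebra ℂ G} (h : DomAt φ) {z : ℂ} (hz : z ≠ 0) :
    DomAt (z • φ) := by
  have h1 := h.single_mul 0 hz
  have h2 : (AddMonoidAlgebra.single (0 : G) z) * φ = z • φ := by
    apply AddMonoidAlgebra.coeff_injective
    ext g
    rw [AddMonoidAlgebra.coeff_single_mul_apply, AddMonoidAlgebra.coeff_smul_apply, neg_zero,
      zero_add, smul_eq_mul]
  rwa [h2] at h1

lemma domAt_smul_iff {φ : AddMonoidAlgebra ℂ G} {z : ℂ} (hz : z ≠ 0) :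
    DomAt (z • φ) ↔ DomAt φ := by
  refine ⟨fun h => ?_, fun h => h.smul hz⟩
  have h1 := h.smul (inv_ne_zero hz)
  rwa [smul_smul, inv_mul_cancel₀ hz, one_smul] at h1

end Pool.Agent.MP7c5cdb
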