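import Pool.Agent.MP_7c5cdb.Periodic2

set_option autoImplicit false
set_option maxHeartbeats 400000
open MeasureTheory Set
open scoped ENNReal ComplexConjugate

namespace Pool.Agent.MP7c5cdb

section Dom

variable {G : Type} [AddCommGroup G]

/-- Multiplying by a monomial keeps a dominant coefficient. -/
lemma DomAt.single_mul {φ : AddMonoidAlgebra ℂ G} (h : DomAt φ) (g : G) {z : ℂ} (hz : z ≠ 0) :
    DomAt (AddMonoidAlgebra.single g z * φ) := by
  classical
  obtain ⟨g0, w, ψ, rfl, hlt⟩ := h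
  refine ⟨g + g0, z * w, AddMonoidAlgebra.single g z * ψ, ?_, ?_⟩
  · rw [mul_add, AddMonoidAlgebra.single_mul_single]
  · have hco : ∀ s, (AddMonoidAlgebra.single g z * ψ).coeff s = z * ψ.coeff (-g + s) := fun s =>
      AddMonoidAlgebra.coeff_single_mul_apply ψ z g s
    have hsupp : (AddMonoidAlgebra.single g z * ψ).coeff.support ⊆
        ψ.coeff.support.image (fun t => g + t) := by
      intro s hs
      rw [Finset.mem_image]
      refine ⟨-g + s, ?_, by abel⟩
      rw [Finsupp.mem_support_iff] at hs ⊢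
      intro h2
      apply hs
      rw [hco, h2, mul_zero]
    calc ∑ t ∈ (AddMonoidAlgebra.single g z * ψ).coeff.support,
          ‖(AddMonoidAlgebra.single g z * ψ).coeff t‖
        ≤ ∑ t ∈ ψ.coeff.support.image (fun t => g + t),
          ‖(AddMonoidAlgebra.single g z * ψ).coeff t‖ :=
          Finset.sum_le_sum_of_subset_of_nonneg hsupp (fun _ _ _ => norm_nonneg _)
      _ = ∑ t ∈ ψ.coeff.support, ‖z‖ * ‖ψ.coeff t‖ := by
          rw [Finset.sum_image (fun a _ b _ hab => add_left_cancel hab)]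
          refine Finset.sum_congr rfl (fun t _ => ?_)
          rw [hco, neg_add_cancel_left, norm_mul]
      _ = ‖z‖ * ∑ t ∈ ψ.coeff.support, ‖ψ.coeff t‖ := by rw [Finset.mul_sum]
      _ < ‖z‖ * ‖w‖ := by
          exact mul_lt_mul_of_pos_left hlt (norm_pos_iff.2 hz)
      _ = ‖z * w‖ := (norm_mul _ _).symm

/-- Scalars keep a dominant coefficient. -/
lemma DomAt.neg {φ : AddMonoidAlgebra ℂ G} (h : DomAt φ) : DomAt (-φ) := by
  have h1 := h.single_mul 0 (z := -1) (by simp)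
  have h2 : (AddMonoidAlgebra.single (0 : G) (-1 : ℂ)) * φ = -φ := by
    rw [AddMonoidAlgebra.single_neg]
    have : (AddMonoidAlgebra.single (0 : G) (1 : ℂ)) = 1 := rfl
    rw [this, neg_one_mul]
  rwa [h2] at h1

/-- Sign changes keep a dominant coefficient. -/
lemma DomAt.sign_mul {φ : AddMonoidAlgebra ℂ G} (h : DomAt φ) (s : ℤˣ) :
    DomAt (((s : ℤ) : AddMonoidAlgebra ℂ G) * φ) := by
  rcases Int.units_eq_one_or s with hs | hs
  · rw [hs]
    simpa using h
  · rw [hs]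
    simpa using h.neg

/-- The determinant of a matrix whose rows are multiplied by monomials. -/
lemma domAt_det_of_rows {n : ℕ} {Φ Ψ : Matrix (Fin n) (Fin n) (AddMonoidAlgebra ℂ G)}
    (h : DomAt Φ.det) (s : Fin n → G)
    (hs : ∀ ρ k, Ψ ρ k = AddMonoidAlgebra.single (s ρ) 1 * Φ ρ k) : DomAt Ψ.det := by
  have h1 : Ψ.det = (∏ ρ, AddMonoidAlgebra.single (s ρ) (1 : ℂ)) * Φ.det := by
    rw [← Matrix.det_mul_column]
    congr 1
    funext ρ k
    exact hs ρ k
  rw [h1]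
  have h2 : ∀ S : Finset (Fin n), (∏ ρ ∈ S, AddMonoidAlgebra.single (s ρ) (1 : ℂ)) =
      AddMonoidAlgebra.single (∑ ρ ∈ S, s ρ) 1 := by
    intro S
    induction S using Finset.induction_on with
    | empty => rfl
    | insert a S ha ih =>
      rw [Finset.prod_insert ha, Finset.sum_insert ha, ih, AddMonoidAlgebra.single_mul_single,
        one_mul]
  rw [h2]
  exact h.single_mul _ one_ne_zero

end Dom

namespace PerData2

variable {d n : ℕ} {G : Type} [AddCommGroup G] (D : PerData2 d n G)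

/-- Only finitely many integer vectors are relevant. -/
lemma exists_pat_finset {Ω : Set (Fin d → ℝ)} (hb : ∃ R : ℝ, ∀ y ∈ Ω, ∀ i, |y i| ≤ R) :
    ∃ N : Fin n → Finset (Fin d → ℤ), ∀ x ∈ cube d, ∀ (k : Fin n) (t : Fin d → ℤ),
      x + zv t - D.m k ∈ Ω → t ∈ N k := by
  have h1 : ∀ k : Fin n, ∃ N : Finset (Fin d → ℤ), ∀ x ∈ cube d, ∀ t, t ∉ N →
      fib Ω D.c D.a x t (0, k) = 0 := fun k => fib_finite hb D.c D.a (0, k)
  choose N hN using h1
  refine ⟨N, fun x hx k t ht => ?_⟩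
  by_contra hcon
  have h2 := hN k x hx t hcon
  unfold fib at h2
  rw [D.arg_eq, map_zero, sub_zero, Set.indicator_of_mem ht, mul_one] at h2
  exact ee_ne_zero _ h2

lemma exists_isPat {Ω : Set (Fin d → ℝ)} (hb : ∃ R : ℝ, ∀ y ∈ Ω, ∀ i, |y i| ≤ R)
    (x : Fin d → ℝ) (hx : x ∈ cube d) : ∃ T, D.IsPat Ω x T := by
  classical
  obtain ⟨N, hN⟩ := D.exists_pat_finset hb
  refine ⟨fun k => (N k).filter (fun t => x + zv t - D.m k ∈ Ω), fun k t => ?_⟩
  rw [Finset.mem_filter]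
  exact ⟨fun h => h.2, fun h => ⟨hN x hx k t h, h⟩⟩

lemma coeff_Mat_apply (T : Fin n → Finset (Fin d → ℤ)) (ρ k : Fin n) (g : G) [DecidableEq G] :
    (D.Mat T ρ k).coeff g = if D.e.symm (g, ρ) ∈ T k then D.chi k (D.e.symm (g, ρ)) else 0 := by
  classical
  unfold Mat
  rw [AddMonoidAlgebra.coeff_sum, Finsupp.finsetSum_apply]
  have h1 : ∀ t ∈ T k, (if (D.e t).2 = ρ then
      (AddMonoidAlgebra.single (D.e t).1 (D.chi k t) : AddMonoidAlgebra ℂ G) else 0).coeff g =
      if t = D.e.symm (g, ρ) then D.chi k t else 0 := by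
    intro t _
    by_cases h2 : t = D.e.symm (g, ρ)
    · have h3 : D.e t = (g, ρ) := by rw [h2, Equiv.apply_symm_apply]
      rw [if_pos h2, h3, if_pos rfl, AddMonoidAlgebra.coeff_single, Finsupp.single_eq_same]
    · rw [if_neg h2]
      split_ifs with h4
      · rw [AddMonoidAlgebra.coeff_single, Finsupp.single_apply, if_neg]
        intro h5
        exact h2 (by rw [Equiv.eq_symm_apply]; exact Prod.ext h5 h4)
      · rfl
  rw [Finset.sum_congr rfl h1, Finset.sum_ite_eq']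

/-- The row of the matrix computed with another representative. -/
lemma Mat_eq_of_rep {T : Fin n → Finset (Fin d → ℤ)} {ρ k : Fin n} {l : Fin d → ℤ}
    (hl : (D.e l).2 = ρ) {φ : AddMonoidAlgebra ℂ G}
    (hφ : ∀ g, φ.coeff g = if l + D.ι g ∈ T k then D.chi k (l + D.ι g) else 0) :
    D.Mat T ρ k = AddMonoidAlgebra.single (D.e l).1 1 * φ := by
  classical
  apply AddMonoidAlgebra.coeff_injective
  ext g
  rw [coeff_Mat_apply, AddMonoidAlgebra.coeff_single_mul_apply, hφ, one_mul]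
  have h1 : D.e.symm (g, ρ) = l + D.ι (-(D.e l).1 + g) := by
    rw [Equiv.symm_apply_eq, D.he, hl]
    refine Prod.ext ?_ rfl
    simp
  rw [h1]

end PerData2

/-- Periodic designs with dominated determinants for all points of the cube are Gabor Riesz
bases. -/
theorem exists_isGRB_of_perData2 {d n : ℕ} {G : Type} [AddCommGroup G] [Countable G]
    (D : PerData2 d n G) {Ω : Set (Fin d → ℝ)} (hm : MeasurableSet Ω)
    (hb : ∃ R : ℝ, ∀ y ∈ Ω, ∀ i, |y i| ≤ R)
    (hsep : ∀ k k', (∃ g, D.m k = D.m k' + zv (D.ι g)) →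
      (∃ γ : Fin d → ℤ, ∀ i, D.a0 k i - D.a0 k' i = (γ i : ℝ)) → k = k')
    (hdet : ∀ x ∈ cube d, ∀ T, D.IsPat Ω x T → DomAt (D.Mat T).det) :
    ∃ S, IsGRB Ω S := by
  classical
  let _ : MeasurableSpace G := ⊤
  have : DiscreteMeasurableSpace G := ⟨fun _ => trivial⟩
  obtain ⟨N, hN⟩ := D.exists_pat_finset hb
  let I : Type := {T : Fin n → Finset (Fin d → ℤ) // ∃ x ∈ cube d, D.IsPat Ω x T}
  have hfin : Finite I := by
    have h1 : Set.Finite {T : Fin n → Finset (Fin d → ℤ) | ∃ x ∈ cube d, D.IsPat Ω x T} := by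
      refine Set.Finite.subset
        (Finset.finite_toSet (Fintype.piFinset (fun k => (N k).powerset))) ?_
      rintro T ⟨x, hx, hT⟩
      rw [Finset.mem_coe, Fintype.mem_piFinset]
      intro k
      rw [Finset.mem_powerset]
      intro t ht
      exact hN x hx k t ((hT k t).1 ht)
    exact h1.to_subtype
  refine ⟨_, isGRB_of_fiberHyp (D.fiberHyp (I := I) (fun i => i.1) hm hb hsep ?_ ?_)⟩
  · filter_upwards [ae_restrict_mem measurableSet_cube] with x hx
    obtain ⟨T, hT⟩ := D.exists_isPat hb x hx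
    exact ⟨⟨T, x, hx, hT⟩, hT⟩
  · rintro ⟨T, x, hx, hT⟩
    exact (hdet x hx T hT).bb

/-- The same with representatives depending on the point. -/
theorem exists_isGRB_of_rep {d n : ℕ} {G : Type} [AddCommGroup G] [Countable G]
    (D : PerData2 d n G) {Ω : Set (Fin d → ℝ)} (hm : MeasurableSet Ω)
    (hb : ∃ R : ℝ, ∀ y ∈ Ω, ∀ i, |y i| ≤ R)
    (hsep : ∀ k k', (∃ g, D.m k = D.m k' + zv (D.ι g)) →
      (∃ γ : Fin d → ℤ, ∀ i, D.a0 k i - D.a0 k' i = (γ i : ℝ)) → k = k')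
    (hdet : ∀ x ∈ cube d, ∃ rep : Fin n → (Fin d → ℤ), (∀ ρ, (D.e (rep ρ)).2 = ρ) ∧
      ∃ Φ : Matrix (Fin n) (Fin n) (AddMonoidAlgebra ℂ G),
        (∀ ρ k g, (x + zv (rep ρ + D.ι g) - D.m k ∈ Ω →
          (Φ ρ k).coeff g = D.chi k (rep ρ + D.ι g)) ∧
          (x + zv (rep ρ + D.ι g) - D.m k ∉ Ω → (Φ ρ k).coeff g = 0)) ∧ DomAt Φ.det) :
    ∃ S, IsGRB Ω S := by
  classical
  refine exists_isGRB_of_perData2 D hm hb hsep (fun x hx T hT => ?_)
  obtain ⟨rep, hrep, Φ, hΦ, hdom⟩ := hdet x hx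
  refine domAt_det_of_rows hdom (fun ρ => (D.e (rep ρ)).1) (fun ρ k => ?_)
  refine D.Mat_eq_of_rep (hrep ρ) (fun g => ?_)
  by_cases h : x + zv (rep ρ + D.ι g) - D.m k ∈ Ω
  · rw [(hΦ ρ k g).1 h, if_pos ((hT k _).2 h)]
  · rw [(hΦ ρ k g).2 h, if_neg (fun h2 => h ((hT k _).1 h2))]

end Pool.Agent.MP7c5cdb
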