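import Pool.Agent.MP_7c5cdb.Torus

set_option autoImplicit false
open MeasureTheory Set
open scoped ENNReal ComplexConjugate

namespace Pool.Agent.MP7c5cdb

variable {d : ℕ} {J : Type}

/-- Action of the fibre matrix on finitely supported vectors. -/
noncomputable def fibS (Ω : Set (Fin d → ℝ)) (c a : J → Fin d → ℝ) (x : Fin d → ℝ)
    (p : Fin d → ℤ) : (J →₀ ℂ) →ₗ[ℂ] ℂ :=
  Finsupp.linearCombination ℂ (fun j => fib Ω c a x p j)

/-- Hypotheses of the fibration lemma. -/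
structure FiberHyp (Ω : Set (Fin d → ℝ)) (c a : J → Fin d → ℝ) : Prop where
  meas : MeasurableSet Ω
  bdd : ∃ R : ℝ, ∀ y ∈ Ω, ∀ i, |y i| ≤ R
  inj : ∀ j j', c j = c j' → (∃ γ : Fin d → ℤ, ∀ i, a j i - a j' i = (γ i : ℝ)) → j = j'
  low : ∃ δ : ℝ, 0 < δ ∧ ∀ᵐ x ∂((volume : Measure (Fin d → ℝ)).restrict (cube d)),
    ∀ v : J →₀ ℂ, ENNReal.ofReal δ * ∑ j ∈ v.support, ‖v j‖ₑ ^ 2 ≤
      ∑' p : Fin d → ℤ, ‖fibS Ω c a x p v‖ₑ ^ 2
  up : ∃ B : ℝ, 0 < B ∧ ∀ᵐ x ∂((volume : Measure (Fin d → ℝ)).restrict (cube d)),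
    ∀ v : J →₀ ℂ, ∑' p : Fin d → ℤ, ‖fibS Ω c a x p v‖ₑ ^ 2 ≤
      ENNReal.ofReal B * ∑ j ∈ v.support, ‖v j‖ₑ ^ 2
  adj : ∀ᵐ x ∂((volume : Measure (Fin d → ℝ)).restrict (cube d)),
    ∀ w : (Fin d → ℤ) → ℂ, ∑' p, ‖w p‖ₑ ^ 2 < ∞ →
      (∀ j, ∑' p, conj (fib Ω c a x p j) * w p = 0) → w = 0

/-- The parametrisation of the shift set. -/
def par (c a : J → Fin d → ℝ) (q : J × (Fin d → ℤ)) : (Fin d → ℝ) × (Fin d → ℝ) :=
  (c q.1, fun i => a q.1 i + (q.2 i : ℝ))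

lemma shifts_eq (c a : J → Fin d → ℝ) : shifts c a = Set.range (par c a) := rfl

/-- real pairing -/
noncomputable def dotr (a x : Fin d → ℝ) : ℝ := ∑ i, a i * x i

lemma gab_unfold (Ω : Set (Fin d → ℝ)) (c a : J → Fin d → ℝ) (q : J × (Fin d → ℤ))
    (x : Fin d → ℝ) (n : Fin d → ℤ) :
    gab Ω (par c a q) (x + zv n) =
      fib Ω c a x n q.1 * (ee (dotr (a q.1) x) * ee (dotz q.2 x)) := by
  unfold gab fib par
  have h1 : (∑ i, (a q.1 i + (q.2 i : ℝ)) * ((x + zv n) i) : ℝ) =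
      (∑ i, a q.1 i * (n i : ℝ)) + (dotr (a q.1) x + (dotz q.2 x +
        ((∑ i, q.2 i * n i : ℤ) : ℝ))) := by
    unfold dotr dotz zv
    push_cast
    rw [← Finset.sum_add_distrib, ← Finset.sum_add_distrib, ← Finset.sum_add_distrib]
    refine Finset.sum_congr rfl (fun i _ => ?_)
    simp only [Pi.add_apply]
    ring
  have h2 : Complex.exp (2 * (Real.pi : ℂ) * Complex.I *
      ((∑ i, (a q.1 i + (q.2 i : ℝ)) * ((x + zv n) i) : ℝ) : ℂ)) =
      ee (∑ i, (a q.1 i + (q.2 i : ℝ)) * ((x + zv n) i)) := rfl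
  have h3 : (x + zv n - c q.1) = (fun i => x i + (n i : ℝ) - c q.1 i) := by
    funext i
    simp [zv]
  show Complex.exp (2 * (Real.pi : ℂ) * Complex.I *
      ((∑ i, (a q.1 i + (q.2 i : ℝ)) * ((x + zv n) i) : ℝ) : ℂ)) * _ = _
  rw [h2, h1, h3, ee_add, ee_add, ee_add, ee_int]
  ring

lemma measurable_gab {Ω : Set (Fin d → ℝ)} (hΩ : MeasurableSet Ω)
    (p : (Fin d → ℝ) × (Fin d → ℝ)) : Measurable (gab Ω p) := by
  unfold gab
  refine Measurable.mul ?_ ?_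
  · exact Continuous.measurable (by fun_prop)
  · exact (measurable_const.indicator hΩ).comp (measurable_sub_const _)

lemma norm_gab_le {Ω : Set (Fin d → ℝ)} (p : (Fin d → ℝ) × (Fin d → ℝ)) (x : Fin d → ℝ) :
    ‖gab Ω p x‖ ≤ 1 := by
  unfold gab
  rw [norm_mul]
  have h1 : ‖Complex.exp (2 * (Real.pi : ℂ) * Complex.I * ((∑ i, p.2 i * x i : ℝ) : ℂ))‖ = 1 :=
    ee_norm _
  rw [h1, one_mul]
  by_cases h : x - p.1 ∈ Ω
  · simp [Set.indicator_of_mem h]
  · simp [Set.indicator_of_notMem h]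

section Bounds

variable [DecidableEq J]

/-- the fibre vector of a finite combination -/
noncomputable def fvec (a : J → Fin d → ℝ) (F : Finset (J × (Fin d → ℤ)))
    (b : J × (Fin d → ℤ) → ℂ) (x : Fin d → ℝ) : J →₀ ℂ :=
  ∑ q ∈ F, Finsupp.single q.1 (b q * (ee (dotr (a q.1) x) * ee (dotz q.2 x)))

lemma fibS_fvec (Ω : Set (Fin d → ℝ)) (c a : J → Fin d → ℝ) (F : Finset (J × (Fin d → ℤ)))
    (b : J × (Fin d → ℤ) → ℂ) (x : Fin d → ℝ) (n : Fin d → ℤ) :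
    fibS Ω c a x n (fvec a F b x) = ∑ q ∈ F, b q * gab Ω (par c a q) (x + zv n) := by
  unfold fvec fibS
  rw [map_sum]
  refine Finset.sum_congr rfl (fun q _ => ?_)
  rw [Finsupp.linearCombination_single, gab_unfold, smul_eq_mul]
  ring

lemma fvec_apply (a : J → Fin d → ℝ) (F : Finset (J × (Fin d → ℤ)))
    (b : J × (Fin d → ℤ) → ℂ) (x : Fin d → ℝ) (j : J) :
    fvec a F b x j = ee (dotr (a j) x) *
      ∑ γ ∈ (F.filter (fun q => q.1 = j)).image Prod.snd, b (j, γ) * ee (dotz γ x) := by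
  unfold fvec
  rw [Finsupp.finsetSum_apply, Finset.sum_image, Finset.mul_sum, ← Finset.sum_filter_add_sum_filter_not F (fun q => q.1 = j)]
  · have h0 : ∑ q ∈ F.filter (fun q => ¬ q.1 = j),
        (Finsupp.single q.1 (b q * (ee (dotr (a q.1) x) * ee (dotz q.2 x)))) j = 0 := by
      refine Finset.sum_eq_zero (fun q hq => ?_)
      rw [Finsupp.single_apply, if_neg (Finset.mem_filter.1 hq).2]
    rw [h0, add_zero]
    refine Finset.sum_congr rfl (fun q hq => ?_)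
    have hq2 := (Finset.mem_filter.1 hq).2
    obtain ⟨j', γ⟩ := q
    simp only at hq2
    subst hq2
    rw [Finsupp.single_apply, if_pos rfl]
    ring
  · intro q hq q' hq' hqq
    have h1 := (Finset.mem_filter.1 hq).2
    have h2 := (Finset.mem_filter.1 hq').2
    exact Prod.ext (h1.trans h2.symm) hqq

lemma sum_fiber {M : Type*} [AddCommMonoid M] (F : Finset (J × (Fin d → ℤ)))
    (g : J × (Fin d → ℤ) → M) :
    ∑ q ∈ F, g q = ∑ j ∈ F.image Prod.fst,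
      ∑ γ ∈ (F.filter (fun q => q.1 = j)).image Prod.snd, g (j, γ) := by
  rw [← Finset.sum_fiberwise_of_maps_to (fun q hq => Finset.mem_image_of_mem Prod.fst hq)]
  refine Finset.sum_congr rfl (fun j _ => ?_)
  rw [Finset.sum_image]
  · refine Finset.sum_congr rfl (fun q hq => ?_)
    have h1 := (Finset.mem_filter.1 hq).2
    rw [← h1]
  · intro q hq q' hq' hqq
    have h1 := (Finset.mem_filter.1 hq).2
    have h2 := (Finset.mem_filter.1 hq').2
    exact Prod.ext (h1.trans h2.symm) hqq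

lemma lintegral_fvec (a : J → Fin d → ℝ) (F : Finset (J × (Fin d → ℤ)))
    (b : J × (Fin d → ℤ) → ℂ) :
    ∫⁻ x in cube d, ∑ j ∈ (fvec a F b x).support, ‖fvec a F b x j‖ₑ ^ 2 =
      ∑ q ∈ F, ‖b q‖ₑ ^ 2 := by
  have h1 : ∀ x : Fin d → ℝ, ∑ j ∈ (fvec a F b x).support, ‖fvec a F b x j‖ₑ ^ 2 =
      ∑ j ∈ F.image Prod.fst, ‖∑ γ ∈ (F.filter (fun q => q.1 = j)).image Prod.snd,
        b (j, γ) * ee (dotz γ x)‖ₑ ^ 2 := by
    intro x
    have hsub : (fvec a F b x).support ⊆ F.image Prod.fst := by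
      intro j hj
      by_contra hcon
      apply Finsupp.mem_support_iff.1 hj
      rw [fvec_apply]
      have : F.filter (fun q => q.1 = j) = ∅ := by
        rw [Finset.filter_eq_empty_iff]
        intro q hq hqj
        exact hcon (Finset.mem_image.2 ⟨q, hq, hqj⟩)
      rw [this]
      simp
    rw [Finset.sum_subset hsub]
    · refine Finset.sum_congr rfl (fun j _ => ?_)
      rw [fvec_apply, enorm_mul]
      have : ‖ee (dotr (a j) x)‖ₑ = 1 := by
        rw [← ofReal_norm, ee_norm]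
        simp
      rw [this, one_mul]
    · intro j _ hj
      rw [Finsupp.notMem_support_iff.1 hj]
      simp
  simp_rw [h1]
  rw [lintegral_finsetSum]
  · rw [sum_fiber F (fun q => ‖b q‖ₑ ^ 2)]
    refine Finset.sum_congr rfl (fun j _ => ?_)
    exact lintegral_cube_trig _ (fun γ => b (j, γ))
  · intro j _
    refine Measurable.pow_const (Measurable.enorm ?_) 2
    refine Finset.measurable_sum _ (fun γ _ => ?_)
    refine Measurable.const_mul ?_ _
    refine continuous_ee.measurable.comp ?_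
    unfold dotz
    exact Continuous.measurable (by fun_prop)

end Bounds

/-- Two sided bound in extended form. -/
lemma bounds_par [DecidableEq J] {Ω : Set (Fin d → ℝ)} {c a : J → Fin d → ℝ} (H : FiberHyp Ω c a) :
    ∃ A B : ℝ, 0 < A ∧ 0 < B ∧ ∀ (F : Finset (J × (Fin d → ℤ))) (b : J × (Fin d → ℤ) → ℂ),
      A * ∑ q ∈ F, ‖b q‖ ^ 2 ≤ ∫ x : Fin d → ℝ, ‖∑ q ∈ F, b q * gab Ω (par c a q) x‖ ^ 2 ∧
      ∫ x : Fin d → ℝ, ‖∑ q ∈ F, b q * gab Ω (par c a q) x‖ ^ 2 ≤ B * ∑ q ∈ F, ‖b q‖ ^ 2 := by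
  obtain ⟨δ, hδ, hlow⟩ := H.low
  obtain ⟨B, hB, hup⟩ := H.up
  refine ⟨δ, B, hδ, hB, fun F b => ?_⟩
  have hmeas : Measurable (fun x => ∑ q ∈ F, b q * gab Ω (par c a q) x) :=
    Finset.measurable_sum _ (fun q _ => (measurable_gab H.meas _).const_mul _)
  have hE : ∫ x : Fin d → ℝ, ‖∑ q ∈ F, b q * gab Ω (par c a q) x‖ ^ 2 =
      (∫⁻ x, ‖∑ q ∈ F, b q * gab Ω (par c a q) x‖ₑ ^ 2).toReal := by
    rw [integral_eq_lintegral_of_nonneg_ae]
    · congr 1
      refine lintegral_congr (fun x => ?_)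
      rw [ENNReal.ofReal_pow (norm_nonneg _), ofReal_norm]
    · exact Filter.Eventually.of_forall (fun x => by positivity)
    · exact (hmeas.norm.pow_const 2).aestronglyMeasurable
  have hunf : ∫⁻ x, ‖∑ q ∈ F, b q * gab Ω (par c a q) x‖ₑ ^ 2 =
      ∫⁻ x in cube d, ∑' n : Fin d → ℤ, ‖fibS Ω c a x n (fvec a F b x)‖ₑ ^ 2 := by
    rw [lintegral_unfold _ (hmeas.enorm.pow_const 2)]
    simp only [fibS_fvec]
  have hlow' : ENNReal.ofReal δ * ∑ q ∈ F, ‖b q‖ₑ ^ 2 ≤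
      ∫⁻ x, ‖∑ q ∈ F, b q * gab Ω (par c a q) x‖ₑ ^ 2 := by
    rw [hunf, ← lintegral_fvec a F b, ← lintegral_const_mul' _ _ ENNReal.ofReal_ne_top]
    refine lintegral_mono_ae ?_
    filter_upwards [hlow] with x hx
    exact hx _
  have hup' : ∫⁻ x, ‖∑ q ∈ F, b q * gab Ω (par c a q) x‖ₑ ^ 2 ≤
      ENNReal.ofReal B * ∑ q ∈ F, ‖b q‖ₑ ^ 2 := by
    rw [hunf, ← lintegral_fvec a F b, ← lintegral_const_mul' _ _ ENNReal.ofReal_ne_top]
    refine lintegral_mono_ae ?_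
    filter_upwards [hup] with x hx
    exact hx _
  have hconv : ∀ t : ℝ, 0 < t → ENNReal.ofReal t * ∑ q ∈ F, ‖b q‖ₑ ^ 2 =
      ENNReal.ofReal (t * ∑ q ∈ F, ‖b q‖ ^ 2) := by
    intro t ht
    rw [ENNReal.ofReal_mul ht.le, ENNReal.ofReal_sum_of_nonneg (fun _ _ => by positivity)]
    congr 1
    refine Finset.sum_congr rfl (fun q _ => ?_)
    rw [ENNReal.ofReal_pow (norm_nonneg _), ofReal_norm]
  rw [hconv _ hδ] at hlow'
  rw [hconv _ hB] at hup'
  have hfin : ∫⁻ x, ‖∑ q ∈ F, b q * gab Ω (par c a q) x‖ₑ ^ 2 ≠ ∞ :=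
    ne_top_of_le_ne_top ENNReal.ofReal_ne_top hup'
  rw [hE]
  constructor
  · exact (ENNReal.ofReal_le_iff_le_toReal hfin).1 hlow'
  · exact ENNReal.toReal_le_of_le_ofReal (by positivity) hup'

lemma par_injective {Ω : Set (Fin d → ℝ)} {c a : J → Fin d → ℝ} (H : FiberHyp Ω c a) :
    Function.Injective (par c a) := by
  rintro ⟨j, γ⟩ ⟨j', γ'⟩ h
  unfold par at h
  rw [Prod.mk.injEq] at h
  obtain ⟨h1, h2⟩ := h
  have hj : j = j' := by
    refine H.inj j j' h1 ⟨γ' - γ, fun i => ?_⟩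
    have := congrFun h2 i
    simp only at this
    simp only [Pi.sub_apply, Int.cast_sub]
    linarith
  subst hj
  congr 1
  funext i
  have := congrFun h2 i
  simp only at this
  have h3 : (γ i : ℝ) = γ' i := by linarith
  exact_mod_cast h3

end Pool.Agent.MP7c5cdb
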