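import Mathlib

/-!
# Tree packings modulo a lattice
-/

set_option autoImplicit false
set_option linter.unusedSectionVars false

namespace Pool.Agent.MP7c5cdb.Geo

open Metric

variable {E : Type*} [NormedAddCommGroup E] [NormedSpace ℝ E] [ProperSpace E]

/-- A tree packing with `k + 1` points. -/
structure Cfg (P : AddSubgroup E) (k : ℕ) (z : ℕ → E) (par : ℕ → ℕ) : Prop where
  tree : ∀ e < k, par e ≤ e ∧ ‖z (e + 1) - z (par e)‖ = 3 / 2
  sep : ∀ i ≤ k, ∀ j ≤ k, ∀ p ∈ P, (i ≠ j ∨ p ≠ 0) → 3 / 2 ≤ ‖z i - z j - p‖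

/-- All translates of the points. -/
def Zs (P : AddSubgroup E) (k : ℕ) (z : ℕ → E) : Set E := {x | ∃ j ≤ k, ∃ p ∈ P, x = z j + p}

theorem Cfg.isClosed {P : AddSubgroup E} {k : ℕ} {z : ℕ → E} {par : ℕ → ℕ} (h : Cfg P k z par) :
    IsClosed (Zs P k z) := by
  refine Metric.isClosed_of_pairwise_le_dist (ε := 3 / 2) (by norm_num) ?_
  rintro x ⟨i, hi, p, hp, rfl⟩ y ⟨j, hj, p', hp', rfl⟩ hne
  rw [dist_eq_norm]
  have h1 : z i + p - (z j + p') = z i - z j - (p' - p) := by abel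
  rw [h1]
  refine h.sep i hi j hj (p' - p) (P.sub_mem hp' hp) ?_
  by_contra hc
  push Not at hc
  obtain ⟨rfl, h2⟩ := hc
  exact hne (by rw [sub_eq_zero.1 h2])

theorem zs_nonempty (P : AddSubgroup E) (k : ℕ) (z : ℕ → E) : (Zs P k z).Nonempty :=
  ⟨z 0, 0, Nat.zero_le _, 0, P.zero_mem, by simp⟩

theorem exists_near {P : AddSubgroup E} {k : ℕ} {z : ℕ → E} {par : ℕ → ℕ} (h : Cfg P k z par)
    (y : E) : ∃ j ≤ k, ∃ p ∈ P, infDist y (Zs P k z) = ‖y - z j - p‖ := by
  obtain ⟨x, ⟨j, hj, p, hp, rfl⟩, hx⟩ := h.isClosed.exists_infDist_eq_dist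
    (zs_nonempty P k z) y
  refine ⟨j, hj, p, hp, ?_⟩
  rw [hx, dist_eq_norm]
  congr 1
  abel

theorem infDist_le' {P : AddSubgroup E} {k : ℕ} {z : ℕ → E} (y : E) {j : ℕ} (hj : j ≤ k) {p : E}
    (hp : p ∈ P) : infDist y (Zs P k z) ≤ ‖y - z j - p‖ := by
  have h1 : z j + p ∈ Zs P k z := ⟨j, hj, p, hp, rfl⟩
  refine (infDist_le_dist_of_mem h1).trans (le_of_eq ?_)
  rw [dist_eq_norm]
  congr 1
  abel

/-- A packing which does not cover can be extended. -/
theorem Cfg.extend {P : AddSubgroup E} (hP : ∀ p ∈ P, p ≠ 0 → 3 / 2 ≤ ‖p‖) {k : ℕ} {z : ℕ → E}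
    {par : ℕ → ℕ} (h : Cfg P k z par) {y0 : E} (hy : 3 / 2 ≤ infDist y0 (Zs P k z)) :
    ∃ z' par', Cfg P (k + 1) z' par' := by
  -- a point at distance exactly 3 / 2
  obtain ⟨y1, hy1⟩ : ∃ y1, infDist y1 (Zs P k z) = 3 / 2 := by
    have hc : Continuous fun s : ℝ => infDist (z 0 + s • (y0 - z 0)) (Zs P k z) :=
      (continuous_infDist_pt _).comp (by fun_prop)
    have h0 : infDist (z 0 + (0 : ℝ) • (y0 - z 0)) (Zs P k z) = 0 := by
      rw [zero_smul, add_zero]
      exact infDist_zero_of_mem ⟨0, Nat.zero_le _, 0, P.zero_mem, by simp⟩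
    have h1 : infDist (z 0 + (1 : ℝ) • (y0 - z 0)) (Zs P k z) = infDist y0 (Zs P k z) := by
      rw [one_smul, add_sub_cancel]
    have hivt := intermediate_value_Icc (zero_le_one (α := ℝ)) hc.continuousOn
    have hmem : (3 / 2 : ℝ) ∈ Set.Icc
        ((fun s : ℝ => infDist (z 0 + s • (y0 - z 0)) (Zs P k z)) 0)
        ((fun s : ℝ => infDist (z 0 + s • (y0 - z 0)) (Zs P k z)) 1) := by
      simp only [h0, h1]
      exact ⟨by norm_num, hy⟩
    obtain ⟨s, -, hs⟩ := hivt hmem
    exact ⟨_, hs⟩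
  obtain ⟨j, hj, p, hp, hjp⟩ := exists_near h y1
  rw [hy1] at hjp
  have hfar : ∀ i ≤ k, ∀ p' ∈ P, 3 / 2 ≤ ‖(y1 - p) - z i - p'‖ := by
    intro i hi p' hp'
    have h1 := infDist_le' (P := P) (z := z) y1 hi (P.add_mem hp hp')
    rw [hy1] at h1
    have h2 : y1 - p - z i - p' = y1 - z i - (p + p') := by abel
    rw [h2]
    exact h1
  refine ⟨fun i => if i ≤ k then z i else y1 - p, fun e => if e < k then par e else j, ⟨?_, ?_⟩⟩
  · intro e he
    rcases Nat.lt_succ_iff_lt_or_eq.1 he with he' | rfl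
    · have h1 := h.tree e he'
      have h2 : e + 1 ≤ k := he'
      have h3 : par e ≤ k := h1.1.trans he'.le
      simp only [if_pos he', if_pos h2, if_pos h3]
      exact h1
    · have h2 : ¬ e + 1 ≤ e := by omega
      simp only [lt_irrefl, if_false, if_neg h2, if_pos hj]
      refine ⟨hj, ?_⟩
      rw [hjp]
      congr 1
      abel
  · intro i hi i' hi' p' hp' hne
    by_cases h1 : i ≤ k
    · by_cases h2 : i' ≤ k
      · simp only [if_pos h1, if_pos h2]
        exact h.sep i h1 i' h2 p' hp' hne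
      · simp only [if_pos h1, if_neg h2]
        have h3 := hfar i h1 (-p') (P.neg_mem hp')
        rw [← norm_neg] at h3
        have h4 : -(y1 - p - z i - -p') = z i - (y1 - p) - p' := by abel
        rwa [h4] at h3
    · by_cases h2 : i' ≤ k
      · simp only [if_neg h1, if_pos h2]
        exact hfar i' h2 p' hp'
      · simp only [if_neg h1, if_neg h2]
        have h3 : i = i' := by omega
        have h4 : p' ≠ 0 := by
          rcases hne with h4 | h4
          · exact absurd h3 h4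
          · exact h4
        rw [sub_self, zero_sub, norm_neg]
        exact hP p' hp' h4

/-- The size of a packing is bounded. -/
theorem Cfg.bounded {P : AddSubgroup E} {K : Set E} (hK : IsCompact K)
    (hPK : ∀ y, ∃ p ∈ P, y - p ∈ K) :
    ∃ N : ℕ, ∀ (k : ℕ) (z : ℕ → E) (par : ℕ → ℕ), Cfg P k z par → k < N := by
  obtain ⟨t, -, htf, ht⟩ := hK.finite_cover_balls (show (0 : ℝ) < 3 / 4 by norm_num)
  refine ⟨htf.toFinset.card, fun k z par h => ?_⟩
  choose q hqP hqK using hPK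
  have h1 : ∀ i, ∃ c ∈ t, z i - q (z i) ∈ ball c (3 / 4) := by
    intro i
    have := ht (hqK (z i))
    simpa using this
  choose c hct hc using h1
  have h2 : Set.InjOn c (Finset.range (k + 1) : Set ℕ) := by
    intro i hi j hj hij
    rw [Finset.mem_coe, Finset.mem_range] at hi hj
    by_contra hne
    have h3 := h.sep i (by omega) j (by omega) (q (z i) - q (z j))
      (P.sub_mem (hqP _) (hqP _)) (Or.inl hne)
    have h4 : z i - z j - (q (z i) - q (z j)) = (z i - q (z i)) - (z j - q (z j)) := by abel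
    rw [h4, ← dist_eq_norm] at h3
    have h5 := hc i
    have h6 := hc j
    rw [← hij, mem_ball] at h6
    rw [mem_ball] at h5
    have h7 := dist_triangle_right (z i - q (z i)) (z j - q (z j)) (c i)
    linarith
  have h3 : (Finset.range (k + 1)).card ≤ htf.toFinset.card :=
    Finset.card_le_card_of_injOn c (fun i _ => by simpa using hct i) h2
  rw [Finset.card_range] at h3
  omega

/-- A tree packing whose translates are everywhere near. -/
theorem pack_tree (P : AddSubgroup E) (hP : ∀ p ∈ P, p ≠ 0 → 3 / 2 ≤ ‖p‖) {K : Set E}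
    (hK : IsCompact K) (hPK : ∀ y, ∃ p ∈ P, y - p ∈ K) :
    ∃ (k : ℕ) (z : ℕ → E) (par : ℕ → ℕ) (R : ℝ), R < 3 / 2 ∧ Cfg P k z par ∧
      ∀ y, ∃ j ≤ k, ∃ p ∈ P, ‖y - z j - p‖ ≤ R := by
  classical
  obtain ⟨N, hN⟩ := Cfg.bounded (P := P) hK hPK
  have h0 : ∃ z par, Cfg P 0 z par := by
    refine ⟨fun _ => 0, fun _ => 0, ⟨fun e he => absurd he (Nat.not_lt_zero _), ?_⟩⟩
    intro i hi j hj p hp hne
    have hp0 : p ≠ 0 := by
      rcases hne with h | h
      · exact absurd (by omega) h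
      · exact h
    simp only [sub_self, zero_sub, norm_neg]
    exact hP p hp hp0
  -- a maximal configuration
  have hmax : ∃ k, (∃ z par, Cfg P k z par) ∧ ¬ ∃ z par, Cfg P (k + 1) z par := by
    by_contra hc
    push Not at hc
    have h1 : ∀ k, ∃ z par, Cfg P k z par := by
      intro k
      induction k with
      | zero => exact h0
      | succ k ih =>
        exact hc k ih
    obtain ⟨z, par, h⟩ := h1 N
    exact absurd (hN N z par h) (lt_irrefl _)
  obtain ⟨k, ⟨z, par, h⟩, hno⟩ := hmax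
  have hlt : ∀ y, infDist y (Zs P k z) < 3 / 2 := by
    intro y
    by_contra hc
    push Not at hc
    exact hno (h.extend hP hc)
  obtain ⟨y0, hy0K, hy0⟩ := hK.exists_isMaxOn (by
      obtain ⟨p, -, hp⟩ := hPK 0
      exact ⟨_, hp⟩) (continuous_infDist_pt (Zs P k z)).continuousOn
  refine ⟨k, z, par, infDist y0 (Zs P k z), hlt y0, h, fun y => ?_⟩
  obtain ⟨p, hp, hpK⟩ := hPK y
  obtain ⟨j, hj, p', hp', hjp⟩ := exists_near h (y - p)
  refine ⟨j, hj, p + p', P.add_mem hp hp', ?_⟩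
  have h1 : y - z j - (p + p') = y - p - z j - p' := by abel
  rw [h1, ← hjp]
  exact hy0 hpK

end Pool.Agent.MP7c5cdb.Geo
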