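import Mathlib

/-!
# Hexagonal lattice points in an open disc whose radius is the lattice spacing
-/

set_option autoImplicit false

namespace Pool.Agent.MP7c5cdb

/-- the quadratic form of the hexagonal lattice -/
def Qf (x y : ℝ) : ℝ := x ^ 2 + x * y + y ^ 2

lemma Qf_nonneg (x y : ℝ) : 0 ≤ Qf x y := by
  unfold Qf; nlinarith [sq_nonneg (x + y), sq_nonneg x, sq_nonneg y]

lemma Qf_par (x y x' y' : ℝ) : Qf (x - x') (y - y') ≤ 2 * Qf x y + 2 * Qf x' y' := by
  have := Qf_nonneg (x + x') (y + y')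
  unfold Qf at *
  nlinarith

/-- the five patterns -/
def pat : Fin 5 → Finset (ℤ × ℤ)
  | 0 => {(0, 0), (1, 0), (0, 1)}
  | 1 => {(0, 0), (1, 0), (1, -1)}
  | 2 => {(0, 0), (1, 0), (0, 1), (1, 1)}
  | 3 => {(0, 0), (1, 0), (0, 1), (1, -1)}
  | 4 => {(0, 0), (1, 0), (1, -1), (2, -1)}

lemma Qf_up (a b : ℝ) (ha : 0 < a) (hb : 0 < b) (hab : a + b < 1) (m n : ℤ)
    (h : Qf (m - a) (n - b) < 1) :
    (m, n) = (0, 0) ∨ (m, n) = (1, 0) ∨ (m, n) = (0, 1) ∨ (m, n) = (1, 1) ∨
    (m, n) = (1, -1) ∨ (m, n) = (-1, 1) := by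
  have hm1 : -2 < m := by
    by_contra hcon
    have h1 : m ≤ -2 := by omega
    have h2 : (m : ℝ) ≤ -2 := by exact_mod_cast h1
    unfold Qf at h
    nlinarith [sq_nonneg ((m - a) / 2 + (n - b)), sq_nonneg ((m : ℝ) - a)]
  have hm2 : m < 3 := by
    by_contra hcon
    have h1 : 3 ≤ m := by omega
    have h2 : (3 : ℝ) ≤ m := by exact_mod_cast h1
    unfold Qf at h
    nlinarith [sq_nonneg ((m - a) / 2 + (n - b)), sq_nonneg ((m : ℝ) - a)]
  have hn1 : -2 < n := by
    by_contra hcon
    have h1 : n ≤ -2 := by omega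
    have h2 : (n : ℝ) ≤ -2 := by exact_mod_cast h1
    unfold Qf at h
    nlinarith [sq_nonneg ((n - b) / 2 + (m - a)), sq_nonneg ((n : ℝ) - b)]
  have hn2 : n < 3 := by
    by_contra hcon
    have h1 : 3 ≤ n := by omega
    have h2 : (3 : ℝ) ≤ n := by exact_mod_cast h1
    unfold Qf at h
    nlinarith [sq_nonneg ((n - b) / 2 + (m - a)), sq_nonneg ((n : ℝ) - b)]
  unfold Qf at h
  interval_cases m <;> interval_cases n <;> simp <;> push_cast at h <;> nlinarith

lemma Qf_up00 (a b : ℝ) (ha : 0 < a) (hb : 0 < b) (hab : a + b < 1) :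
    Qf (0 - a) (0 - b) < 1 := by
  unfold Qf; nlinarith

lemma Qf_up10 (a b : ℝ) (ha : 0 < a) (hb : 0 < b) (hab : a + b < 1) :
    Qf (1 - a) (0 - b) < 1 := by
  unfold Qf; nlinarith

lemma Qf_up01 (a b : ℝ) (ha : 0 < a) (hb : 0 < b) (hab : a + b < 1) :
    Qf (0 - a) (1 - b) < 1 := by
  unfold Qf; nlinarith

/-- the set of lattice points in the open unit disc around `a e1 + b e2` -/
def Tset (a b : ℝ) : Set (ℤ × ℤ) := {t | Qf (t.1 - a) (t.2 - b) < 1}

lemma Tset_up (a b : ℝ) (ha : 0 < a) (hb : 0 < b) (hab : a + b < 1) :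
    ∃ g : ℤ × ℤ, ∃ i : Fin 5, Tset a b = {t | t - g ∈ pat i} := by
  have h00 := Qf_up00 a b ha hb hab
  have h10 := Qf_up10 a b ha hb hab
  have h01 := Qf_up01 a b ha hb hab
  by_cases h1 : Qf (1 - a) (1 - b) < 1
  · have h2 : ¬ Qf (1 - a) (-1 - b) < 1 := by
      intro h2
      have := Qf_par (1 - a) (1 - b) (1 - a) (-1 - b)
      unfold Qf at *; nlinarith
    have h3 : ¬ Qf (-1 - a) (1 - b) < 1 := by
      intro h3
      have := Qf_par (1 - a) (1 - b) (-1 - a) (1 - b)
      unfold Qf at *; nlinarith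
    refine ⟨(0, 0), 2, ?_⟩
    ext ⟨m, n⟩
    simp only [Tset, Set.mem_ofPred_eq, pat, Prod.mk_sub_mk, sub_zero, Finset.mem_insert,
      Finset.mem_singleton]
    constructor
    · intro h
      rcases Qf_up a b ha hb hab m n h with h' | h' | h' | h' | h' | h' <;>
        simp only [Prod.mk.injEq] at h' ⊢ <;> obtain ⟨rfl, rfl⟩ := h' <;> push_cast at h
      · simp
      · simp
      · simp
      · simp
      · exact absurd h h2
      · exact absurd h h3
    · rintro (h | h | h | h) <;> simp only [Prod.mk.injEq] at h <;> obtain ⟨rfl, rfl⟩ := h <;>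
        push_cast <;> assumption
  · by_cases h2 : Qf (1 - a) (-1 - b) < 1
    · have h3 : ¬ Qf (-1 - a) (1 - b) < 1 := by
        intro h3
        have := Qf_par (1 - a) (-1 - b) (-1 - a) (1 - b)
        unfold Qf at *; nlinarith
      refine ⟨(0, 0), 3, ?_⟩
      ext ⟨m, n⟩
      simp only [Tset, Set.mem_ofPred_eq, pat, Prod.mk_sub_mk, sub_zero, Finset.mem_insert,
        Finset.mem_singleton]
      constructor
      · intro h
        rcases Qf_up a b ha hb hab m n h with h' | h' | h' | h' | h' | h' <;>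
          simp only [Prod.mk.injEq] at h' ⊢ <;> obtain ⟨rfl, rfl⟩ := h' <;> push_cast at h
        · simp
        · simp
        · simp
        · exact absurd h h1
        · simp
        · exact absurd h h3
      · rintro (h | h | h | h) <;> simp only [Prod.mk.injEq] at h <;> obtain ⟨rfl, rfl⟩ := h <;>
          push_cast <;> assumption
    · by_cases h3 : Qf (-1 - a) (1 - b) < 1
      · refine ⟨(-1, 1), 4, ?_⟩
        ext ⟨m, n⟩
        simp only [Tset, Set.mem_ofPred_eq, pat, Prod.mk_sub_mk, Finset.mem_insert,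
          Finset.mem_singleton, Prod.mk.injEq]
        constructor
        · intro h
          rcases Qf_up a b ha hb hab m n h with h' | h' | h' | h' | h' | h' <;>
            simp only [Prod.mk.injEq] at h' ⊢ <;> obtain ⟨rfl, rfl⟩ := h' <;> push_cast at h
          · simp
          · simp
          · simp
          · exact absurd h h1
          · exact absurd h h2
          · simp
        · rintro (h | h | h | h) <;> obtain ⟨hm, hn⟩ := h
          · have : m = -1 := by omega
            have : n = 1 := by omega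
            subst m n; push_cast; exact h3
          · have : m = 0 := by omega
            have : n = 1 := by omega
            subst m n; push_cast; exact h01
          · have : m = 0 := by omega
            have : n = 0 := by omega
            subst m n; push_cast; exact h00
          · have : m = 1 := by omega
            have : n = 0 := by omega
            subst m n; push_cast; exact h10
      · refine ⟨(0, 0), 0, ?_⟩
        ext ⟨m, n⟩
        simp only [Tset, Set.mem_ofPred_eq, pat, Prod.mk_sub_mk, sub_zero, Finset.mem_insert,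
          Finset.mem_singleton]
        constructor
        · intro h
          rcases Qf_up a b ha hb hab m n h with h' | h' | h' | h' | h' | h' <;>
            simp only [Prod.mk.injEq] at h' ⊢ <;> obtain ⟨rfl, rfl⟩ := h' <;> push_cast at h
          · simp
          · simp
          · simp
          · exact absurd h h1
          · exact absurd h h2
          · exact absurd h h3
        · rintro (h | h | h) <;> simp only [Prod.mk.injEq] at h <;> obtain ⟨rfl, rfl⟩ := h <;>
            push_cast <;> assumption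

lemma pat_neg (i : Fin 5) : ∃ h : ℤ × ℤ, ∃ j : Fin 5, ∀ t : ℤ × ℤ, -t ∈ pat i ↔ t + h ∈ pat j := by
  fin_cases i
  · refine ⟨(1, 0), 1, ?_⟩
    rintro ⟨m, n⟩
    simp only [pat, Prod.neg_mk, Prod.mk_add_mk, Finset.mem_insert, Finset.mem_singleton,
      Prod.mk.injEq]
    omega
  · refine ⟨(1, 0), 0, ?_⟩
    rintro ⟨m, n⟩
    simp only [pat, Prod.neg_mk, Prod.mk_add_mk, Finset.mem_insert, Finset.mem_singleton,
      Prod.mk.injEq]
    omega
  · refine ⟨(1, 1), 2, ?_⟩
    rintro ⟨m, n⟩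
    simp only [pat, Prod.neg_mk, Prod.mk_add_mk, Finset.mem_insert, Finset.mem_singleton,
      Prod.mk.injEq]
    omega
  · refine ⟨(1, 0), 3, ?_⟩
    rintro ⟨m, n⟩
    simp only [pat, Prod.neg_mk, Prod.mk_add_mk, Finset.mem_insert, Finset.mem_singleton,
      Prod.mk.injEq]
    omega
  · refine ⟨(2, -1), 4, ?_⟩
    rintro ⟨m, n⟩
    simp only [pat, Prod.neg_mk, Prod.mk_add_mk, Finset.mem_insert, Finset.mem_singleton,
      Prod.mk.injEq]
    omega

/-- outside the lines `a ∈ ℤ`, `b ∈ ℤ`, `a + b ∈ ℤ` the pattern is one of the five, up to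
translation -/
theorem Tset_pat (a b : ℝ) (ha : ∀ k : ℤ, a ≠ k) (hb : ∀ k : ℤ, b ≠ k)
    (hab : ∀ k : ℤ, a + b ≠ k) :
    ∃ g : ℤ × ℤ, ∃ i : Fin 5, Tset a b = {t | t - g ∈ pat i} := by
  have ha0 : 0 < Int.fract a := by
    rcases (Int.fract_nonneg a).lt_or_eq with h | h
    · exact h
    · exact absurd (by have := Int.self_sub_floor a; linarith) (ha ⌊a⌋)
  have hb0 : 0 < Int.fract b := by
    rcases (Int.fract_nonneg b).lt_or_eq with h | h
    · exact h
    · exact absurd (by have := Int.self_sub_floor b; linarith) (hb ⌊b⌋)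
  have ha1 := Int.fract_lt_one a
  have hb1 := Int.fract_lt_one b
  have ea := Int.floor_add_fract a
  have eb := Int.floor_add_fract b
  rcases lt_trichotomy (Int.fract a + Int.fract b) 1 with h | h | h
  · obtain ⟨g, i, hi⟩ := Tset_up _ _ ha0 hb0 h
    refine ⟨g + (⌊a⌋, ⌊b⌋), i, ?_⟩
    ext t
    have h1 : t ∈ Tset a b ↔ t - (⌊a⌋, ⌊b⌋) ∈ Tset (Int.fract a) (Int.fract b) := by
      simp only [Tset, Set.mem_ofPred_eq, Prod.fst_sub, Prod.snd_sub]
      push_cast
      have e1 : (t.1 : ℝ) - ⌊a⌋ - Int.fract a = t.1 - a := by linarith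
      have e2 : (t.2 : ℝ) - ⌊b⌋ - Int.fract b = t.2 - b := by linarith
      rw [e1, e2]
    rw [h1, hi]
    simp only [Set.mem_ofPred_eq]
    rw [show t - (g + (⌊a⌋, ⌊b⌋)) = t - (⌊a⌋, ⌊b⌋) - g by abel]
  · exact absurd (by push_cast; linarith) (hab (⌊a⌋ + ⌊b⌋ + 1))
  · obtain ⟨g, i, hi⟩ := Tset_up (1 - Int.fract a) (1 - Int.fract b) (by linarith) (by linarith)
      (by linarith)
    obtain ⟨k, j, hj⟩ := pat_neg i
    refine ⟨(⌊a⌋, ⌊b⌋) + (1, 1) - g - k, j, ?_⟩
    ext t
    have h1 : t ∈ Tset a b ↔ (⌊a⌋, ⌊b⌋) + (1, 1) - t ∈ Tset (1 - Int.fract a) (1 - Int.fract b) := by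
      simp only [Tset, Set.mem_ofPred_eq, Prod.fst_sub, Prod.snd_sub, Prod.fst_add, Prod.snd_add]
      push_cast
      have e1 : (⌊a⌋ : ℝ) + 1 - t.1 - (1 - Int.fract a) = -(t.1 - a) := by linarith
      have e2 : (⌊b⌋ : ℝ) + 1 - t.2 - (1 - Int.fract b) = -(t.2 - b) := by linarith
      rw [e1, e2]
      unfold Qf
      constructor <;> intro h <;> nlinarith
    rw [h1, hi]
    simp only [Set.mem_ofPred_eq]
    rw [show (⌊a⌋, ⌊b⌋) + (1, 1) - t - g = -(t - ((⌊a⌋, ⌊b⌋) + (1, 1) - g)) by abel, hj]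
    rw [show t - ((⌊a⌋, ⌊b⌋) + (1, 1) - g) + k = t - ((⌊a⌋, ⌊b⌋) + (1, 1) - g - k) by abel]

end Pool.Agent.MP7c5cdb
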