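import Mathlib
import Pool.Agent.MP_7c5cdb.Defs
import Pool.Agent.MP_7c5cdb.HexGeom

set_option autoImplicit false
open MeasureTheory

namespace Pool.Agent.MP7c5cdb

/-- the unit disc in hexagonal coordinates -/
def hexDisc : Set (Fin 2 → ℝ) := {u | u 0 ^ 2 + u 0 * u 1 + u 1 ^ 2 < 1}

lemma ae_linear_notInt (L : (Fin 2 → ℝ) →ₗ[ℝ] ℝ) (hL : Function.Surjective L) :
    ∀ᵐ x : Fin 2 → ℝ, ∀ k : ℤ, L x ≠ k := by
  have h2 : ∀ᵐ y : ℝ, y ∈ (Set.range ((↑) : ℤ → ℝ))ᶜ :=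
    (Set.countable_range _).ae_notMem volume
  have h1 := (ae_comp_linearMap_mem_iff L (volume : Measure (Fin 2 → ℝ)) (volume : Measure ℝ) hL
    (Set.countable_range ((↑) : ℤ → ℝ)).measurableSet.compl).2 h2
  filter_upwards [h1] with x hx k hk
  exact hx ⟨k, hk.symm⟩

theorem ae_pat : ∀ᵐ x : Fin 2 → ℝ, ∃ g : ℤ × ℤ, ∃ i : Fin 5, ∀ t : Fin 2 → ℤ,
    (fun k => x k + (t k : ℝ)) ∈ hexDisc ↔ (t 0, t 1) - g ∈ pat i := by
  have h0 := ae_linear_notInt (LinearMap.proj 0) (fun y => ⟨fun _ => y, rfl⟩)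
  have h1 := ae_linear_notInt (LinearMap.proj 1) (fun y => ⟨fun _ => y, rfl⟩)
  have h2 := ae_linear_notInt ((LinearMap.proj 0 : (Fin 2 → ℝ) →ₗ[ℝ] ℝ) +
    (LinearMap.proj 1 : (Fin 2 → ℝ) →ₗ[ℝ] ℝ)) (fun y => ⟨fun _ => y / 2, by
      show y / 2 + y / 2 = y
      ring⟩)
  filter_upwards [h0, h1, h2] with x hx0 hx1 hx2
  have hx0' : ∀ k : ℤ, x 0 ≠ k := hx0
  have hx1' : ∀ k : ℤ, x 1 ≠ k := hx1
  have hx2' : ∀ k : ℤ, x 0 + x 1 ≠ k := hx2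
  obtain ⟨g, i, hgi⟩ := Tset_pat (-x 0) (-x 1)
    (fun k hk => hx0' (-k) (by push_cast; linarith))
    (fun k hk => hx1' (-k) (by push_cast; linarith))
    (fun k hk => hx2' (-k) (by push_cast; linarith))
  refine ⟨g, i, fun t => ?_⟩
  have h3 : (t 0, t 1) ∈ Tset (-x 0) (-x 1) ↔ (t 0, t 1) - g ∈ pat i := by
    rw [hgi]; rfl
  rw [← h3]
  simp only [hexDisc, Tset, Set.mem_ofPred_eq, Qf]
  rw [show (t 0 : ℝ) - -x 0 = x 0 + t 0 by ring, show (t 1 : ℝ) - -x 1 = x 1 + t 1 by ring]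

lemma hexDisc_bdd : ∃ R : ℝ, ∀ y ∈ hexDisc, ∀ i, |y i| ≤ R := by
  refine ⟨2, fun y hy i => ?_⟩
  have hy' : y 0 ^ 2 + y 0 * y 1 + y 1 ^ 2 < 1 := hy
  rw [abs_le]
  fin_cases i
  · show -2 ≤ y 0 ∧ y 0 ≤ 2
    constructor <;> nlinarith [sq_nonneg (y 0 + 2 * y 1), sq_nonneg (y 0)]
  · show -2 ≤ y 1 ∧ y 1 ≤ 2
    constructor <;> nlinarith [sq_nonneg (y 1 + 2 * y 0), sq_nonneg (y 1)]

lemma hexDisc_meas : MeasurableSet hexDisc := by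
  unfold hexDisc
  exact (isOpen_lt (by fun_prop) (by fun_prop)).measurableSet

/-- the change of coordinates from hexagonal to Cartesian -/
noncomputable def hexMat : Matrix (Fin 2) (Fin 2) ℝ := !![1, 1 / 2; 0, Real.sqrt 3 / 2]

lemma hexMat_det : hexMat.det ≠ 0 := by
  simp [hexMat, Matrix.det_fin_two]

lemma hexDisc_eq : {u : Fin 2 → ℝ | hexMat.mulVec u ∈ {y : Fin 2 → ℝ | ∑ i, (y i) ^ 2 < 1}} =
    hexDisc := by
  ext u
  simp only [hexMat, Set.mem_ofPred_eq, hexDisc, Fin.sum_univ_two, Matrix.mulVec, dotProduct,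
    Matrix.of_apply, Matrix.cons_val', Matrix.cons_val_zero, Matrix.cons_val_one,
    Matrix.cons_val_fin_one]
  have h3 : Real.sqrt 3 ^ 2 = 3 := Real.sq_sqrt (by norm_num)
  have h4 : (1 * u 0 + 1 / 2 * u 1) ^ 2 + (0 * u 0 + Real.sqrt 3 / 2 * u 1) ^ 2 =
      u 0 ^ 2 + u 0 * u 1 + u 1 ^ 2 := by
    linear_combination (u 1 ^ 2 / 4) * h3
  rw [h4]

end Pool.Agent.MP7c5cdb
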