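import Pool.Agent.MP_7c5cdb.Periodic

set_option autoImplicit false
set_option maxHeartbeats 400000
open MeasureTheory Set
open scoped ENNReal ComplexConjugate

namespace Pool.Agent.MP7c5cdb

/-- Pair to vector. -/
def pv : ℤ × ℤ ≃ (Fin 2 → ℤ) where
  toFun t := ![t.1, t.2]
  invFun p := (p 0, p 1)
  left_inv t := rfl
  right_inv p := by
    funext i
    fin_cases i <;> rfl

/-- The embedding of the superlattice of index four. -/
def hexι : ℤ × ℤ →+ (Fin 2 → ℤ) where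
  toFun h := ![4 * h.1 + h.2, h.2]
  map_zero' := by
    funext i
    fin_cases i <;> rfl
  map_add' g h := by
    funext i
    fin_cases i
    · simp
      ring
    · simp

/-- Height and class. -/
def hexe : (Fin 2 → ℤ) ≃ (ℤ × ℤ) × Fin 4 where
  toFun p := (((p 0 - p 1) / 4, p 1),
    ⟨((p 0 - p 1) % 4).toNat, by
      have h1 := Int.emod_nonneg (p 0 - p 1) (show (4 : ℤ) ≠ 0 by norm_num)
      have h2 := Int.emod_lt_of_pos (p 0 - p 1) (show (0 : ℤ) < 4 by norm_num)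
      omega⟩)
  invFun q := ![4 * q.1.1 + q.1.2 + (q.2.1 : ℤ), q.1.2]
  left_inv p := by
    have h1 := Int.emod_nonneg (p 0 - p 1) (show (4 : ℤ) ≠ 0 by norm_num)
    have h3 := Int.mul_ediv_add_emod (p 0 - p 1) 4
    funext i
    fin_cases i
    · show 4 * ((p 0 - p 1) / 4) + p 1 + (((p 0 - p 1) % 4).toNat : ℤ) = p 0
      rw [Int.toNat_of_nonneg h1]
      linarith
    · rfl
  right_inv q := by
    obtain ⟨⟨h1, h2⟩, k⟩ := q
    have hk : (k.1 : ℤ) < 4 := by exact_mod_cast k.2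
    have hk0 : (0 : ℤ) ≤ k.1 := by positivity
    have e1 : (4 * h1 + h2 + (k.1 : ℤ)) - h2 = (k.1 : ℤ) + 4 * h1 := by ring
    refine Prod.ext (Prod.ext ?_ rfl) (Fin.ext ?_)
    · show ((4 * h1 + h2 + (k.1 : ℤ)) - h2) / 4 = h1
      rw [e1, Int.add_mul_ediv_left _ _ (by norm_num), Int.ediv_eq_zero_of_lt hk0 hk, zero_add]
    · show (((4 * h1 + h2 + (k.1 : ℤ)) - h2) % 4).toNat = k.1
      rw [e1, Int.add_mul_emod_self_left, Int.emod_eq_of_lt hk0 hk]
      simp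

/-- The hexagonal design. -/
noncomputable def hexD (s t : ℝ) : PerData 2 4 (ℤ × ℤ) where
  e := hexe
  ι := hexι
  he p g := by
    have e1 : ((p + hexι g) 0 - (p + hexι g) 1) = (p 0 - p 1) + 4 * g.1 := by
      show (p 0 + (4 * g.1 + g.2)) - (p 1 + g.2) = _
      ring
    refine Prod.ext (Prod.ext ?_ ?_) (Fin.ext ?_)
    · show ((p + hexι g) 0 - (p + hexι g) 1) / 4 = (p 0 - p 1) / 4 + g.1
      rw [e1, Int.add_mul_ediv_left _ _ (by norm_num)]
    · rfl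
    · show (((p + hexι g) 0 - (p + hexι g) 1) % 4).toNat = ((p 0 - p 1) % 4).toNat
      rw [e1, Int.add_mul_emod_self_left]
  m := ![0, 0, ![1, 0], ![1, 0]]
  a0 := ![![s, -s], ![-s, s], ![1 / 2 + t, 1 / 2 - t], ![1 / 2 - t, 1 / 2 + t]]

/-- The window in lattice coordinates. -/
def hexΩ : Set (Fin 2 → ℝ) := {u | u 0 ^ 2 + u 0 * u 1 + u 1 ^ 2 < 1}

lemma hexΩ_meas : MeasurableSet hexΩ := by
  unfold hexΩ
  refine IsOpen.measurableSet (isOpen_lt (by fun_prop) continuous_const)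

lemma hexΩ_bdd : ∃ R : ℝ, ∀ y ∈ hexΩ, ∀ i, |y i| ≤ R := by
  refine ⟨2, fun y hy i => ?_⟩
  have h : y 0 ^ 2 + y 0 * y 1 + y 1 ^ 2 < 1 := hy
  rw [abs_le]
  fin_cases i
  · show -2 ≤ y 0 ∧ y 0 ≤ 2
    constructor <;> nlinarith [sq_nonneg (y 0 + 2 * y 1), sq_nonneg (y 0 - 2), sq_nonneg (y 0 + 2)]
  · show -2 ≤ y 1 ∧ y 1 ≤ 2
    constructor <;> nlinarith [sq_nonneg (2 * y 0 + y 1), sq_nonneg (y 1 - 2), sq_nonneg (y 1 + 2)]

/-- A level set of a nonzero linear form has measure zero. -/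
lemma volume_level {d : ℕ} (l : Fin d → ℝ) (i₀ : Fin d) (hl : l i₀ ≠ 0) (c : ℝ) :
    volume {x : Fin d → ℝ | ∑ i, l i * x i = c} = 0 := by
  classical
  let L : (Fin d → ℝ) →ₗ[ℝ] ℝ := ∑ i, l i • LinearMap.proj i
  have hL : ∀ x, L x = ∑ i, l i * x i := by
    intro x
    simp [L]
  let s : AffineSubspace ℝ (Fin d → ℝ) :=
    AffineSubspace.comap L.toAffineMap (AffineSubspace.mk' c ⊥)
  have hmem : ∀ x, x ∈ s ↔ ∑ i, l i * x i = c := by
    intro x
    simp only [s, AffineSubspace.mem_comap, AffineSubspace.mem_mk', LinearMap.coe_toAffineMap,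
      Submodule.mem_bot, vsub_eq_sub, sub_eq_zero, hL]
  have hs : s ≠ ⊤ := by
    intro h
    have h1 : (0 : Fin d → ℝ) ∈ s := by rw [h]; trivial
    have h2 : (Pi.single i₀ 1 : Fin d → ℝ) ∈ s := by rw [h]; trivial
    rw [hmem] at h1 h2
    simp [Pi.single_apply] at h1 h2
    rw [← h1] at h2
    exact hl h2
  have h3 := Measure.addHaar_affineSubspace (volume : Measure (Fin d → ℝ)) s hs
  have h4 : {x : Fin d → ℝ | ∑ i, l i * x i = c} = (s : Set (Fin d → ℝ)) := by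
    ext x
    rw [Set.mem_ofPred_eq, SetLike.mem_coe, hmem]
  rw [h4]
  exact h3

lemma ae_not_int {d : ℕ} (l : Fin d → ℝ) (i₀ : Fin d) (hl : l i₀ ≠ 0) :
    ∀ᵐ x ∂(volume : Measure (Fin d → ℝ)), ∀ n : ℤ, ∑ i, l i * x i ≠ (n : ℝ) := by
  rw [ae_all_iff]
  intro n
  rw [ae_iff]
  simpa using volume_level l i₀ hl (n : ℝ)

/-- Assembly of the planar case. -/
theorem hex_isGRB (s t : ℝ) (hs : ∀ n : ℤ, 2 * s ≠ (n : ℝ)) (ht : ∀ n : ℤ, 2 * t ≠ (n : ℝ))
    (pat : Fin 5 → Finset (ℤ × ℤ))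
    (hgeo : ∀ a b : ℝ, (∀ n : ℤ, a ≠ n) → (∀ n : ℤ, b ≠ n) → (∀ n : ℤ, a + b ≠ n) →
      ∃ (g : ℤ × ℤ) (i : Fin 5), ∀ t : ℤ × ℤ,
        ((t.1 : ℝ) - a) ^ 2 + ((t.1 : ℝ) - a) * ((t.2 : ℝ) - b) + ((t.2 : ℝ) - b) ^ 2 < 1 ↔
          t - g ∈ pat i)
    (hdet : ∀ i, ((hexD s t).Mat ((pat i).map pv.toEmbedding)).det ∈
      Submonoid.closure (Dom (G := ℤ × ℤ))) :
    ∃ S, IsGRB hexΩ S := by
  refine exists_isGRB_of_perData (hexD s t) (fun i => (pat i).map pv.toEmbedding)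
    hexΩ_meas hexΩ_bdd ?_ ?_ hdet
  · intro k k' hm ha
    obtain ⟨g, hg⟩ := hm
    obtain ⟨γ, hγ⟩ := ha
    have h0 := congrFun hg 0
    have h1 := congrFun hg 1
    have a0 := hγ 0
    have a1 := hγ 1
    fin_cases k <;> fin_cases k' <;>
      simp [hexD, hexι] at h0 h1 a0 a1 ⊢
    · apply hs (γ 0)
      linarith
    · rw [← h1] at h0
      omega
    · rw [← h1] at h0
      omega
    · apply hs (γ 1)
      linarith
    · rw [← h1] at h0
      omega
    · rw [← h1] at h0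
      omega
    · rw [← h1] at h0
      omega
    · rw [← h1] at h0
      omega
    · apply ht (γ 0)
      linarith
    · rw [← h1] at h0
      omega
    · rw [← h1] at h0
      omega
    · apply ht (γ 1)
      linarith
  · have e0 := ae_not_int (d := 2) ![1, 0] 0 (by simp)
    have e1 := ae_not_int (d := 2) ![0, 1] 1 (by simp)
    have e2 := ae_not_int (d := 2) ![1, 1] 0 (by simp)
    have h3 : ∀ᵐ x ∂(volume : Measure (Fin 2 → ℝ)), ∃ (i : Fin 5) (g : Fin 2 → ℤ),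
        ∀ t : Fin 2 → ℤ, x + zv t ∈ hexΩ ↔ t - g ∈ (pat i).map pv.toEmbedding := by
      filter_upwards [e0, e1, e2] with x h0 h1 h2
      simp only [Fin.sum_univ_two, Matrix.cons_val_zero, Matrix.cons_val_one, one_mul, zero_mul,
        add_zero, zero_add] at h0 h1 h2
      obtain ⟨g, i, hgi⟩ := hgeo (-x 0) (-x 1)
        (fun n h => h0 (-n) (by push_cast; linarith))
        (fun n h => h1 (-n) (by push_cast; linarith))
        (fun n h => h2 (-n) (by push_cast; linarith))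
      refine ⟨i, pv g, fun t => ?_⟩
      have h4 := hgi (t 0, t 1)
      have h5 : x + zv t ∈ hexΩ ↔ ((t 0 : ℝ) - -x 0) ^ 2 + ((t 0 : ℝ) - -x 0) *
          ((t 1 : ℝ) - -x 1) + ((t 1 : ℝ) - -x 1) ^ 2 < 1 := by
        show ((x 0 + (t 0 : ℝ)) ^ 2 + (x 0 + (t 0 : ℝ)) * (x 1 + (t 1 : ℝ)) +
          (x 1 + (t 1 : ℝ)) ^ 2 < 1) ↔ _
        constructor
        · intro h
          linarith
        · intro h
          linarith
      rw [h5, h4, Finset.mem_map_equiv]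
      have h6 : pv.symm (t - pv g) = (t 0, t 1) - g := rfl
      rw [h6]
    exact ae_restrict_of_ae h3

/-- The unit disc in the plane. -/
theorem disc_of_hex (h : ∃ S, IsGRB hexΩ S) :
    ∃ S, IsGRB {y : Fin 2 → ℝ | ∑ i, (y i) ^ 2 < 1} S := by
  refine exists_isGRB_linear !![1, 1 / 2; 0, Real.sqrt 3 / 2] ?_ ?_
  · rw [Matrix.det_fin_two_of]
    have : (0 : ℝ) < Real.sqrt 3 := Real.sqrt_pos.2 (by norm_num)
    have h2 : (0 : ℝ) < 1 * (Real.sqrt 3 / 2) - 1 / 2 * 0 := by linarith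
    exact h2.ne'
  · have h2 : {u : Fin 2 → ℝ | (!![1, 1 / 2; 0, Real.sqrt 3 / 2] :
        Matrix (Fin 2) (Fin 2) ℝ).mulVec u ∈ {y : Fin 2 → ℝ | ∑ i, (y i) ^ 2 < 1}} = hexΩ := by
      ext u
      have h3 : (Real.sqrt 3) ^ 2 = 3 := Real.sq_sqrt (by norm_num)
      have h4 : ∑ i, ((!![1, 1 / 2; 0, Real.sqrt 3 / 2] :
          Matrix (Fin 2) (Fin 2) ℝ).mulVec u i) ^ 2 = u 0 ^ 2 + u 0 * u 1 + u 1 ^ 2 := by
        rw [Fin.sum_univ_two]
        simp only [Matrix.mulVec, dotProduct, Fin.sum_univ_two, Matrix.of_apply,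
          Matrix.cons_val_zero, Matrix.cons_val_one, Matrix.cons_val']
        linear_combination (u 1 ^ 2 / 4) * h3
      rw [Set.mem_ofPred_eq, Set.mem_ofPred_eq, h4]
      rfl
    rw [h2]
    exact h

end Pool.Agent.MP7c5cdb
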