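import Mathlib
import Pool.Agent.MP_7c5cdb.Defs
import Pool.Agent.MP_7c5cdb.HexGeom

/-!
# The five symbol matrices of the hexagonal design and their determinants
-/

set_option autoImplicit false

namespace Pool.Agent.MP7c5cdb

/-- the group algebra of the column superlattice -/
abbrev GA := AddMonoidAlgebra ℂ (ℤ × ℤ)

/-- residue class of a lattice point modulo the superlattice spanned by `(4, 0)`, `(1, 1)` -/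
def cls (p : ℤ × ℤ) : Fin 4 := ⟨((p.1 - p.2) % 4).toNat, by omega⟩

/-- superlattice coordinates of a lattice point -/
def hgt (p : ℤ × ℤ) : ℤ × ℤ := ((p.1 - p.2) / 4, p.2)

/-- the centres of the four columns in one period -/
def ctr : Fin 4 → ℤ × ℤ := ![(0, 0), (0, 0), (1, 0), (1, 0)]

/-- the characters of the four columns -/
noncomputable def chi (α β : ℂ) (k : Fin 4) (t : ℤ × ℤ) : ℂ :=
  ![α ^ (t.1 - t.2), α⁻¹ ^ (t.1 - t.2), (-1) ^ (t.1 + t.2) * β ^ (t.1 - t.2),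
    (-1) ^ (t.1 + t.2) * β⁻¹ ^ (t.1 - t.2)] k

/-- the symbol matrix of the pattern `T` -/
noncomputable def Mat (α β : ℂ) (T : Finset (ℤ × ℤ)) : Matrix (Fin 4) (Fin 4) GA :=
  fun e k => ∑ t ∈ T, if cls (ctr k + t) = e then
    AddMonoidAlgebra.single (hgt (ctr k + t)) (chi α β k t) else 0

/-- monomials with arbitrary coefficient -/
noncomputable abbrev sg (i j : ℤ) (c : ℂ) : GA := AddMonoidAlgebra.single (i, j) c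

lemma sg_mul (i j i' j' : ℤ) (c c' : ℂ) : sg i j c * sg i' j' c' = sg (i + i') (j + j') (c * c') := by
  simp [sg]

lemma Mat_pat0 (α β : ℂ) : Mat α β (pat 0) =
    !![sg 0 0 1, sg 0 0 1, sg 0 1 (-β⁻¹), sg 0 1 (-β);
      sg 0 0 α, sg 0 0 α⁻¹, sg 0 0 1, sg 0 0 1;
      0, 0, sg 0 0 (-β), sg 0 0 (-β⁻¹);
      sg (-1) 1 α⁻¹, sg (-1) 1 α, 0, 0] := by
  ext e k : 2
  fin_cases e <;> fin_cases k <;> simp [Mat, pat, cls, ctr, hgt, chi, sg]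

lemma Mat_pat1 (α β : ℂ) : Mat α β (pat 1) =
    !![sg 0 0 1, sg 0 0 1, 0, 0;
      sg 0 0 α, sg 0 0 α⁻¹, sg 0 0 1, sg 0 0 1;
      sg 0 (-1) (α ^ 2), sg 0 (-1) (α⁻¹ ^ 2), sg 0 0 (-β), sg 0 0 (-β⁻¹);
      0, 0, sg 0 (-1) (β ^ 2), sg 0 (-1) (β⁻¹ ^ 2)] := by
  ext e k : 2
  fin_cases e <;> fin_cases k <;> simp [Mat, pat, cls, ctr, hgt, chi, sg]

lemma Mat_pat2 (α β : ℂ) : Mat α β (pat 2) =
    !![sg 0 0 1 + sg 0 1 1, sg 0 0 1 + sg 0 1 1, sg 0 1 (-β⁻¹), sg 0 1 (-β);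
      sg 0 0 α, sg 0 0 α⁻¹, sg 0 0 1 + sg 0 1 1, sg 0 0 1 + sg 0 1 1;
      0, 0, sg 0 0 (-β), sg 0 0 (-β⁻¹);
      sg (-1) 1 α⁻¹, sg (-1) 1 α, 0, 0] := by
  ext e k : 2
  fin_cases e <;> fin_cases k <;> simp [Mat, pat, cls, ctr, hgt, chi, sg]

lemma Mat_pat3 (α β : ℂ) : Mat α β (pat 3) =
    !![sg 0 0 1, sg 0 0 1, sg 0 1 (-β⁻¹), sg 0 1 (-β);
      sg 0 0 α, sg 0 0 α⁻¹, sg 0 0 1, sg 0 0 1;
      sg 0 (-1) (α ^ 2), sg 0 (-1) (α⁻¹ ^ 2), sg 0 0 (-β), sg 0 0 (-β⁻¹);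
      sg (-1) 1 α⁻¹, sg (-1) 1 α, sg 0 (-1) (β ^ 2), sg 0 (-1) (β⁻¹ ^ 2)] := by
  ext e k : 2
  fin_cases e <;> fin_cases k <;> simp [Mat, pat, cls, ctr, hgt, chi, sg]

lemma Mat_pat4 (α β : ℂ) : Mat α β (pat 4) =
    !![sg 0 0 1, sg 0 0 1, sg 1 (-1) (-(β ^ 3)), sg 1 (-1) (-(β⁻¹ ^ 3));
      sg 0 0 α, sg 0 0 α⁻¹, sg 0 0 1, sg 0 0 1;
      sg 0 (-1) (α ^ 2), sg 0 (-1) (α⁻¹ ^ 2), sg 0 0 (-β), sg 0 0 (-β⁻¹);
      sg 0 (-1) (α ^ 3), sg 0 (-1) (α⁻¹ ^ 3), sg 0 (-1) (β ^ 2), sg 0 (-1) (β⁻¹ ^ 2)] := by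
  ext e k : 2
  fin_cases e <;> fin_cases k <;> simp [Mat, pat, cls, ctr, hgt, chi, sg]



lemma det0 {R : Type*} [CommRing R] (a a1 b b1 u u1 z z1 : R) (ha : a * a1 = 1)
    (hb : b * b1 = 1) (hz : z * z1 = 1) :
    Matrix.det (!![1, 1, (-b1*z), (-b*z);
      a, a1, 1, 1;
      0, 0, (-b), (-b1);
      a1*u1*z, a*u1*z, 0, 0] : Matrix (Fin 4) (Fin 4) R) =
    (a - a1) * (b - b1) * (u1 * z) * (1 + (a + a1) * (b + b1) * z) := by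
  simp [Matrix.det_succ_row_zero, Fin.sum_univ_succ, Fin.succAbove]
  linear_combination (0) * ha + (0) * hb + (0) * hz

lemma det1 {R : Type*} [CommRing R] (a a1 b b1 u u1 z z1 : R) (ha : a * a1 = 1)
    (hb : b * b1 = 1) (hz : z * z1 = 1) :
    Matrix.det (!![1, 1, 0, 0;
      a, a1, 1, 1;
      a^2*z1, a1^2*z1, (-b), (-b1);
      0, 0, b^2*z1, b1^2*z1] : Matrix (Fin 4) (Fin 4) R) =
    (a - a1) * (b - b1) * (-(z1 ^ 2)) * ((a + a1) * (b + b1) + z) := by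
  simp [Matrix.det_succ_row_zero, Fin.sum_univ_succ, Fin.succAbove]
  linear_combination (0) * ha + ((-a1*b1*z1) + a1*b*z1 + a*b1*z1 + (-a*b*z1)) * hb + (a1*b1*z1 + (-a1*b*z1) + (-a*b1*z1) + a*b*z1) * hz

lemma det2 {R : Type*} [CommRing R] (a a1 b b1 u u1 z z1 : R) (ha : a * a1 = 1)
    (hb : b * b1 = 1) (hz : z * z1 = 1) :
    Matrix.det (!![1 + z, 1 + z, (-b1*z), (-b*z);
      a, a1, 1 + z, 1 + z;
      0, 0, (-b), (-b1);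
      a1*u1*z, a*u1*z, 0, 0] : Matrix (Fin 4) (Fin 4) R) =
    (a - a1) * (b - b1) * (u1 * z) * (1 + ((a + a1) * (b + b1) + 2) * z + z ^ 2) := by
  simp [Matrix.det_succ_row_zero, Fin.sum_univ_succ, Fin.succAbove]
  linear_combination (0) * ha + (0) * hb + (0) * hz

lemma det3 {R : Type*} [CommRing R] (a a1 b b1 u u1 z z1 : R) (ha : a * a1 = 1)
    (hb : b * b1 = 1) (hz : z * z1 = 1) :
    Matrix.det (!![1, 1, (-b1*z), (-b*z);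
      a, a1, 1, 1;
      a^2*z1, a1^2*z1, (-b), (-b1);
      a1*u1*z, a*u1*z, b^2*z1, b1^2*z1] : Matrix (Fin 4) (Fin 4) R) =
    (a - a1) * (b - b1) * ((a + a1) + (b + b1) * z) * ((a + a1) * (u1 * z) - (b + b1) * z1 ^ 2) := by
  simp [Matrix.det_succ_row_zero, Fin.sum_univ_succ, Fin.succAbove]
  linear_combination ((-a1*b1*u1*z) + (-a1*b1^3*z*z1^2) + a1*b*u1*z + a1*b^3*z*z1^2 + a*b1*u1*z + a*b1^3*z*z1^2 + (-a*b*u1*z) + (-a*b^3*z*z1^2)) * ha + ((-a1*b1*z1) + a1*b1*z*z1^2 + a1*b*z1 + (-a1*b*z*z1^2) + a*b1*z1 + (-a*b1*z*z1^2) + (-a*b*z1) + a*b*z*z1^2) * hb + (a1*b1*z1 + (-a1*b*z1) + a1^3*b1*u1*z + (-a1^3*b*u1*z) + (-a*b1*z1) + a*b*z1 + (-a^3*b1*u1*z) + a^3*b*u1*z) * hz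

lemma det4 {R : Type*} [CommRing R] (a a1 b b1 u u1 z z1 : R) (ha : a * a1 = 1)
    (hb : b * b1 = 1) (hz : z * z1 = 1) :
    Matrix.det (!![1, 1, (-b^3*u*z1), (-b1^3*u*z1);
      a, a1, 1, 1;
      a^2*z1, a1^2*z1, (-b), (-b1);
      a^3*z1, a1^3*z1, b^2*z1, b1^2*z1] : Matrix (Fin 4) (Fin 4) R) =
    (a - a1) * (b - b1) * ((b + b1) + (a + a1) * z) * ((b + b1) * (u * z1 ^ 3) - (a + a1) * z1 ^ 2) := by
  simp [Matrix.det_succ_row_zero, Fin.sum_univ_succ, Fin.succAbove]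
  linear_combination (a1*b1*z*z1^2 + a1*b1^3*u*z1^3 + (-a1*b*z*z1^2) + a1*b^2*b1^3*u*z1^3 + (-a1*b^3*u*z1^3) + (-a1*b^3*b1^2*u*z1^3) + a1^2*b*b1^3*u*z1^2 + (-a1^2*b^3*b1*u*z1^2) + (-a*b1*z*z1^2) + (-a*b1^3*u*z1^3) + a*b*z*z1^2 + (-a*b^2*b1^3*u*z1^3) + a*b^3*u*z1^3 + a*b^3*b1^2*u*z1^3 + a*a1^2*b1^3*u*z1^3 + (-a*a1^2*b^3*u*z1^3) + (-a^2*b*b1^3*u*z1^2) + a^2*b^3*b1*u*z1^2 + (-a^2*a1*b1^3*u*z1^3) + a^2*a1*b^3*u*z1^3) * ha + ((-a1*b1*z1) + a1*b*z1 + a1*b*b1^2*u*z1^3 + (-a1*b^2*b1*u*z1^3) + a1^2*b1^2*u*z1^2 + (-a1^2*b^2*u*z1^2) + a*b1*z1 + (-a*b*z1) + (-a*b*b1^2*u*z1^3) + a*b^2*b1*u*z1^3 + (-a^2*b1^2*u*z1^2) + a^2*b^2*u*z1^2) * hb + (a1*b1*z1 + (-a1*b*z1) + (-a1^2*b1^2*u*z1^2) + a1^2*b^2*u*z1^2 + a1^3*b1*z1 + (-a1^3*b*z1) + (-a*b1*z1) + a*b*z1 + a^2*b1^2*u*z1^2 + (-a^2*b^2*u*z1^2) + (-a^3*b1*z1) + a^3*b*z1) * hz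

/-- elements with a dominant coefficient -/
def DomE : Set GA := {f | ∃ g, ∑ h ∈ f.coeff.support.erase g, ‖f.coeff h‖ < ‖f.coeff g‖}

lemma dom_one (i j : ℤ) (c : ℂ) (hc : c ≠ 0) : sg i j c ∈ DomE := by
  refine ⟨(i, j), ?_⟩
  have h1 : (sg i j c).coeff = Finsupp.single (i, j) c := rfl
  rw [h1, Finsupp.support_single _ hc]
  simpa using hc

lemma sum_erase_le (f : GA) (g : ℤ × ℤ) (s : Finset (ℤ × ℤ)) (hs : f.coeff.support ⊆ insert g s) :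
    ∑ h ∈ f.coeff.support.erase g, ‖f.coeff h‖ ≤ ∑ h ∈ s, ‖f.coeff h‖ := by
  refine Finset.sum_le_sum_of_subset_of_nonneg ?_ (fun _ _ _ => norm_nonneg _)
  intro h hh
  have h1 := hs (Finset.mem_of_mem_erase hh)
  have h2 := Finset.ne_of_mem_erase hh
  rcases Finset.mem_insert.1 h1 with h3 | h3
  · exact absurd h3 h2
  · exact h3

lemma dom_two (g g' : ℤ × ℤ) (hg : g ≠ g') (c c' : ℂ) (hc : ‖c'‖ < ‖c‖) :
    (AddMonoidAlgebra.single g c + AddMonoidAlgebra.single g' c' : GA) ∈ DomE := by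
  refine ⟨g, ?_⟩
  have h1 : ∀ h, (AddMonoidAlgebra.single g c + AddMonoidAlgebra.single g' c' : GA).coeff h =
      (if g = h then c else 0) + (if g' = h then c' else 0) := by
    intro h
    simp [AddMonoidAlgebra.coeff_add, Finsupp.single_apply]
  refine lt_of_le_of_lt (sum_erase_le _ g {g'} ?_) ?_
  · intro h hh
    rw [Finsupp.mem_support_iff, h1] at hh
    simp only [Finset.mem_insert, Finset.mem_singleton]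
    by_contra hcon
    push Not at hcon
    exact hh (by rw [if_neg (Ne.symm hcon.1), if_neg (Ne.symm hcon.2), add_zero])
  · rw [Finset.sum_singleton, h1, h1]
    rw [if_neg hg, if_pos rfl, if_pos rfl, if_neg (Ne.symm hg)]
    simpa using hc

lemma dom_three (g g' g2 : ℤ × ℤ) (hg : g ≠ g') (hg2 : g ≠ g2) (hg3 : g' ≠ g2) (c c' c2 : ℂ)
    (hc : ‖c'‖ + ‖c2‖ < ‖c‖) :
    (AddMonoidAlgebra.single g c + AddMonoidAlgebra.single g' c' +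
      AddMonoidAlgebra.single g2 c2 : GA) ∈ DomE := by
  refine ⟨g, ?_⟩
  have h1 : ∀ h, (AddMonoidAlgebra.single g c + AddMonoidAlgebra.single g' c' +
      AddMonoidAlgebra.single g2 c2 : GA).coeff h =
      (if g = h then c else 0) + (if g' = h then c' else 0) + (if g2 = h then c2 else 0) := by
    intro h
    simp [AddMonoidAlgebra.coeff_add, Finsupp.single_apply]
  refine lt_of_le_of_lt (sum_erase_le _ g {g', g2} ?_) ?_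
  · intro h hh
    rw [Finsupp.mem_support_iff, h1] at hh
    simp only [Finset.mem_insert, Finset.mem_singleton]
    by_contra hcon
    push Not at hcon
    exact hh (by rw [if_neg (Ne.symm hcon.1), if_neg (Ne.symm hcon.2.1),
      if_neg (Ne.symm hcon.2.2), add_zero, add_zero])
  · rw [Finset.sum_pair hg3, h1, h1, h1]
    rw [if_neg hg, if_neg hg2, if_pos rfl, if_pos rfl, if_pos rfl, if_neg (Ne.symm hg),
      if_neg (Ne.symm hg2), if_neg hg3, if_neg (Ne.symm hg3)]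
    simpa using hc

section main

variable {α β : ℂ}

lemma fac_diff (α : ℂ) (hα : α - α⁻¹ ≠ 0) : sg 0 0 α - sg 0 0 α⁻¹ ∈ Submonoid.closure DomE := by
  have : sg 0 0 α - sg 0 0 α⁻¹ = sg 0 0 (α - α⁻¹) := by
    simp only [sg]
    rw [AddMonoidAlgebra.single_sub]
  rw [this]
  exact Submonoid.subset_closure (dom_one _ _ _ hα)

theorem det_dom (α β : ℂ) (hα : α ≠ 0) (hβ : β ≠ 0) (hα1 : α - α⁻¹ ≠ 0) (hβ1 : β - β⁻¹ ≠ 0)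
    (h1 : 1 < ‖(α + α⁻¹) * (β + β⁻¹)‖) (h2 : 2 < ‖(α + α⁻¹) * (β + β⁻¹) + 2‖)
    (h3 : ‖α + α⁻¹‖ < ‖β + β⁻¹‖) (i : Fin 5) :
    Matrix.det (Mat α β (pat i)) ∈ Submonoid.closure DomE := by
  have eP : (sg 0 0 α + sg 0 0 α⁻¹ : GA) = sg 0 0 (α + α⁻¹) := by
    simp only [sg]; rw [AddMonoidAlgebra.single_add]
  have eR : (sg 0 0 β + sg 0 0 β⁻¹ : GA) = sg 0 0 (β + β⁻¹) := by
    simp only [sg]; rw [AddMonoidAlgebra.single_add]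
  have e1 : (1 : GA) = sg 0 0 1 := rfl
  have e2 : (2 : GA) = sg 0 0 2 := by
    rw [← one_add_one_eq_two, e1]
    simp only [sg]
    rw [← AddMonoidAlgebra.single_add]
    norm_num
  have hneg : ∀ (i j : ℤ) (c : ℂ), -sg i j c = sg i j (-c) := by
    intro i j c
    simp only [sg]; rw [AddMonoidAlgebra.single_neg]
  have hsub : ∀ (i j : ℤ) (c : ℂ) (x : GA), x - sg i j c = x + sg i j (-c) := by
    intro i j c x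
    rw [← hneg, sub_eq_add_neg]
  have hpow : ∀ (i j : ℤ) (c : ℂ) (n : ℕ), sg i j c ^ n = sg (n * i) (n * j) (c ^ n) := by
    intro i j c n
    simp [sg, AddMonoidAlgebra.single_pow]
  have hA : sg 0 0 α * sg 0 0 α⁻¹ = 1 := by rw [sg_mul, mul_inv_cancel₀ hα]; rfl
  have hB : sg 0 0 β * sg 0 0 β⁻¹ = 1 := by rw [sg_mul, mul_inv_cancel₀ hβ]; rfl
  have hZ : sg 0 1 1 * sg 0 (-1) 1 = 1 := by rw [sg_mul, mul_one]; rfl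
  have hab : (sg 0 0 α - sg 0 0 α⁻¹) * (sg 0 0 β - sg 0 0 β⁻¹) ∈ Submonoid.closure DomE :=
    Submonoid.mul_mem _ (fac_diff α hα1) (fac_diff β hβ1)
  have hP0 : α + α⁻¹ ≠ 0 := by
    intro h; rw [h] at h1; simp at h1; linarith
  have hR0 : β + β⁻¹ ≠ 0 := by
    intro h; rw [h] at h1; simp at h1; linarith
  fin_cases i
  · show Matrix.det (Mat α β (pat 0)) ∈ _
    rw [Mat_pat0]
    have h4 : (!![sg 0 0 1, sg 0 0 1, sg 0 1 (-β⁻¹), sg 0 1 (-β);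
      sg 0 0 α, sg 0 0 α⁻¹, sg 0 0 1, sg 0 0 1;
      0, 0, sg 0 0 (-β), sg 0 0 (-β⁻¹);
      sg (-1) 1 α⁻¹, sg (-1) 1 α, 0, 0] : Matrix (Fin 4) (Fin 4) GA) =
      !![1, 1, (-(sg 0 0 β⁻¹)*(sg 0 1 1)), (-(sg 0 0 β)*(sg 0 1 1));
      (sg 0 0 α), (sg 0 0 α⁻¹), 1, 1;
      0, 0, (-(sg 0 0 β)), (-(sg 0 0 β⁻¹));
      (sg 0 0 α⁻¹)*(sg (-1) 0 1)*(sg 0 1 1), (sg 0 0 α)*(sg (-1) 0 1)*(sg 0 1 1), 0, 0] := by
      simp only [hneg, sg_mul, e1]; norm_num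
    rw [h4, det0 (sg 0 0 α) (sg 0 0 α⁻¹) (sg 0 0 β) (sg 0 0 β⁻¹) (sg 1 0 1) (sg (-1) 0 1) (sg 0 1 1)
      (sg 0 (-1) 1) hA hB hZ]
    refine Submonoid.mul_mem _ (Submonoid.mul_mem _ hab ?_) ?_
    · rw [sg_mul]
      exact Submonoid.subset_closure (dom_one _ _ _ (by norm_num))
    · rw [eP, eR, sg_mul, sg_mul, e1, add_comm]
      refine Submonoid.subset_closure (dom_two _ _ (by decide) _ _ ?_)
      simpa using h1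
  · show Matrix.det (Mat α β (pat 1)) ∈ _
    rw [Mat_pat1]
    have h4 : (!![sg 0 0 1, sg 0 0 1, 0, 0;
      sg 0 0 α, sg 0 0 α⁻¹, sg 0 0 1, sg 0 0 1;
      sg 0 (-1) (α ^ 2), sg 0 (-1) (α⁻¹ ^ 2), sg 0 0 (-β), sg 0 0 (-β⁻¹);
      0, 0, sg 0 (-1) (β ^ 2), sg 0 (-1) (β⁻¹ ^ 2)] : Matrix (Fin 4) (Fin 4) GA) =
      !![1, 1, 0, 0;
      (sg 0 0 α), (sg 0 0 α⁻¹), 1, 1;
      (sg 0 0 α)^2*(sg 0 (-1) 1), (sg 0 0 α⁻¹)^2*(sg 0 (-1) 1), (-(sg 0 0 β)), (-(sg 0 0 β⁻¹));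
      0, 0, (sg 0 0 β)^2*(sg 0 (-1) 1), (sg 0 0 β⁻¹)^2*(sg 0 (-1) 1)] := by
      simp only [hneg, sg_mul, hpow, e1]; norm_num
    rw [h4, det1 (sg 0 0 α) (sg 0 0 α⁻¹) (sg 0 0 β) (sg 0 0 β⁻¹) (sg 1 0 1) (sg (-1) 0 1) (sg 0 1 1)
      (sg 0 (-1) 1) hA hB hZ]
    refine Submonoid.mul_mem _ (Submonoid.mul_mem _ hab ?_) ?_
    · rw [hpow, hneg]
      exact Submonoid.subset_closure (dom_one _ _ _ (by norm_num))
    · rw [eP, eR, sg_mul]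
      refine Submonoid.subset_closure (dom_two _ _ (by decide) _ _ ?_)
      simpa using h1
  · show Matrix.det (Mat α β (pat 2)) ∈ _
    rw [Mat_pat2]
    have h4 : (!![sg 0 0 1 + sg 0 1 1, sg 0 0 1 + sg 0 1 1, sg 0 1 (-β⁻¹), sg 0 1 (-β);
      sg 0 0 α, sg 0 0 α⁻¹, sg 0 0 1 + sg 0 1 1, sg 0 0 1 + sg 0 1 1;
      0, 0, sg 0 0 (-β), sg 0 0 (-β⁻¹);
      sg (-1) 1 α⁻¹, sg (-1) 1 α, 0, 0] : Matrix (Fin 4) (Fin 4) GA) =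
      !![1 + (sg 0 1 1), 1 + (sg 0 1 1), (-(sg 0 0 β⁻¹)*(sg 0 1 1)), (-(sg 0 0 β)*(sg 0 1 1));
      (sg 0 0 α), (sg 0 0 α⁻¹), 1 + (sg 0 1 1), 1 + (sg 0 1 1);
      0, 0, (-(sg 0 0 β)), (-(sg 0 0 β⁻¹));
      (sg 0 0 α⁻¹)*(sg (-1) 0 1)*(sg 0 1 1), (sg 0 0 α)*(sg (-1) 0 1)*(sg 0 1 1), 0, 0] := by
      simp only [hneg, sg_mul, hpow, e1]; norm_num
    rw [h4, det2 (sg 0 0 α) (sg 0 0 α⁻¹) (sg 0 0 β) (sg 0 0 β⁻¹) (sg 1 0 1) (sg (-1) 0 1) (sg 0 1 1)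
      (sg 0 (-1) 1) hA hB hZ]
    refine Submonoid.mul_mem _ (Submonoid.mul_mem _ hab ?_) ?_
    · rw [sg_mul]
      exact Submonoid.subset_closure (dom_one _ _ _ (by norm_num))
    · rw [eP, eR, e2, sg_mul, hpow]
      have h5 : (sg (0 + 0) (0 + 0) ((α + α⁻¹) * (β + β⁻¹)) + sg 0 0 2 : GA) =
          sg 0 0 ((α + α⁻¹) * (β + β⁻¹) + 2) := by
        simp only [sg, add_zero]; rw [AddMonoidAlgebra.single_add]
      rw [h5, sg_mul, e1, add_comm (sg 0 0 1)]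
      refine Submonoid.subset_closure (dom_three _ _ _ (by decide) (by decide) (by decide) _ _ _ ?_)
      rw [one_pow, norm_one, mul_one]
      linarith
  · show Matrix.det (Mat α β (pat 3)) ∈ _
    rw [Mat_pat3]
    have h4 : (!![sg 0 0 1, sg 0 0 1, sg 0 1 (-β⁻¹), sg 0 1 (-β);
      sg 0 0 α, sg 0 0 α⁻¹, sg 0 0 1, sg 0 0 1;
      sg 0 (-1) (α ^ 2), sg 0 (-1) (α⁻¹ ^ 2), sg 0 0 (-β), sg 0 0 (-β⁻¹);
      sg (-1) 1 α⁻¹, sg (-1) 1 α, sg 0 (-1) (β ^ 2), sg 0 (-1) (β⁻¹ ^ 2)] : Matrix (Fin 4) (Fin 4) GA) =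
      !![1, 1, (-(sg 0 0 β⁻¹)*(sg 0 1 1)), (-(sg 0 0 β)*(sg 0 1 1));
      (sg 0 0 α), (sg 0 0 α⁻¹), 1, 1;
      (sg 0 0 α)^2*(sg 0 (-1) 1), (sg 0 0 α⁻¹)^2*(sg 0 (-1) 1), (-(sg 0 0 β)), (-(sg 0 0 β⁻¹));
      (sg 0 0 α⁻¹)*(sg (-1) 0 1)*(sg 0 1 1), (sg 0 0 α)*(sg (-1) 0 1)*(sg 0 1 1), (sg 0 0 β)^2*(sg 0 (-1) 1), (sg 0 0 β⁻¹)^2*(sg 0 (-1) 1)] := by
      simp only [hneg, sg_mul, hpow, e1]; norm_num
    rw [h4, det3 (sg 0 0 α) (sg 0 0 α⁻¹) (sg 0 0 β) (sg 0 0 β⁻¹) (sg 1 0 1) (sg (-1) 0 1) (sg 0 1 1)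
      (sg 0 (-1) 1) hA hB hZ]
    refine Submonoid.mul_mem _ (Submonoid.mul_mem _ hab ?_) ?_
    · rw [eP, eR, sg_mul, add_comm]
      refine Submonoid.subset_closure (dom_two _ _ (by decide) _ _ ?_)
      simpa using h3
    · rw [eP, eR, hpow, sg_mul, sg_mul, sg_mul, hsub, add_comm]
      refine Submonoid.subset_closure (dom_two _ _ (by decide) _ _ ?_)
      rw [norm_neg]
      simpa using h3
  · show Matrix.det (Mat α β (pat 4)) ∈ _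
    rw [Mat_pat4]
    have h4 : (!![sg 0 0 1, sg 0 0 1, sg 1 (-1) (-(β ^ 3)), sg 1 (-1) (-(β⁻¹ ^ 3));
      sg 0 0 α, sg 0 0 α⁻¹, sg 0 0 1, sg 0 0 1;
      sg 0 (-1) (α ^ 2), sg 0 (-1) (α⁻¹ ^ 2), sg 0 0 (-β), sg 0 0 (-β⁻¹);
      sg 0 (-1) (α ^ 3), sg 0 (-1) (α⁻¹ ^ 3), sg 0 (-1) (β ^ 2), sg 0 (-1) (β⁻¹ ^ 2)] : Matrix (Fin 4) (Fin 4) GA) =
      !![1, 1, (-(sg 0 0 β)^3*(sg 1 0 1)*(sg 0 (-1) 1)), (-(sg 0 0 β⁻¹)^3*(sg 1 0 1)*(sg 0 (-1) 1));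
      (sg 0 0 α), (sg 0 0 α⁻¹), 1, 1;
      (sg 0 0 α)^2*(sg 0 (-1) 1), (sg 0 0 α⁻¹)^2*(sg 0 (-1) 1), (-(sg 0 0 β)), (-(sg 0 0 β⁻¹));
      (sg 0 0 α)^3*(sg 0 (-1) 1), (sg 0 0 α⁻¹)^3*(sg 0 (-1) 1), (sg 0 0 β)^2*(sg 0 (-1) 1), (sg 0 0 β⁻¹)^2*(sg 0 (-1) 1)] := by
      simp only [hneg, sg_mul, hpow, e1]; norm_num
    rw [h4, det4 (sg 0 0 α) (sg 0 0 α⁻¹) (sg 0 0 β) (sg 0 0 β⁻¹) (sg 1 0 1) (sg (-1) 0 1) (sg 0 1 1)
      (sg 0 (-1) 1) hA hB hZ]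
    refine Submonoid.mul_mem _ (Submonoid.mul_mem _ hab ?_) ?_
    · rw [eP, eR, sg_mul]
      refine Submonoid.subset_closure (dom_two _ _ (by decide) _ _ ?_)
      simpa using h3
    · rw [eP, eR, hpow, hpow, sg_mul, sg_mul, sg_mul, hsub]
      refine Submonoid.subset_closure (dom_two _ _ (by decide) _ _ ?_)
      rw [norm_neg]
      simpa using h3

end main

end Pool.Agent.MP7c5cdb
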