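import Mathlib
import Pool.Agent.MP_7c5cdb.Defs
import Pool.Agent.MP_7c5cdb.HexGeom
import Pool.Agent.MP_7c5cdb.HexDet
import Pool.Agent.MP_7c5cdb.HexAsm

/-!
# Discs: the Gabor system of the indicator of a planar disc
-/

set_option autoImplicit false
open MeasureTheory

namespace Pool.Agent.MP7c5cdb

lemma ee_intCast_mul (n : ℤ) (s : ℝ) : ee ((n : ℝ) * s) = ee s ^ n := by
  unfold ee
  rw [← Complex.exp_int_mul]
  congr 1
  push_cast
  ring

lemma ee_half : ee (1 / 2) = -1 := by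
  unfold ee
  have : 2 * (Real.pi : ℂ) * Complex.I * ((1 / 2 : ℝ) : ℂ) = Real.pi * Complex.I := by
    push_cast
    ring
  rw [this, Complex.exp_pi_mul_I]

lemma chi_eq (s t : ℝ) (k : Fin 4) (p : ℤ × ℤ) :
    (hexD s t).chi k (pv p) = chi (ee s) (ee t) k p := by
  have h0 : (pv p 0 : ℤ) = p.1 := rfl
  have h1 : (pv p 1 : ℤ) = p.2 := rfl
  have hinv : ∀ r : ℝ, (ee r)⁻¹ = ee (-r) := by
    intro r
    have h := ee_add r (-r)
    rw [add_neg_cancel, ee_zero] at h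
    exact inv_eq_of_mul_eq_one_right h.symm
  unfold PerData.chi
  rw [Fin.sum_univ_two, h0, h1]
  fin_cases k
  · show ee (s * (p.1 : ℝ) + (-s) * (p.2 : ℝ)) = (ee s) ^ (p.1 - p.2)
    rw [← ee_intCast_mul]
    congr 1; push_cast; ring
  · show ee ((-s) * (p.1 : ℝ) + s * (p.2 : ℝ)) = (ee s)⁻¹ ^ (p.1 - p.2)
    rw [hinv, ← ee_intCast_mul]
    congr 1; push_cast; ring
  · show ee ((1 / 2 + t) * (p.1 : ℝ) + (1 / 2 - t) * (p.2 : ℝ)) =
      (-1) ^ (p.1 + p.2) * (ee t) ^ (p.1 - p.2)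
    rw [← ee_half, ← ee_intCast_mul, ← ee_intCast_mul, ← ee_add]
    congr 1; push_cast; ring
  · show ee ((1 / 2 - t) * (p.1 : ℝ) + (1 / 2 + t) * (p.2 : ℝ)) =
      (-1) ^ (p.1 + p.2) * (ee t)⁻¹ ^ (p.1 - p.2)
    rw [hinv, ← ee_half, ← ee_intCast_mul, ← ee_intCast_mul, ← ee_add]
    congr 1; push_cast; ring

lemma hexe_eq (s t : ℝ) (k : Fin 4) (p : ℤ × ℤ) :
    (hexD s t).e ((hexD s t).m k + pv p) = (hgt (ctr k + p), cls (ctr k + p)) := by
  fin_cases k
  · show hexe ((0 : Fin 2 → ℤ) + pv p) = (hgt ((0, 0) + p), cls ((0, 0) + p))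
    rw [zero_add, Prod.mk_zero_zero, zero_add]
    rfl
  · show hexe ((0 : Fin 2 → ℤ) + pv p) = (hgt ((0, 0) + p), cls ((0, 0) + p))
    rw [zero_add, Prod.mk_zero_zero, zero_add]
    rfl
  · rfl
  · rfl

lemma Mat_eq (s t : ℝ) (T : Finset (ℤ × ℤ)) :
    (hexD s t).Mat (T.map pv.toEmbedding) = Mat (ee s) (ee t) T := by
  funext e k
  unfold PerData.Mat Mat
  rw [Finset.sum_map]
  refine Finset.sum_congr rfl (fun p _ => ?_)
  have h1 : (hexD s t).e ((hexD s t).m k + pv.toEmbedding p) =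
      (hgt (ctr k + p), cls (ctr k + p)) := hexe_eq s t k p
  have h2 : (hexD s t).chi k (pv.toEmbedding p) = chi (ee s) (ee t) k p := chi_eq s t k p
  rw [h1, h2]

lemma domE_sub : Submonoid.closure DomE ≤ Submonoid.closure (Dom (G := ℤ × ℤ)) :=
  Submonoid.closure_mono (fun _ hf => DomAt.of_coeff hf)

lemma ee_sixth : ee (1 / 6) + (ee (1 / 6))⁻¹ = 1 := by
  have h : 2 * (Real.pi : ℂ) * Complex.I * ((1 / 6 : ℝ) : ℂ) = ((Real.pi / 3 : ℝ) : ℂ) * Complex.I := by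
    push_cast
    ring
  unfold ee
  rw [h, ← Complex.exp_neg]
  have h2 := Complex.two_cos (((Real.pi / 3 : ℝ) : ℂ))
  rw [← neg_mul, ← h2, ← Complex.ofReal_cos, Real.cos_pi_div_three]
  norm_num

lemma ee_eighth : ee (1 / 8) + (ee (1 / 8))⁻¹ = (Real.sqrt 2 : ℝ) := by
  have h : 2 * (Real.pi : ℂ) * Complex.I * ((1 / 8 : ℝ) : ℂ) = ((Real.pi / 4 : ℝ) : ℂ) * Complex.I := by
    push_cast
    ring
  unfold ee
  rw [h, ← Complex.exp_neg]
  have h2 := Complex.two_cos (((Real.pi / 4 : ℝ) : ℂ))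
  rw [← neg_mul, ← h2, ← Complex.ofReal_cos, Real.cos_pi_div_four]
  push_cast
  ring

/-- For every disc in the plane there is a set of time-frequency shifts for which the Gabor system
of its indicator is a Riesz basis. -/
theorem disc_isGRB (z : Fin 2 → ℝ) (r : ℝ) (hr : 0 < r) :
    ∃ S, IsGRB {y : Fin 2 → ℝ | ∑ i, (y i - z i) ^ 2 < r ^ 2} S := by
  refine exists_isGRB_ball (disc_of_hex (hex_isGRB (1 / 6) (1 / 8) ?_ ?_ pat ?_ ?_)) z r hr
  · intro n hn
    have h1 : (3 * n : ℝ) = 1 := by linarith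
    have h2 : (3 * n : ℤ) = 1 := by exact_mod_cast h1
    omega
  · intro n hn
    have h1 : (4 * n : ℝ) = 1 := by linarith
    have h2 : (4 * n : ℤ) = 1 := by exact_mod_cast h1
    omega
  · intro a b ha hb hab
    obtain ⟨g, i, h⟩ := Tset_pat a b ha hb hab
    refine ⟨g, i, fun t => ?_⟩
    have h1 : t ∈ Tset a b ↔ t - g ∈ pat i := by rw [h]; rfl
    exact h1
  · intro i
    rw [Mat_eq]
    refine domE_sub (det_dom _ _ (ee_ne_zero _) (ee_ne_zero _) ?_ ?_ ?_ ?_ ?_ i)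
    · intro h
      have h1 := ee_sixth
      rw [sub_eq_zero] at h
      have h2 : ee (1 / 6) * (ee (1 / 6))⁻¹ = 1 := mul_inv_cancel₀ (ee_ne_zero _)
      rw [← h] at h1 h2
      have h3 : (4 : ℂ) * (ee (1 / 6) * ee (1 / 6)) = 1 := by
        linear_combination (ee (1 / 6) + ee (1 / 6) + 1) * h1
      rw [h2] at h3
      norm_num at h3
    · intro h
      have h1 := ee_eighth
      rw [sub_eq_zero] at h
      have h2 : ee (1 / 8) * (ee (1 / 8))⁻¹ = 1 := mul_inv_cancel₀ (ee_ne_zero _)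
      have h4 : ((Real.sqrt 2 : ℝ) : ℂ) * ((Real.sqrt 2 : ℝ) : ℂ) = 2 := by
        rw [← Complex.ofReal_mul, Real.mul_self_sqrt (by norm_num)]
        norm_num
      rw [← h] at h1 h2
      have h3 : (4 : ℂ) * (ee (1 / 8) * ee (1 / 8)) = 2 := by
        linear_combination (ee (1 / 8) + ee (1 / 8) + (Real.sqrt 2 : ℝ)) * h1 + h4
      rw [h2] at h3
      norm_num at h3
    · rw [ee_sixth, ee_eighth, one_mul, Complex.norm_real, Real.norm_eq_abs,
        abs_of_nonneg (Real.sqrt_nonneg _)]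
      rw [Real.lt_sqrt (by norm_num)]
      norm_num
    · rw [ee_sixth, ee_eighth, one_mul]
      rw [show ((Real.sqrt 2 : ℝ) : ℂ) + 2 = ((Real.sqrt 2 + 2 : ℝ) : ℂ) by push_cast; ring,
        Complex.norm_real, Real.norm_eq_abs, abs_of_nonneg (by positivity)]
      have : 0 < Real.sqrt 2 := by positivity
      linarith
    · rw [ee_sixth, ee_eighth, norm_one, Complex.norm_real, Real.norm_eq_abs,
        abs_of_nonneg (Real.sqrt_nonneg _)]
      rw [Real.lt_sqrt (by norm_num)]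
      norm_num

end Pool.Agent.MP7c5cdb
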