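import Pool.Agent.MP_7c5cdb.DomLim

set_option autoImplicit false
set_option maxHeartbeats 400000
open MeasureTheory Set Filter Topology
open scoped ENNReal ComplexConjugate

namespace Pool.Agent.MP7c5cdb

/-- A matrix with too many columns supported on few rows is singular. -/
lemma det_eq_zero_of_support {K R : Type*} [Fintype K] [DecidableEq K] [CommRing R]
    (A : Matrix K K R) (C S : Finset K) (hcard : S.card < C.card)
    (h : ∀ k ∈ C, ∀ ρ, ρ ∉ S → A ρ k = 0) : A.det = 0 := by
  classical
  rw [Matrix.det_apply']
  refine Finset.sum_eq_zero (fun σ _ => ?_)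
  obtain ⟨k, hk, hk2⟩ : ∃ k ∈ C, σ k ∉ S := by
    by_contra hcon
    push Not at hcon
    have h1 : C.card ≤ S.card := by
      rw [← Finset.card_image_of_injective C σ.injective]
      refine Finset.card_le_card ?_
      intro t ht
      obtain ⟨k, hk, rfl⟩ := Finset.mem_image.1 ht
      exact hcon k hk
    omega
  have h1 : ∏ i, A (σ i) i = 0 :=
    Finset.prod_eq_zero (f := fun i => A (σ i) i) (Finset.mem_univ k) (h k hk (σ k) hk2)
  rw [h1, mul_zero]

section Hierarchy

variable {G : Type} [AddCommGroup G] {Pat K : Type}

/-- The matrix in which the special losers with number less than `p` are replaced by their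
derivative columns. -/
noncomputable def bmat (sp : K → Prop) (ord : K → ℕ)
    (A : Pat → (K → ℝ) → Matrix K K (AddMonoidAlgebra ℂ G)) (lose : Pat → K → Prop)
    (D : Pat → K → K → AddMonoidAlgebra ℂ G) (x : Pat) (p : ℕ) (ε : K → ℝ) :
    Matrix K K (AddMonoidAlgebra ℂ G) := by
  classical
  exact fun ρ k => if sp k ∧ ord k < p ∧ lose x k then D x k ρ else A x ε ρ k

variable {sp : K → Prop} {ord : K → ℕ}
    {A : Pat → (K → ℝ) → Matrix K K (AddMonoidAlgebra ℂ G)} {lose : Pat → K → Prop}
    {D : Pat → K → K → AddMonoidAlgebra ℂ G}

omit [AddCommGroup G] in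
lemma bmat_pos {x : Pat} {p : ℕ} {ε : K → ℝ} {ρ k : K} (h : sp k ∧ ord k < p ∧ lose x k) :
    bmat sp ord A lose D x p ε ρ k = D x k ρ := by
  unfold bmat
  exact if_pos h

omit [AddCommGroup G] in
lemma bmat_neg {x : Pat} {p : ℕ} {ε : K → ℝ} {ρ k : K} (h : ¬ (sp k ∧ ord k < p ∧ lose x k)) :
    bmat sp ord A lose D x p ε ρ k = A x ε ρ k := by
  unfold bmat
  exact if_neg h

/-- **The hierarchy of the small parameters** (row D1). -/
theorem hierarchy [Finite Pat] [Fintype K] [DecidableEq K]
    (hord : ∀ k k', sp k → sp k' → ord k = ord k' → k = k') {N : ℕ}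
    (hN : ∀ k, sp k → ord k < N)
    (T1 : Pat → K → K → AddMonoidAlgebra ℂ G) (T0 : Pat → K → ℝ → K → AddMonoidAlgebra ℂ G)
    (H1 : ∀ x ε p, sp p → ∀ ρ k, CT (𝓝[≠] (0 : ℝ)) (fun s => A x (Function.update ε p s) ρ k)
      (A x (Function.update ε p 0) ρ k))
    (H2 : ∀ x p, sp p → lose x p → ∀ (ε : K → ℝ) (ρ : K),
      A x ε ρ p = T1 x p ρ + T0 x p (ε p) ρ)
    (H2' : ∀ x p, sp p → lose x p → ∀ ρ,
      CT (𝓝[≠] (0 : ℝ)) (fun s => ((s : ℂ))⁻¹ • T0 x p s ρ) (D x p ρ))
    (H3 : ∀ x p, sp p → lose x p → ∀ ε : K → ℝ, (∀ k, sp k → ord k < ord p → ε k = 0) →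
      ((bmat sp ord A lose D x (ord p) ε).updateCol p (T1 x p)).det = 0)
    (H4 : ∀ x, DomAt (bmat sp ord A lose D x N 0).det) :
    ∃ ε : K → ℝ, (∀ k, sp k → ε k ≠ 0) ∧ (∀ k, ¬ sp k → ε k = 0) ∧
      ∀ x, DomAt (A x ε).det := by
  classical
  have main : ∀ j : ℕ, j ≤ N → ∃ ε : K → ℝ, (∀ k, sp k → ord k < N - j → ε k = 0) ∧
      (∀ k, sp k → N - j ≤ ord k → ε k ≠ 0) ∧ (∀ k, ¬ sp k → ε k = 0) ∧
      ∀ x, DomAt (bmat sp ord A lose D x (N - j) ε).det := by
    intro j
    induction j with
    | zero =>
      intro _
      refine ⟨0, fun _ _ _ => rfl, fun k hk h => ?_, fun _ _ => rfl, fun x => ?_⟩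
      · exact absurd (hN k hk) (by omega)
      · exact H4 x
    | succ j ih =>
      intro hj
      obtain ⟨ε, e1, e2, e3, e4⟩ := ih (by omega)
      set p := N - (j + 1) with hp
      have hp1 : N - j = p + 1 := by omega
      rw [hp1] at e1 e2 e4
      by_cases hex : ∃ k0, sp k0 ∧ ord k0 = p
      · obtain ⟨k0, hs0, ho0⟩ := hex
        have hε0 : ε k0 = 0 := e1 k0 hs0 (by omega)
        have hupd : Function.update ε k0 0 = ε := by
          rw [← hε0]
          exact Function.update_eq_self k0 ε
        have hev : ∀ x, ∀ᶠ s in 𝓝[≠] (0 : ℝ),
            DomAt (bmat sp ord A lose D x p (Function.update ε k0 s)).det := by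
          intro x
          by_cases hl : lose x k0
          · -- a loser
            have hct : CT (𝓝[≠] (0 : ℝ)) (fun s =>
                ((bmat sp ord A lose D x p (Function.update ε k0 s)).updateCol k0
                  (fun ρ => ((s : ℂ))⁻¹ • T0 x k0 s ρ)).det)
                (bmat sp ord A lose D x (p + 1) ε).det := by
              refine CT.det (fun ρ k => ?_)
              by_cases hk : k = k0
              · subst hk
                simp only [Matrix.updateCol_self]
                rw [bmat_pos ⟨hs0, by omega, hl⟩]
                exact H2' x k hs0 hl ρ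
              · simp only [Matrix.updateCol_ne hk]
                by_cases hb : sp k ∧ ord k < p ∧ lose x k
                · rw [bmat_pos ⟨hb.1, by omega, hb.2.2⟩]
                  simp only [bmat_pos hb]
                  exact CT.const _
                · have hb' : ¬ (sp k ∧ ord k < p + 1 ∧ lose x k) := by
                    rintro ⟨h1, h2, h3⟩
                    rcases Nat.lt_or_ge (ord k) p with h4 | h4
                    · exact hb ⟨h1, h4, h3⟩
                    · exact hk (hord k k0 h1 hs0 (by omega))
                  rw [bmat_neg hb']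
                  simp only [bmat_neg hb]
                  have := H1 x ε k0 hs0 ρ k
                  rwa [hupd] at this
            have h1 := hct.dom (e4 x)
            filter_upwards [h1, self_mem_nhdsWithin] with s hs hs2
            have hs0' : (s : ℂ) ≠ 0 := by
              have : s ≠ 0 := hs2
              exact_mod_cast this
            have h5 : (bmat sp ord A lose D x p (Function.update ε k0 s)).det =
                (s : ℂ) • ((bmat sp ord A lose D x p (Function.update ε k0 s)).updateCol k0
                  (fun ρ => ((s : ℂ))⁻¹ • T0 x k0 s ρ)).det := by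
              have h6 : bmat sp ord A lose D x p (Function.update ε k0 s) =
                  (bmat sp ord A lose D x p (Function.update ε k0 s)).updateCol k0
                    (T1 x k0 + fun ρ => T0 x k0 s ρ) := by
                ext1 ρ k
                rw [Matrix.updateCol_apply]
                split_ifs with hk
                · subst hk
                  rw [bmat_neg (by rintro ⟨_, h, _⟩; omega), H2 x k hs0 hl,
                    Function.update_self]
                  rfl
                · rfl
              conv_lhs => rw [h6]
              rw [Matrix.det_updateCol_add]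
              have h7 := H3 x k0 hs0 hl (Function.update ε k0 s) (fun k hk hko => by
                rw [Function.update_of_ne]
                · exact e1 k hk (by omega)
                · intro h8
                  rw [h8] at hko
                  exact lt_irrefl _ hko)
              rw [ho0] at h7
              rw [h7, zero_add]
              have h9 : (fun ρ => T0 x k0 s ρ) =
                  (AddMonoidAlgebra.single (0 : G) (s : ℂ)) •
                    (fun ρ => ((s : ℂ))⁻¹ • T0 x k0 s ρ) := by
                funext ρ
                rw [Pi.smul_apply, smul_eq_mul]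
                apply AddMonoidAlgebra.coeff_injective
                ext g
                rw [AddMonoidAlgebra.coeff_single_mul_apply, AddMonoidAlgebra.coeff_smul_apply,
                  neg_zero, zero_add, smul_eq_mul, ← mul_assoc, mul_inv_cancel₀ hs0', one_mul]
              rw [h9, Matrix.det_updateCol_smul]
              apply AddMonoidAlgebra.coeff_injective
              ext g
              rw [AddMonoidAlgebra.coeff_single_mul_apply, AddMonoidAlgebra.coeff_smul_apply,
                  neg_zero, zero_add, smul_eq_mul]
            rw [h5]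
            exact hs.smul hs0'
          · -- a winner
            have hct : CT (𝓝[≠] (0 : ℝ)) (fun s =>
                (bmat sp ord A lose D x p (Function.update ε k0 s)).det)
                (bmat sp ord A lose D x (p + 1) ε).det := by
              refine CT.det (fun ρ k => ?_)
              by_cases hb : sp k ∧ ord k < p ∧ lose x k
              · rw [bmat_pos ⟨hb.1, by omega, hb.2.2⟩]
                simp only [bmat_pos hb]
                exact CT.const _
              · have hb' : ¬ (sp k ∧ ord k < p + 1 ∧ lose x k) := by
                  rintro ⟨h1, h2, h3⟩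
                  rcases Nat.lt_or_ge (ord k) p with h4 | h4
                  · exact hb ⟨h1, h4, h3⟩
                  · have h5 := hord k k0 h1 hs0 (by omega)
                    rw [h5] at h3
                    exact hl h3
                rw [bmat_neg hb']
                simp only [bmat_neg hb]
                have := H1 x ε k0 hs0 ρ k
                rwa [hupd] at this
            exact hct.dom (e4 x)
        obtain ⟨s, hs1, hs2⟩ := ((eventually_all.2 hev).and self_mem_nhdsWithin).exists
        have hs0' : s ≠ 0 := hs2
        refine ⟨Function.update ε k0 s, fun k hk h => ?_, fun k hk h => ?_, fun k hk => ?_, hs1⟩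
        · have hne : k ≠ k0 := by
            intro h8
            rw [h8, ho0] at h
            exact lt_irrefl _ h
          rw [Function.update_of_ne hne]
          exact e1 k hk (by omega)
        · by_cases hne : k = k0
          · rw [hne, Function.update_self]
            exact hs0'
          · rw [Function.update_of_ne hne]
            refine e2 k hk ?_
            rcases Nat.lt_or_ge p (ord k) with h4 | h4
            · omega
            · exact absurd (hord k k0 hk hs0 (by omega)) hne
        · have hne : k ≠ k0 := by
            intro h8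
            exact hk (by rw [h8]; exact hs0)
          rw [Function.update_of_ne hne]
          exact e3 k hk
      · refine ⟨ε, fun k hk h => e1 k hk (by omega), fun k hk h => ?_, e3, fun x => ?_⟩
        · refine e2 k hk ?_
          rcases Nat.lt_or_ge p (ord k) with h4 | h4
          · omega
          · exact absurd ⟨k, hk, by omega⟩ hex
        · have h5 : bmat sp ord A lose D x p ε = bmat sp ord A lose D x (p + 1) ε := by
            ext1 ρ k
            by_cases hb : sp k ∧ ord k < p ∧ lose x k
            · rw [bmat_pos hb, bmat_pos ⟨hb.1, by omega, hb.2.2⟩]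
            · rw [bmat_neg hb, bmat_neg]
              rintro ⟨h1, h2, h3⟩
              rcases Nat.lt_or_ge (ord k) p with h4 | h4
              · exact hb ⟨h1, h4, h3⟩
              · exact hex ⟨k, h1, by omega⟩
          rw [h5]
          exact e4 x
  obtain ⟨ε, _, e2, e3, e4⟩ := main N le_rfl
  rw [Nat.sub_self] at e2 e4
  refine ⟨ε, fun k hk => e2 k hk (Nat.zero_le _), e3, fun x => ?_⟩
  have h1 : bmat sp ord A lose D x 0 ε = A x ε := by
    ext1 ρ k
    rw [bmat_neg]
    rintro ⟨_, h, _⟩
    exact Nat.not_lt_zero _ h
  rw [← h1]
  exact e4 x

end Hierarchy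

/-- **Block triangular base case.** If the diagonal blocks are complex matrices (no `z`) with
nonzero determinants, the determinant is a nonzero constant. -/
lemma domAt_det_of_block {G : Type} [AddCommGroup G] {K β : Type} [Fintype K] [DecidableEq K]
    [LinearOrder β] (M : Matrix K K (AddMonoidAlgebra ℂ G)) (b : K → β)
    (hb : ∀ ρ k, b k < b ρ → M ρ k = 0) (m : Matrix K K ℂ)
    (hM : ∀ ρ k, b ρ = b k → M ρ k = AddMonoidAlgebra.single 0 (m ρ k))
    (hdet : ∀ a, (m.toSquareBlock b a).det ≠ 0) : DomAt M.det := by
  classical
  have h1 : M.BlockTriangular b := fun i j hij => hb i j hij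
  rw [h1.det]
  let f : ℂ →+* AddMonoidAlgebra ℂ G := AddMonoidAlgebra.singleZeroRingHom
  have hf : ∀ z : ℂ, f z = AddMonoidAlgebra.single 0 z := fun _ => rfl
  have h2 : ∀ a, (M.toSquareBlock b a).det = f ((m.toSquareBlock b a).det) := by
    intro a
    rw [RingHom.map_det]
    congr 1
    ext1 i j
    rw [RingHom.mapMatrix_apply, Matrix.map_apply, hf]
    exact hM i.1 j.1 (i.2.trans j.2.symm)
  simp only [h2]
  rw [← map_prod, hf]
  let _ : MeasurableSpace G := ⊤
  have : DiscreteMeasurableSpace G := ⟨fun _ => trivial⟩
  exact domAt_single _ (Finset.prod_ne_zero_iff.2 (fun a _ => hdet a))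

end Pool.Agent.MP7c5cdb
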