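import Pool.Agent.MP_7c5cdb.Change

set_option autoImplicit false
set_option maxHeartbeats 400000
open MeasureTheory Set
open scoped ENNReal ComplexConjugate

namespace Pool.Agent.MP7c5cdb

variable {G : Type} [AddCommGroup G]

/-- Translations acting on functions. -/
def shiftE : Multiplicative G →* Module.End ℂ (G → ℂ) where
  toFun t := LinearMap.funLeft ℂ ℂ (fun p => p - t.toAdd)
  map_one' := by
    ext v p
    simp [LinearMap.funLeft]
  map_mul' s t := by
    apply LinearMap.ext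
    intro v
    funext p
    simp only [LinearMap.funLeft_apply, toAdd_mul, Module.End.mul_apply]
    congr 1
    abel

/-- The action of the group ring on functions. -/
noncomputable def act : AddMonoidAlgebra ℂ G →ₐ[ℂ] Module.End ℂ (G → ℂ) :=
  AddMonoidAlgebra.lift ℂ (Module.End ℂ (G → ℂ)) G shiftE

lemma act_single (t : G) (z : ℂ) (v : G → ℂ) (p : G) :
    act (AddMonoidAlgebra.single t z) v p = z * v (p - t) := by
  unfold act
  rw [AddMonoidAlgebra.lift_single]
  simp [shiftE, LinearMap.funLeft_apply]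

lemma act_single' (t : G) (z : ℂ) (v : G → ℂ) :
    act (AddMonoidAlgebra.single t z) v = z • (fun p => v (p - t)) := by
  funext p
  rw [act_single]
  rfl

lemma act_eq_sum (φ : AddMonoidAlgebra ℂ G) (v : G → ℂ) :
    act φ v = ∑ t ∈ φ.coeff.support, φ.coeff t • (fun p => v (p - t)) := by
  conv_lhs => rw [← AddMonoidAlgebra.sum_coeff_single φ]
  unfold Finsupp.sum
  rw [map_sum, LinearMap.sum_apply]
  exact Finset.sum_congr rfl (fun t _ => act_single' t _ v)

/-- Adjoint in the group ring. -/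
noncomputable def starA : AddMonoidAlgebra ℂ G →+* AddMonoidAlgebra ℂ G :=
  AddMonoidAlgebra.liftNCRingHom
    ((AddMonoidAlgebra.singleZeroRingHom (R := ℂ) (M := G)).comp (starRingEnd ℂ))
    ((AddMonoidAlgebra.of ℂ G).comp
      (AddMonoidHom.toMultiplicative (-(AddMonoidHom.id G))))
    (fun _ _ => Commute.all _ _)

lemma starA_single (t : G) (z : ℂ) :
    starA (AddMonoidAlgebra.single t z) = AddMonoidAlgebra.single (-t) (conj z) := by
  unfold starA
  simp [AddMonoidAlgebra.liftNCRingHom, AddMonoidAlgebra.single_mul_single]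

lemma starA_eq_sum (φ : AddMonoidAlgebra ℂ G) :
    starA φ = ∑ t ∈ φ.coeff.support, AddMonoidAlgebra.single (-t) (conj (φ.coeff t)) := by
  conv_lhs => rw [← AddMonoidAlgebra.sum_coeff_single φ]
  unfold Finsupp.sum
  rw [map_sum]
  exact Finset.sum_congr rfl (fun t _ => starA_single t _)

lemma act_starA_apply (φ : AddMonoidAlgebra ℂ G) (v : G → ℂ) (p : G) :
    act (starA φ) v p = ∑ t ∈ φ.coeff.support, conj (φ.coeff t) * v (p + t) := by
  rw [starA_eq_sum, map_sum, LinearMap.sum_apply, Finset.sum_apply]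
  refine Finset.sum_congr rfl (fun t _ => ?_)
  rw [act_single, sub_neg_eq_add]

section Norm

variable [MeasurableSpace G] [DiscreteMeasurableSpace G]

/-- The `ℓ²` norm of a function, with values in `[0,∞]`. -/
noncomputable def nn (v : G → ℂ) : ℝ≥0∞ := eLpNorm v 2 Measure.count

lemma nn_sq (v : G → ℂ) : nn v ^ 2 = ∑' h, ‖v h‖ₑ ^ 2 := by
  unfold nn
  rw [eLpNorm_two_sq, lintegral_count]

lemma nn_eq_of_sq {v w : G → ℂ} (h : ∑' h, ‖v h‖ₑ ^ 2 = ∑' h, ‖w h‖ₑ ^ 2) : nn v = nn w := by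
  rw [← nn_sq, ← nn_sq] at h
  exact (ENNReal.pow_right_strictMono (n := 2) (by norm_num)).injective h

lemma nn_shift (t : G) (v : G → ℂ) : nn (fun p => v (p - t)) = nn v := by
  refine nn_eq_of_sq ?_
  exact (Equiv.subRight t).tsum_eq (fun p => ‖v p‖ₑ ^ 2)

lemma nn_add (v w : G → ℂ) : nn (v + w) ≤ nn v + nn w :=
  eLpNorm_add_le (Measurable.of_discrete (f := v)).aestronglyMeasurable
    (Measurable.of_discrete (f := w)).aestronglyMeasurable (by norm_num)

lemma nn_sub (v w : G → ℂ) : nn (v - w) ≤ nn v + nn w :=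
  eLpNorm_sub_le (Measurable.of_discrete (f := v)).aestronglyMeasurable
    (Measurable.of_discrete (f := w)).aestronglyMeasurable (by norm_num)

lemma nn_smul (z : ℂ) (v : G → ℂ) : nn (z • v) = ‖z‖ₑ * nn v :=
  eLpNorm_const_smul z v 2 _

lemma nn_zero : nn (0 : G → ℂ) = 0 := by
  unfold nn
  exact eLpNorm_zero

lemma nn_sum {ι : Type*} (s : Finset ι) (f : ι → G → ℂ) :
    nn (∑ i ∈ s, f i) ≤ ∑ i ∈ s, nn (f i) := by
  classical
  induction s using Finset.induction_on with
  | empty => simp [nn_zero]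
  | insert a s ha ih =>
    rw [Finset.sum_insert ha, Finset.sum_insert ha]
    exact (nn_add _ _).trans (add_le_add le_rfl ih)

lemma nn_eq_zero {v : G → ℂ} (h : nn v = 0) : v = 0 := by
  have h1 : ∑' h, ‖v h‖ₑ ^ 2 = 0 := by
    rw [← nn_sq, h]
    simp
  rw [ENNReal.tsum_eq_zero] at h1
  funext p
  simpa using h1 p

lemma nn_act_single (t : G) (z : ℂ) (v : G → ℂ) :
    nn (act (AddMonoidAlgebra.single t z) v) = ‖z‖ₑ * nn v := by
  rw [act_single', nn_smul, nn_shift]

lemma nn_act_le (φ : AddMonoidAlgebra ℂ G) (v : G → ℂ) :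
    nn (act φ v) ≤ (∑ t ∈ φ.coeff.support, ‖φ.coeff t‖ₑ) * nn v := by
  rw [act_eq_sum, Finset.sum_mul]
  refine (nn_sum _ _).trans (Finset.sum_le_sum (fun t _ => ?_))
  rw [nn_smul, nn_shift]

lemma exists_nn_act_le (φ : AddMonoidAlgebra ℂ G) :
    ∃ C : ℝ≥0∞, C ≠ ∞ ∧ ∀ v : G → ℂ, nn (act φ v) ≤ C * nn v :=
  ⟨_, by
    rw [ENNReal.sum_ne_top]
    intro t _
    exact enorm_ne_top, nn_act_le φ⟩

/-- Bounded below on `ℓ²`. -/
def Bd (φ : AddMonoidAlgebra ℂ G) : Prop :=
  ∃ δ : ℝ≥0∞, δ ≠ 0 ∧ ∀ v : G → ℂ, nn v ≠ ∞ → δ * nn v ≤ nn (act φ v)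

lemma Bd.one : Bd (1 : AddMonoidAlgebra ℂ G) := by
  refine ⟨1, one_ne_zero, fun v _ => ?_⟩
  rw [map_one]
  simp

lemma Bd.mul {φ ψ : AddMonoidAlgebra ℂ G} (hφ : Bd φ) (hψ : Bd ψ) : Bd (φ * ψ) := by
  obtain ⟨δ, hδ, h1⟩ := hφ
  obtain ⟨ε, hε, h2⟩ := hψ
  refine ⟨δ * ε, mul_ne_zero hδ hε, fun v hv => ?_⟩
  rw [map_mul, Module.End.mul_apply]
  have h3 : nn (act ψ v) ≠ ∞ := by
    obtain ⟨C, hC, hC2⟩ := exists_nn_act_le ψ
    exact ne_top_of_le_ne_top (ENNReal.mul_ne_top hC hv) (hC2 v)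
  calc δ * ε * nn v = δ * (ε * nn v) := mul_assoc _ _ _
    _ ≤ δ * nn (act ψ v) := by
        gcongr
        exact h2 v hv
    _ ≤ nn (act φ (act ψ v)) := h1 _ h3

/-- An element with a dominating coefficient. -/
def DomAt (φ : AddMonoidAlgebra ℂ G) : Prop :=
  ∃ (g : G) (z : ℂ) (ψ : AddMonoidAlgebra ℂ G),
    φ = AddMonoidAlgebra.single g z + ψ ∧ ∑ t ∈ ψ.coeff.support, ‖ψ.coeff t‖ < ‖z‖

lemma DomAt.bd {φ : AddMonoidAlgebra ℂ G} (h : DomAt φ) : Bd φ := by
  obtain ⟨g, z, ψ, rfl, hlt⟩ := h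
  have hS : (∑ t ∈ ψ.coeff.support, ‖ψ.coeff t‖ₑ) =
      ENNReal.ofReal (∑ t ∈ ψ.coeff.support, ‖ψ.coeff t‖) := by
    rw [ENNReal.ofReal_sum_of_nonneg (fun _ _ => norm_nonneg _)]
    exact Finset.sum_congr rfl (fun t _ => (ofReal_norm _).symm)
  have hS0 : 0 ≤ ∑ t ∈ ψ.coeff.support, ‖ψ.coeff t‖ :=
    Finset.sum_nonneg (fun _ _ => norm_nonneg _)
  refine ⟨ENNReal.ofReal (‖z‖ - ∑ t ∈ ψ.coeff.support, ‖ψ.coeff t‖), ?_, fun v hv => ?_⟩
  · rw [ne_eq, ENNReal.ofReal_eq_zero, not_le]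
    linarith
  · have h1 : nn (act (AddMonoidAlgebra.single g z) v) ≤
        nn (act (AddMonoidAlgebra.single g z + ψ) v) + nn (act ψ v) := by
      have : act (AddMonoidAlgebra.single g z) v =
          act (AddMonoidAlgebra.single g z + ψ) v - act ψ v := by
        rw [map_add, LinearMap.add_apply]
        simp
      rw [this]
      exact nn_sub _ _
    rw [nn_act_single] at h1
    have h2 := nn_act_le ψ v
    rw [hS] at h2
    have h3 : ENNReal.ofReal (‖z‖ - ∑ t ∈ ψ.coeff.support, ‖ψ.coeff t‖) * nn v +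
        ENNReal.ofReal (∑ t ∈ ψ.coeff.support, ‖ψ.coeff t‖) * nn v ≤
        nn (act (AddMonoidAlgebra.single g z + ψ) v) +
        ENNReal.ofReal (∑ t ∈ ψ.coeff.support, ‖ψ.coeff t‖) * nn v := by
      rw [← add_mul, ← ENNReal.ofReal_add (by linarith) hS0, sub_add_cancel, ofReal_norm]
      exact h1.trans (add_le_add le_rfl h2)
    exact (ENNReal.add_le_add_iff_right (ENNReal.mul_ne_top ENNReal.ofReal_ne_top hv)).1 h3

lemma DomAt.starA {φ : AddMonoidAlgebra ℂ G} (h : DomAt φ) : DomAt (starA φ) := by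
  classical
  obtain ⟨g, z, ψ, rfl, hlt⟩ := h
  refine ⟨-g, conj z, Pool.Agent.MP7c5cdb.starA ψ, ?_, ?_⟩
  · rw [map_add, starA_single]
  · rw [RCLike.norm_conj]
    refine lt_of_le_of_lt ?_ hlt
    have hco : ∀ s, (Pool.Agent.MP7c5cdb.starA ψ).coeff s = conj (ψ.coeff (-s)) := by
      intro s
      rw [starA_eq_sum, AddMonoidAlgebra.coeff_sum, Finsupp.finsetSum_apply]
      simp only [AddMonoidAlgebra.coeff_single, Finsupp.single_apply]
      by_cases hs : -s ∈ ψ.coeff.support
      · rw [Finset.sum_eq_single (-s)]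
        · simp
        · intro t _ hts
          rw [if_neg]
          intro h2
          exact hts (by rw [← h2, neg_neg])
        · intro h2
          exact absurd hs h2
      · rw [Finsupp.notMem_support_iff.1 hs, map_zero]
        refine Finset.sum_eq_zero (fun t ht => ?_)
        rw [if_neg]
        intro h2
        apply hs
        rw [← h2, neg_neg]
        exact ht
    have hsupp : (Pool.Agent.MP7c5cdb.starA ψ).coeff.support ⊆
        ψ.coeff.support.image (fun t => -t) := by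
      intro s hs
      rw [Finset.mem_image]
      refine ⟨-s, ?_, neg_neg s⟩
      rw [Finsupp.mem_support_iff] at hs ⊢
      intro h2
      apply hs
      rw [hco, h2, map_zero]
    calc ∑ t ∈ (Pool.Agent.MP7c5cdb.starA ψ).coeff.support,
          ‖(Pool.Agent.MP7c5cdb.starA ψ).coeff t‖
        ≤ ∑ t ∈ ψ.coeff.support.image (fun t => -t),
          ‖(Pool.Agent.MP7c5cdb.starA ψ).coeff t‖ :=
          Finset.sum_le_sum_of_subset_of_nonneg hsupp (fun _ _ _ => norm_nonneg _)
      _ = ∑ t ∈ ψ.coeff.support, ‖ψ.coeff t‖ := by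
          rw [Finset.sum_image (fun a _ b _ hab => neg_injective hab)]
          refine Finset.sum_congr rfl (fun t _ => ?_)
          rw [hco, neg_neg, RCLike.norm_conj]

/-- Both an element and its adjoint are bounded below. -/
def BB (φ : AddMonoidAlgebra ℂ G) : Prop := Bd φ ∧ Bd (starA φ)

lemma BB.one : BB (1 : AddMonoidAlgebra ℂ G) := ⟨Bd.one, by rw [map_one]; exact Bd.one⟩

lemma BB.mul {φ ψ : AddMonoidAlgebra ℂ G} (hφ : BB φ) (hψ : BB ψ) : BB (φ * ψ) :=
  ⟨hφ.1.mul hψ.1, by rw [map_mul]; exact hφ.2.mul hψ.2⟩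

lemma DomAt.bb {φ : AddMonoidAlgebra ℂ G} (h : DomAt φ) : BB φ := ⟨h.bd, h.starA.bd⟩

/-- Dominant coefficient in the form of coefficients. -/
lemma DomAt.of_coeff [DecidableEq G] {φ : AddMonoidAlgebra ℂ G}
    (h : ∃ g, ∑ t ∈ φ.coeff.support.erase g, ‖φ.coeff t‖ < ‖φ.coeff g‖) : DomAt φ := by
  obtain ⟨g, hg⟩ := h
  refine ⟨g, φ.coeff g, φ.erase g, (AddMonoidAlgebra.single_add_erase g φ).symm, ?_⟩
  refine lt_of_eq_of_lt ?_ hg
  rw [AddMonoidAlgebra.coeff_erase, Finsupp.support_erase]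
  refine Finset.sum_congr rfl (fun t ht => ?_)
  rw [Finsupp.erase_ne (Finset.ne_of_mem_erase ht)]

/-- The set of elements with a dominant coefficient. -/
def Dom : Set (AddMonoidAlgebra ℂ G) := {φ | DomAt φ}

lemma bb_of_mem_closure {φ : AddMonoidAlgebra ℂ G}
    (h : φ ∈ Submonoid.closure (Dom (G := G))) : BB φ := by
  induction h using Submonoid.closure_induction with
  | mem x hx => exact DomAt.bb hx
  | one => exact BB.one
  | mul x y _ _ hx hy => exact hx.mul hy

/-- Nonzero monomials. -/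
lemma domAt_single (g : G) {z : ℂ} (hz : z ≠ 0) : DomAt (AddMonoidAlgebra.single g z) :=
  ⟨g, z, 0, by rw [add_zero], by simpa using hz⟩

/-- Binomials with coefficients of different modulus. -/
lemma domAt_binomial (g h : G) {z w : ℂ} (hzw : ‖w‖ < ‖z‖) :
    DomAt (AddMonoidAlgebra.single g z + AddMonoidAlgebra.single h w) := by
  refine ⟨g, z, AddMonoidAlgebra.single h w, rfl, ?_⟩
  rw [AddMonoidAlgebra.coeff_single]
  refine lt_of_le_of_lt ?_ hzw
  refine (Finset.sum_le_sum_of_subset_of_nonneg Finsupp.support_single_subset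
    (fun _ _ _ => norm_nonneg _)).trans ?_
  simp

/-- Trinomials with a dominant coefficient. -/
lemma domAt_trinomial (g h k : G) {z w u : ℂ} (hzw : ‖w‖ + ‖u‖ < ‖z‖) :
    DomAt (AddMonoidAlgebra.single g z +
      (AddMonoidAlgebra.single h w + AddMonoidAlgebra.single k u)) := by
  classical
  refine ⟨g, z, AddMonoidAlgebra.single h w + AddMonoidAlgebra.single k u, rfl, ?_⟩
  refine lt_of_le_of_lt ?_ hzw
  rw [AddMonoidAlgebra.coeff_add, AddMonoidAlgebra.coeff_single, AddMonoidAlgebra.coeff_single]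
  calc ∑ t ∈ (Finsupp.single h w + Finsupp.single k u).support,
        ‖(Finsupp.single h w + Finsupp.single k u) t‖
      ≤ ∑ t ∈ ({h} ∪ {k} : Finset G), ‖(Finsupp.single h w + Finsupp.single k u) t‖ := by
        refine Finset.sum_le_sum_of_subset_of_nonneg ?_ (fun _ _ _ => norm_nonneg _)
        refine Finsupp.support_add.trans ?_
        exact Finset.union_subset_union Finsupp.support_single_subset
          Finsupp.support_single_subset
    _ ≤ ∑ t ∈ ({h} ∪ {k} : Finset G), (‖(Finsupp.single h w) t‖ + ‖(Finsupp.single k u) t‖) :=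
        Finset.sum_le_sum (fun t _ => by
          rw [Finsupp.add_apply]
          exact norm_add_le _ _)
    _ = ∑ t ∈ ({h} ∪ {k} : Finset G), ‖(Finsupp.single h w) t‖ +
        ∑ t ∈ ({h} ∪ {k} : Finset G), ‖(Finsupp.single k u) t‖ := Finset.sum_add_distrib
    _ = ‖w‖ + ‖u‖ := by
        congr 1
        · rw [Finset.sum_eq_single h]
          · simp
          · intro t _ hth
            rw [Finsupp.single_apply, if_neg (Ne.symm hth), norm_zero]
          · intro h2
            simp at h2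
        · rw [Finset.sum_eq_single k]
          · simp
          · intro t _ hth
            rw [Finsupp.single_apply, if_neg (Ne.symm hth), norm_zero]
          · intro h2
            simp at h2

end Norm

end Pool.Agent.MP7c5cdb
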