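import Pool.Agent.MP_7c5cdb.L2Act

set_option autoImplicit false
set_option maxHeartbeats 400000
open MeasureTheory Set
open scoped ENNReal ComplexConjugate

namespace Pool.Agent.MP7c5cdb

variable {G : Type} [AddCommGroup G]

/-- Action of a matrix over the group ring. -/
noncomputable def mact {n : ℕ} (Φ : Matrix (Fin n) (Fin n) (AddMonoidAlgebra ℂ G))
    (V : Fin n → G → ℂ) : Fin n → G → ℂ :=
  fun ρ => ∑ k, act (Φ ρ k) (V k)

lemma act_det {n : ℕ} (Φ : Matrix (Fin n) (Fin n) (AddMonoidAlgebra ℂ G))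
    (V : Fin n → G → ℂ) (k : Fin n) :
    act Φ.det (V k) = ∑ ρ, act (Φ.adjugate k ρ) (mact Φ V ρ) := by
  have h1 : ∀ l, ∑ ρ, Φ.adjugate k ρ * Φ ρ l = if k = l then Φ.det else 0 := by
    intro l
    have h2 := congrFun (congrFun (Matrix.adjugate_mul Φ) k) l
    rw [Matrix.mul_apply, Matrix.smul_apply, Matrix.one_apply] at h2
    rw [h2]
    split_ifs <;> simp
  have h3 : ∑ ρ, act (Φ.adjugate k ρ) (mact Φ V ρ) =
      ∑ l, act (∑ ρ, Φ.adjugate k ρ * Φ ρ l) (V l) := by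
    unfold mact
    simp only [map_sum, LinearMap.sum_apply, map_mul, Module.End.mul_apply]
    rw [Finset.sum_comm]
  rw [h3, Finset.sum_eq_single k]
  · rw [h1, if_pos rfl]
  · intro l _ hl
    rw [h1, if_neg (Ne.symm hl), map_zero, LinearMap.zero_apply]
  · intro h
    exact absurd (Finset.mem_univ k) h

section Norm

variable [MeasurableSpace G] [DiscreteMeasurableSpace G]

lemma sq_sum_le {ι : Type*} (s : Finset ι) (f : ι → ℝ≥0∞) :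
    (∑ i ∈ s, f i) ^ 2 ≤ (s.card : ℝ≥0∞) ^ 2 * ∑ i ∈ s, f i ^ 2 := by
  have h1 : ∀ i ∈ s, f i ≤ (∑ i ∈ s, f i ^ 2) ^ (1 / 2 : ℝ) := by
    intro i hi
    have h2 : f i ^ 2 ≤ ∑ i ∈ s, f i ^ 2 := Finset.single_le_sum (f := fun i => f i ^ 2) (fun _ _ => zero_le) hi
    have h3 : f i = (f i ^ 2) ^ (1 / 2 : ℝ) := by
      rw [← ENNReal.rpow_natCast, ← ENNReal.rpow_mul]
      norm_num
    rw [h3]
    exact ENNReal.rpow_le_rpow h2 (by norm_num)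
  have h4 : ∑ i ∈ s, f i ≤ s.card * (∑ i ∈ s, f i ^ 2) ^ (1 / 2 : ℝ) := by
    have := Finset.sum_le_card_nsmul s f _ h1
    rwa [nsmul_eq_mul] at this
  calc (∑ i ∈ s, f i) ^ 2 ≤ (s.card * (∑ i ∈ s, f i ^ 2) ^ (1 / 2 : ℝ)) ^ 2 := by gcongr
    _ = (s.card : ℝ≥0∞) ^ 2 * ∑ i ∈ s, f i ^ 2 := by
        rw [mul_pow, ← ENNReal.rpow_natCast ((∑ i ∈ s, f i ^ 2) ^ (1 / 2 : ℝ)),
          ← ENNReal.rpow_mul]
        norm_num

/-- Common bound for finitely many group ring elements. -/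
lemma exists_unif {ι : Type*} [Finite ι] (f : ι → AddMonoidAlgebra ℂ G) :
    ∃ C : ℝ≥0∞, C ≠ ∞ ∧ ∀ i, ∀ v : G → ℂ, nn (act (f i) v) ≤ C * nn v := by
  classical
  have := Fintype.ofFinite ι
  choose C hC hC2 using fun i => exists_nn_act_le (f i)
  refine ⟨∑ i, C i, ?_, fun i v => ?_⟩
  · rw [ENNReal.sum_ne_top]
    exact fun i _ => hC i
  · refine (hC2 i v).trans ?_
    gcongr
    exact Finset.single_le_sum (f := C) (fun _ _ => zero_le) (Finset.mem_univ i)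

lemma mact_upper {n : ℕ} (Φ : Matrix (Fin n) (Fin n) (AddMonoidAlgebra ℂ G)) :
    ∃ B : ℝ≥0∞, B ≠ ∞ ∧ ∀ V : Fin n → G → ℂ,
      ∑ ρ, nn (mact Φ V ρ) ^ 2 ≤ B * ∑ k, nn (V k) ^ 2 := by
  obtain ⟨C, hC, hC2⟩ := exists_unif (fun q : Fin n × Fin n => Φ q.1 q.2)
  refine ⟨n * (n ^ 2 * C ^ 2), ?_, fun V => ?_⟩
  · refine ENNReal.mul_ne_top (ENNReal.natCast_ne_top n) (ENNReal.mul_ne_top ?_ ?_)
    · exact ENNReal.pow_ne_top (ENNReal.natCast_ne_top n)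
    · exact ENNReal.pow_ne_top hC
  · have h1 : ∀ ρ, nn (mact Φ V ρ) ^ 2 ≤ (n ^ 2 * C ^ 2) * ∑ k, nn (V k) ^ 2 := by
      intro ρ
      have h2 : nn (mact Φ V ρ) ≤ C * ∑ k, nn (V k) := by
        unfold mact
        refine (nn_sum _ _).trans ?_
        rw [Finset.mul_sum]
        exact Finset.sum_le_sum (fun k _ => hC2 (ρ, k) (V k))
      calc nn (mact Φ V ρ) ^ 2 ≤ (C * ∑ k, nn (V k)) ^ 2 := by gcongr
        _ = C ^ 2 * (∑ k, nn (V k)) ^ 2 := mul_pow _ _ _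
        _ ≤ C ^ 2 * (((Finset.univ : Finset (Fin n)).card : ℝ≥0∞) ^ 2 * ∑ k, nn (V k) ^ 2) := by
            gcongr
            exact sq_sum_le _ _
        _ = (n ^ 2 * C ^ 2) * ∑ k, nn (V k) ^ 2 := by
            rw [Finset.card_univ, Fintype.card_fin]
            ring
    calc ∑ ρ, nn (mact Φ V ρ) ^ 2
        ≤ ∑ _ρ : Fin n, (n ^ 2 * C ^ 2) * ∑ k, nn (V k) ^ 2 := Finset.sum_le_sum (fun ρ _ => h1 ρ)
      _ = n * (n ^ 2 * C ^ 2) * ∑ k, nn (V k) ^ 2 := by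
          rw [Finset.sum_const, Finset.card_univ, Fintype.card_fin, nsmul_eq_mul]
          ring

lemma mact_lower {n : ℕ} (Φ : Matrix (Fin n) (Fin n) (AddMonoidAlgebra ℂ G)) (h : Bd Φ.det) :
    ∃ δ : ℝ≥0∞, δ ≠ 0 ∧ ∀ V : Fin n → G → ℂ, (∀ k, nn (V k) ≠ ∞) →
      δ * ∑ k, nn (V k) ^ 2 ≤ ∑ ρ, nn (mact Φ V ρ) ^ 2 := by
  obtain ⟨ε, hε, hε2⟩ := h
  obtain ⟨C, hC, hC2⟩ := exists_unif (fun q : Fin n × Fin n => Φ.adjugate q.1 q.2)
  -- choose a finite constant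
  have key : ∀ V : Fin n → G → ℂ, (∀ k, nn (V k) ≠ ∞) →
      ε ^ 2 * ∑ k, nn (V k) ^ 2 ≤ (n * (n ^ 2 * C ^ 2)) * ∑ ρ, nn (mact Φ V ρ) ^ 2 := by
    intro V hV
    have h1 : ∀ k, (ε * nn (V k)) ^ 2 ≤ (n ^ 2 * C ^ 2) * ∑ ρ, nn (mact Φ V ρ) ^ 2 := by
      intro k
      have h2 : ε * nn (V k) ≤ C * ∑ ρ, nn (mact Φ V ρ) := by
        refine (hε2 (V k) (hV k)).trans ?_
        rw [act_det]
        refine (nn_sum _ _).trans ?_
        rw [Finset.mul_sum]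
        exact Finset.sum_le_sum (fun ρ _ => hC2 (k, ρ) _)
      calc (ε * nn (V k)) ^ 2 ≤ (C * ∑ ρ, nn (mact Φ V ρ)) ^ 2 := by gcongr
        _ = C ^ 2 * (∑ ρ, nn (mact Φ V ρ)) ^ 2 := mul_pow _ _ _
        _ ≤ C ^ 2 * (((Finset.univ : Finset (Fin n)).card : ℝ≥0∞) ^ 2 *
              ∑ ρ, nn (mact Φ V ρ) ^ 2) := by
            gcongr
            exact sq_sum_le _ _
        _ = (n ^ 2 * C ^ 2) * ∑ ρ, nn (mact Φ V ρ) ^ 2 := by
            rw [Finset.card_univ, Fintype.card_fin]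
            ring
    calc ε ^ 2 * ∑ k, nn (V k) ^ 2 = ∑ k, (ε * nn (V k)) ^ 2 := by
          rw [Finset.mul_sum]
          exact Finset.sum_congr rfl (fun k _ => (mul_pow _ _ _).symm)
      _ ≤ ∑ _k : Fin n, (n ^ 2 * C ^ 2) * ∑ ρ, nn (mact Φ V ρ) ^ 2 :=
          Finset.sum_le_sum (fun k _ => h1 k)
      _ = (n * (n ^ 2 * C ^ 2)) * ∑ ρ, nn (mact Φ V ρ) ^ 2 := by
          rw [Finset.sum_const, Finset.card_univ, Fintype.card_fin, nsmul_eq_mul]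
          ring
  have hK : (n * (n ^ 2 * C ^ 2) : ℝ≥0∞) + 1 ≠ ∞ := by
    rw [ENNReal.add_ne_top]
    refine ⟨?_, ENNReal.one_ne_top⟩
    refine ENNReal.mul_ne_top (ENNReal.natCast_ne_top n) (ENNReal.mul_ne_top ?_ ?_)
    · exact ENNReal.pow_ne_top (ENNReal.natCast_ne_top n)
    · exact ENNReal.pow_ne_top hC
  have hK0 : (n * (n ^ 2 * C ^ 2) : ℝ≥0∞) + 1 ≠ 0 := by
    simp
  refine ⟨((n * (n ^ 2 * C ^ 2) : ℝ≥0∞) + 1)⁻¹ * ε ^ 2, ?_, fun V hV => ?_⟩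
  · refine mul_ne_zero (ENNReal.inv_ne_zero.2 hK) (pow_ne_zero 2 hε)
  · have h2 := key V hV
    have h3 : (n * (n ^ 2 * C ^ 2)) * ∑ ρ, nn (mact Φ V ρ) ^ 2 ≤
        ((n * (n ^ 2 * C ^ 2) : ℝ≥0∞) + 1) * ∑ ρ, nn (mact Φ V ρ) ^ 2 := by
      gcongr
      exact le_self_add
    rw [mul_assoc]
    rw [ENNReal.inv_mul_le_iff hK0 hK]
    exact h2.trans h3

lemma mact_inj {n : ℕ} (Φ : Matrix (Fin n) (Fin n) (AddMonoidAlgebra ℂ G)) (h : Bd Φ.det)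
    (V : Fin n → G → ℂ) (hV : ∀ k, nn (V k) ≠ ∞) (h0 : ∀ ρ, mact Φ V ρ = 0) :
    ∀ k, V k = 0 := by
  intro k
  obtain ⟨ε, hε, hε2⟩ := h
  have h1 := hε2 (V k) (hV k)
  rw [act_det] at h1
  simp only [h0, map_zero, Finset.sum_const_zero] at h1
  rw [nn_zero] at h1
  have h2 : ε * nn (V k) = 0 := le_antisymm h1 zero_le
  exact nn_eq_zero ((mul_eq_zero.1 h2).resolve_left hε)

/-- The adjoint matrix. -/
noncomputable def mstar {n : ℕ} (Φ : Matrix (Fin n) (Fin n) (AddMonoidAlgebra ℂ G)) :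
    Matrix (Fin n) (Fin n) (AddMonoidAlgebra ℂ G) :=
  (Φ.map starA).transpose

lemma det_mstar {n : ℕ} (Φ : Matrix (Fin n) (Fin n) (AddMonoidAlgebra ℂ G)) :
    (mstar Φ).det = starA Φ.det := by
  unfold mstar
  rw [Matrix.det_transpose, RingHom.map_det]
  rfl

end Norm

end Pool.Agent.MP7c5cdb
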