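import Pool.Agent.MP_7c5cdb.MatAct

set_option autoImplicit false
set_option maxHeartbeats 400000
open MeasureTheory Set
open scoped ENNReal ComplexConjugate

namespace Pool.Agent.MP7c5cdb

/-- Periodic design data with real positions: `e p = (height, class)`, columns are `G × Fin n`, the
column `(h,k)` has centre `ι h + m k` and frequency `a0 k`. -/
structure PerData2 (d n : ℕ) (G : Type) [AddCommGroup G] where
  e : (Fin d → ℤ) ≃ G × Fin n
  ι : G →+ (Fin d → ℤ)
  he : ∀ (p : Fin d → ℤ) (g : G), e (p + ι g) = ((e p).1 + g, (e p).2)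
  m : Fin n → (Fin d → ℝ)
  a0 : Fin n → Fin d → ℝ

namespace PerData2

variable {d n : ℕ} {G : Type} [AddCommGroup G] (D : PerData2 d n G)

/-- centres -/
def c (j : G × Fin n) : Fin d → ℝ := zv (D.ι j.1) + D.m j.2

/-- frequencies -/
def a (j : G × Fin n) : Fin d → ℝ := D.a0 j.2

/-- character of column `k` at the integer vector `t` -/
noncomputable def chi (k : Fin n) (t : Fin d → ℤ) : ℂ := ee (∑ i, D.a0 k i * (t i : ℝ))

lemma chi_add (k : Fin n) (s t : Fin d → ℤ) : D.chi k (s + t) = D.chi k s * D.chi k t := by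
  unfold chi
  rw [← ee_add, ← Finset.sum_add_distrib]
  congr 1
  refine Finset.sum_congr rfl (fun i _ => ?_)
  rw [Pi.add_apply]
  push_cast
  ring

lemma chi_norm (k : Fin n) (t : Fin d → ℤ) : ‖D.chi k t‖ = 1 := ee_norm _

lemma chi_ne_zero (k : Fin n) (t : Fin d → ℤ) : D.chi k t ≠ 0 := ee_ne_zero _

/-- The matrix over the group ring attached to a pattern: `T k` is the set of integer vectors seen
by the position `m k`. -/
noncomputable def Mat (T : Fin n → Finset (Fin d → ℤ)) :
    Matrix (Fin n) (Fin n) (AddMonoidAlgebra ℂ G) := fun ρ k =>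
  ∑ t ∈ T k, if (D.e t).2 = ρ then
    AddMonoidAlgebra.single (D.e t).1 (D.chi k t) else 0

lemma e_eq_iff (t : Fin d → ℤ) (h : G) (p : Fin d → ℤ) :
    ((D.e t).2 = (D.e p).2 ∧ (D.e p).1 - (D.e t).1 = h) ↔ t = p - D.ι h := by
  constructor
  · rintro ⟨h1, h2⟩
    have h3 : D.e (t + D.ι h) = D.e p := by
      rw [D.he]
      refine Prod.ext ?_ h1
      simp only
      rw [← h2]
      abel
    have h4 := D.e.injective h3
    rw [← h4]
    abel
  · intro h1
    subst h1
    have h4 := D.he (p - D.ι h) h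
    rw [sub_add_cancel] at h4
    rw [h4]
    exact ⟨rfl, by simp⟩

/-- Action of the pattern matrix, evaluated. -/
lemma mact_Mat (T : Fin n → Finset (Fin d → ℤ)) (V : Fin n → G → ℂ) (p : Fin d → ℤ) :
    mact (D.Mat T) V (D.e p).2 (D.e p).1 =
      ∑ k, ∑ t ∈ T k, if (D.e t).2 = (D.e p).2 then
        D.chi k t * V k ((D.e p).1 - (D.e t).1) else 0 := by
  unfold mact Mat
  rw [Finset.sum_apply]
  refine Finset.sum_congr rfl (fun k _ => ?_)
  rw [map_sum, LinearMap.sum_apply, Finset.sum_apply]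
  refine Finset.sum_congr rfl (fun t _ => ?_)
  split_ifs with h
  · rw [act_single]
  · simp

/-- The vector fed into the pattern matrix. -/
noncomputable def vec : (G × Fin n →₀ ℂ) →ₗ[ℂ] (Fin n → G → ℂ) where
  toFun v := fun k h => D.chi k (D.ι h) * v (h, k)
  map_add' v w := by
    funext k h
    simp only [Finsupp.add_apply, Pi.add_apply]
    ring
  map_smul' z v := by
    funext k h
    simp only [Finsupp.smul_apply, Pi.smul_apply, smul_eq_mul, RingHom.id_apply]
    ring

/-- `T` is the pattern of the point `x`. -/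
def IsPat (Ω : Set (Fin d → ℝ)) (x : Fin d → ℝ) (T : Fin n → Finset (Fin d → ℤ)) : Prop :=
  ∀ (k : Fin n) (t : Fin d → ℤ), t ∈ T k ↔ x + zv t - D.m k ∈ Ω

lemma arg_eq (x : Fin d → ℝ) (p : Fin d → ℤ) (h : G) (k : Fin n) :
    (fun i => x i + (p i : ℝ) - D.c (h, k) i) = x + zv (p - D.ι h) - D.m k := by
  funext i
  simp only [c, zv, Pi.add_apply, Pi.sub_apply]
  push_cast
  ring

/-- The fibre operator in terms of the pattern matrix. -/
lemma fibS_eq {Ω : Set (Fin d → ℝ)} {x : Fin d → ℝ} {T : Fin n → Finset (Fin d → ℤ)}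
    (hT : D.IsPat Ω x T) (v : G × Fin n →₀ ℂ) (p : Fin d → ℤ) :
    fibS Ω D.c D.a x p v = mact (D.Mat T) (D.vec v) (D.e p).2 (D.e p).1 := by
  classical
  have hlin : ∀ v w : G × Fin n →₀ ℂ,
      mact (D.Mat T) (D.vec (v + w)) (D.e p).2 (D.e p).1 =
      mact (D.Mat T) (D.vec v) (D.e p).2 (D.e p).1 +
      mact (D.Mat T) (D.vec w) (D.e p).2 (D.e p).1 := by
    intro v w
    rw [map_add]
    unfold mact
    simp only [Pi.add_apply, map_add, Finset.sum_add_distrib]
  induction v using Finsupp.induction_linear with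
  | zero =>
    rw [map_zero, map_zero]
    unfold mact
    simp
  | add v w hv hw => rw [map_add, hv, hw, hlin]
  | single j z =>
    obtain ⟨h, k⟩ := j
    unfold fibS
    rw [Finsupp.linearCombination_single, mact_Mat, Finset.sum_eq_single k]
    · have h1 : ∀ t ∈ T k, (if (D.e t).2 = (D.e p).2 then
          D.chi k t * (D.vec (Finsupp.single (h, k) z)) k
            ((D.e p).1 - (D.e t).1) else 0) =
          if t = p - D.ι h then
            D.chi k t * (D.chi k (D.ι h) * z) else 0 := by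
        intro t _
        by_cases h2 : t = p - D.ι h
        · have h3 := (D.e_eq_iff t h p).2 h2
          rw [if_pos h3.1, if_pos h2, h3.2]
          simp only [vec, LinearMap.coe_mk, AddHom.coe_mk, Finsupp.single_apply, if_true]
        · rw [if_neg h2]
          by_cases h4 : (D.e t).2 = (D.e p).2
          · rw [if_pos h4]
            have h5 : (D.e p).1 - (D.e t).1 ≠ h := by
              intro h6
              exact h2 ((D.e_eq_iff t h p).1 ⟨h4, h6⟩)
            simp only [vec, LinearMap.coe_mk, AddHom.coe_mk]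
            rw [Finsupp.single_apply, if_neg, mul_zero, mul_zero]
            intro h6
            exact h5 (congrArg Prod.fst h6).symm
          · rw [if_neg h4]
      rw [Finset.sum_congr rfl h1, Finset.sum_ite_eq']
      unfold fib
      rw [D.arg_eq]
      have h9 : ee (∑ i, D.a (h, k) i * (p i : ℝ)) = D.chi k p := rfl
      rw [h9]
      by_cases h10 : p - D.ι h ∈ T k
      · have h11 : x + zv (p - D.ι h) - D.m k ∈ Ω := (hT k _).1 h10
        rw [Set.indicator_of_mem h11, if_pos h10]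
        have h12 : D.chi k p = D.chi k (p - D.ι h) * D.chi k (D.ι h) := by
          rw [← chi_add, sub_add_cancel]
        rw [h12, smul_eq_mul]
        ring
      · have h11 : x + zv (p - D.ι h) - D.m k ∉ Ω := fun hh => h10 ((hT k _).2 hh)
        rw [Set.indicator_of_notMem h11, if_neg h10]
        simp
    · intro k' _ hk'
      refine Finset.sum_eq_zero (fun t _ => ?_)
      split_ifs with h1
      · simp only [vec, LinearMap.coe_mk, AddHom.coe_mk]
        rw [Finsupp.single_apply, if_neg, mul_zero, mul_zero]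
        intro h6
        exact hk' (congrArg Prod.snd h6).symm
      · rfl
    · intro h1
      exact absurd (Finset.mem_univ k) h1

section Norm

variable [MeasurableSpace G] [DiscreteMeasurableSpace G]

lemma sum_nn_vec (v : G × Fin n →₀ ℂ) :
    ∑ k, nn (D.vec v k) ^ 2 = ∑ j ∈ v.support, ‖v j‖ₑ ^ 2 := by
  have h1 : ∀ k, nn (D.vec v k) ^ 2 = ∑' h, ‖v (h, k)‖ₑ ^ 2 := by
    intro k
    rw [nn_sq]
    refine tsum_congr (fun h => ?_)
    simp only [vec, LinearMap.coe_mk, AddHom.coe_mk]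
    rw [enorm_mul]
    have : ‖D.chi k (D.ι h)‖ₑ = 1 := by
      rw [← ofReal_norm, chi_norm]
      simp
    rw [this, one_mul]
  simp only [h1]
  have h2 : ∑' j : G × Fin n, ‖v j‖ₑ ^ 2 = ∑ j ∈ v.support, ‖v j‖ₑ ^ 2 := by
    refine tsum_eq_sum (fun j hj => ?_)
    rw [Finsupp.notMem_support_iff.1 hj]
    simp
  rw [← h2, ENNReal.tsum_prod', ENNReal.tsum_comm, tsum_fintype]

lemma nn_vec_ne_top (v : G × Fin n →₀ ℂ) (k : Fin n) :
    nn (D.vec v k) ≠ ∞ := by
  have h1 := D.sum_nn_vec v
  have h2 : nn (D.vec v k) ^ 2 ≤ ∑ k, nn (D.vec v k) ^ 2 :=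
    Finset.single_le_sum (f := fun k => nn (D.vec v k) ^ 2) (fun _ _ => zero_le)
      (Finset.mem_univ k)
  rw [h1] at h2
  have h3 : ∑ j ∈ v.support, ‖v j‖ₑ ^ 2 ≠ ∞ := by
    rw [ENNReal.sum_ne_top]
    intro j _
    exact ENNReal.pow_ne_top enorm_ne_top
  intro h4
  rw [h4] at h2
  exact h3 (top_le_iff.1 (le_trans (by simp) h2))

lemma sum_fibS {Ω : Set (Fin d → ℝ)} {x : Fin d → ℝ} {T : Fin n → Finset (Fin d → ℤ)}
    (hT : D.IsPat Ω x T) (v : G × Fin n →₀ ℂ) :
    ∑' p : Fin d → ℤ, ‖fibS Ω D.c D.a x p v‖ₑ ^ 2 =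
      ∑ ρ, nn (mact (D.Mat T) (D.vec v) ρ) ^ 2 := by
  have h2 : ∀ p : Fin d → ℤ, ‖fibS Ω D.c D.a x p v‖ₑ ^ 2 =
      (fun q : G × Fin n => ‖mact (D.Mat T) (D.vec v) q.2 q.1‖ₑ ^ 2) (D.e p) := by
    intro p
    rw [D.fibS_eq hT]
  simp only [h2]
  rw [D.e.tsum_eq (fun q : G × Fin n => ‖mact (D.Mat T) (D.vec v) q.2 q.1‖ₑ ^ 2),
    ENNReal.tsum_prod', ENNReal.tsum_comm, tsum_fintype]
  refine Finset.sum_congr rfl (fun ρ _ => ?_)
  rw [nn_sq]

/-- From rows to class vectors. -/
noncomputable def rows (w : (Fin d → ℤ) → ℂ) : Fin n → G → ℂ :=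
  fun ρ h => w (D.e.symm (h, ρ))

lemma coeff_Mat (T : Fin n → Finset (Fin d → ℤ)) (ρ k : Fin n) (W : G → ℂ) (h : G) :
    act (starA (D.Mat T ρ k)) W h =
      ∑ t ∈ T k, if (D.e t).2 = ρ then
        conj (D.chi k t) * W (h + (D.e t).1) else 0 := by
  unfold Mat
  rw [map_sum, map_sum, LinearMap.sum_apply, Finset.sum_apply]
  refine Finset.sum_congr rfl (fun t _ => ?_)
  split_ifs with h1
  · rw [starA_single, act_single, sub_neg_eq_add]
  · simp

/-- The adjoint fibre equations in terms of the adjoint pattern matrix. -/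
lemma adj_eq {Ω : Set (Fin d → ℝ)} {x : Fin d → ℝ} {T : Fin n → Finset (Fin d → ℤ)}
    (hT : D.IsPat Ω x T) (w : (Fin d → ℤ) → ℂ) (h : G) (k : Fin n) :
    ∑' p, conj (fib Ω D.c D.a x p (h, k)) * w p =
      conj (D.chi k (D.ι h)) * mact (mstar (D.Mat T)) (D.rows w) k h := by
  classical
  have h1 : ∑' p, conj (fib Ω D.c D.a x p (h, k)) * w p =
      ∑ t ∈ T k, conj (D.chi k (t + D.ι h)) * w (t + D.ι h) := by
    have h2 : ∑ t ∈ T k, conj (D.chi k (t + D.ι h)) * w (t + D.ι h) =
        ∑ p ∈ (T k).image (fun t => t + D.ι h), conj (D.chi k p) * w p := by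
      rw [Finset.sum_image (fun a _ b _ hab => add_right_cancel hab)]
    rw [h2, tsum_eq_sum (s := (T k).image (fun t => t + D.ι h))]
    · refine Finset.sum_congr rfl (fun p hp => ?_)
      obtain ⟨t, ht, rfl⟩ := Finset.mem_image.1 hp
      have h3 : fib Ω D.c D.a x (t + D.ι h) (h, k) = D.chi k (t + D.ι h) := by
        unfold fib
        rw [D.arg_eq, add_sub_cancel_right, Set.indicator_of_mem ((hT k _).1 ht), mul_one]
        rfl
      rw [h3]
    · intro p hp
      have h3 : fib Ω D.c D.a x p (h, k) = 0 := by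
        unfold fib
        rw [D.arg_eq, Set.indicator_of_notMem, mul_zero]
        rw [← hT]
        intro h8
        apply hp
        rw [Finset.mem_image]
        exact ⟨_, h8, by abel⟩
      rw [h3, map_zero, zero_mul]
  rw [h1]
  unfold mact mstar
  rw [Finset.sum_apply]
  have h4 : ∀ ρ, act ((((D.Mat T).map starA).transpose) k ρ) (D.rows w ρ) h =
      ∑ t ∈ T k, if (D.e t).2 = ρ then
        conj (D.chi k t) * D.rows w ρ (h + (D.e t).1) else 0 := by
    intro ρ
    rw [Matrix.transpose_apply, Matrix.map_apply, coeff_Mat]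
  simp only [h4]
  rw [Finset.sum_comm, Finset.mul_sum]
  refine Finset.sum_congr rfl (fun t _ => ?_)
  rw [Finset.sum_ite_eq, if_pos (Finset.mem_univ _)]
  have h5 : D.rows w (D.e t).2 (h + (D.e t).1) = w (t + D.ι h) := by
    unfold rows
    congr 1
    rw [Equiv.symm_apply_eq, D.he, add_comm h]
  rw [h5, chi_add, map_mul]
  ring

lemma sum_rows (w : (Fin d → ℤ) → ℂ) :
    ∑ ρ, nn (D.rows w ρ) ^ 2 = ∑' p, ‖w p‖ₑ ^ 2 := by
  rw [← D.e.symm.tsum_eq (fun p => ‖w p‖ₑ ^ 2), ENNReal.tsum_prod',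
    ENNReal.tsum_comm, tsum_fintype]
  refine Finset.sum_congr rfl (fun ρ _ => ?_)
  rw [nn_sq]
  rfl

/-- The fibration hypotheses for a periodic design with finitely many patterns, all of whose
determinants are bounded below. -/
theorem fiberHyp {I : Type} [Finite I] (pat : I → Fin n → Finset (Fin d → ℤ))
    {Ω : Set (Fin d → ℝ)} (hm : MeasurableSet Ω) (hb : ∃ R : ℝ, ∀ y ∈ Ω, ∀ i, |y i| ≤ R)
    (hsep : ∀ k k', (∃ g, D.m k = D.m k' + zv (D.ι g)) →
      (∃ γ : Fin d → ℤ, ∀ i, D.a0 k i - D.a0 k' i = (γ i : ℝ)) → k = k')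
    (hpat : ∀ᵐ x ∂((volume : Measure (Fin d → ℝ)).restrict (cube d)),
      ∃ (i : I), D.IsPat Ω x (pat i))
    (hdet : ∀ i, BB (D.Mat (pat i)).det) : FiberHyp Ω D.c D.a := by
  classical
  have := Fintype.ofFinite I
  refine ⟨hm, hb, ?_, ?_, ?_, ?_⟩
  · rintro ⟨h, k⟩ ⟨h', k'⟩ hc ha
    have h1 : zv (D.ι h) + D.m k = zv (D.ι h') + D.m k' := hc
    have hzs : ∀ s t : Fin d → ℤ, (zv (s - t) : Fin d → ℝ) = zv s - zv t := by
      intro s t
      funext i
      simp [zv]
    have hk : k = k' := by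
      refine hsep k k' ⟨h' - h, ?_⟩ ha
      rw [map_sub, hzs]
      have h3 : D.m k = zv (D.ι h') + D.m k' - zv (D.ι h) := by
        rw [← h1]
        abel
      rw [h3]
      abel
    subst hk
    have h4 : D.ι h = D.ι h' := by
      have h4' : (zv (D.ι h) : Fin d → ℝ) = zv (D.ι h') := add_right_cancel h1
      funext i
      have h2 := congrFun h4' i
      simp only [zv] at h2
      exact_mod_cast h2
    have h5 := D.he 0 h
    have h6 := D.he 0 h'
    rw [h4, h6] at h5
    have h7 := congrArg Prod.fst h5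
    simp only [add_right_inj] at h7
    rw [h7]
  · choose δ hδ hδ2 using fun i => mact_lower (D.Mat (pat i)) (hdet i).1
    -- real lower bound
    have hex : ∃ r : ℝ, 0 < r ∧ ∀ i, ENNReal.ofReal r ≤ δ i := by
      by_cases hI : Nonempty I
      · have h1 : ∀ i, ∃ r : ℝ, 0 < r ∧ ENNReal.ofReal r ≤ δ i := by
          intro i
          obtain ⟨q, hq0, hq⟩ := ENNReal.lt_iff_exists_nnreal_btwn.1 (pos_iff_ne_zero.2 (hδ i))
          exact ⟨q, by exact_mod_cast hq0, by
            rw [ENNReal.ofReal_coe_nnreal]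
            exact hq.le⟩
        choose r hr hr2 using h1
        refine ⟨Finset.univ.inf' Finset.univ_nonempty r, ?_, fun i => ?_⟩
        · rw [Finset.lt_inf'_iff]
          exact fun i _ => hr i
        · refine (ENNReal.ofReal_le_ofReal ?_).trans (hr2 i)
          exact Finset.inf'_le _ (Finset.mem_univ i)
      · exact ⟨1, one_pos, fun i => absurd ⟨i⟩ hI⟩
    obtain ⟨r, hr, hr2⟩ := hex
    refine ⟨r, hr, ?_⟩
    filter_upwards [hpat] with x hx
    obtain ⟨i, hT⟩ := hx
    intro v
    rw [D.sum_fibS hT, ← D.sum_nn_vec v]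
    refine le_trans ?_ (hδ2 i _ (D.nn_vec_ne_top v))
    gcongr
    exact hr2 i
  · choose B hB hB2 using fun i => mact_upper (D.Mat (pat i))
    refine ⟨(∑ i, B i).toReal + 1, by positivity, ?_⟩
    filter_upwards [hpat] with x hx
    obtain ⟨i, hT⟩ := hx
    intro v
    rw [D.sum_fibS hT, ← D.sum_nn_vec v]
    refine (hB2 i _).trans ?_
    gcongr
    have h1 : ∑ i, B i ≠ ∞ := by
      rw [ENNReal.sum_ne_top]
      exact fun i _ => hB i
    calc B i ≤ ∑ i, B i := Finset.single_le_sum (f := B) (fun _ _ => zero_le) (Finset.mem_univ i)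
      _ = ENNReal.ofReal (∑ i, B i).toReal := (ENNReal.ofReal_toReal h1).symm
      _ ≤ ENNReal.ofReal ((∑ i, B i).toReal + 1) := ENNReal.ofReal_le_ofReal (by linarith)
  · filter_upwards [hpat] with x hx
    obtain ⟨i, hT⟩ := hx
    intro w hw h0
    have h1 : ∀ k, mact (mstar (D.Mat (pat i))) (D.rows w) k = 0 := by
      intro k
      funext h
      have h2 := h0 (h, k)
      rw [D.adj_eq hT] at h2
      have h3 : conj (D.chi k (D.ι h)) ≠ 0 := by
        unfold chi
        rw [ee_conj]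
        exact ee_ne_zero _
      exact (mul_eq_zero.1 h2).resolve_left h3
    have hfin : ∀ k, nn (D.rows w k) ≠ ∞ := by
      intro k h4
      have h5 : nn (D.rows w k) ^ 2 ≤ ∑ ρ, nn (D.rows w ρ) ^ 2 :=
        Finset.single_le_sum (f := fun k => nn (D.rows w k) ^ 2) (fun _ _ => zero_le)
          (Finset.mem_univ k)
      rw [D.sum_rows, h4] at h5
      simp at h5
      exact hw.ne h5
    have hbd : Bd (mstar (D.Mat (pat i))).det := by
      rw [det_mstar]
      exact (hdet i).2
    have h6 := mact_inj (mstar (D.Mat (pat i))) hbd (D.rows w) hfin h1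
    funext p
    have h7 := congrFun (h6 (D.e p).2) (D.e p).1
    unfold rows at h7
    rw [Prod.mk.eta, Equiv.symm_apply_apply] at h7
    exact h7

end Norm

end PerData2

end Pool.Agent.MP7c5cdb
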