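import Pool.Agent.MP_7c5cdb.DomRep

set_option autoImplicit false
set_option maxHeartbeats 400000
open MeasureTheory Set
open scoped ENNReal ComplexConjugate

namespace Pool.Agent.MP7c5cdb

section Dom

variable {G : Type} [AddCommGroup G]

lemma not_domAt_zero : ¬ DomAt (0 : AddMonoidAlgebra ℂ G) := by
  classical
  rintro ⟨g, z, ψ, h, hlt⟩
  have h1 : ψ = AddMonoidAlgebra.single g (-z) := by
    rw [AddMonoidAlgebra.single_neg]
    exact (neg_eq_of_add_eq_zero_right h.symm).symm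
  rw [h1, AddMonoidAlgebra.coeff_single] at hlt
  by_cases hz : z = 0
  · rw [hz] at hlt
    simp at hlt
  · rw [Finsupp.support_single g (neg_ne_zero.2 hz), Finset.sum_singleton,
      Finsupp.single_eq_same, norm_neg] at hlt
    exact lt_irrefl _ hlt

/-- Two proportional columns. -/
lemma det_eq_zero_of_col {K R : Type} [Fintype K] [DecidableEq K] [CommRing R]
    (Φ : Matrix K K R) {k k' : K} (hk : k ≠ k') (s : R) (h : ∀ ρ, Φ ρ k = s * Φ ρ k') :
    Φ.det = 0 := by
  have h1 : Φ = (Φ.updateCol k (s • fun ρ => Φ ρ k')) := by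
    ext ρ l
    rw [Matrix.updateCol_apply]
    split_ifs with hl
    · rw [hl, h]
      rfl
    · rfl
  rw [h1, Matrix.det_updateCol_smul]
  have h2 : (Φ.updateCol k (fun ρ => Φ ρ k')).det = 0 := by
    refine Matrix.det_zero_of_column_eq hk (fun ρ => ?_)
    rw [Matrix.updateCol_apply, if_pos rfl, Matrix.updateCol_apply, if_neg (Ne.symm hk)]
  rw [h2, mul_zero]

/-- Reindexing rows and columns by different bijections. -/
lemma domAt_det_reindex {K L : Type} [Fintype K] [DecidableEq K] [Fintype L] [DecidableEq L]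
    (Φ : Matrix K K (AddMonoidAlgebra ℂ G)) (σ τ : L ≃ K) (h : DomAt Φ.det) :
    DomAt (Φ.submatrix σ τ).det := by
  have h1 : Φ.submatrix σ τ = (Φ.submatrix id (τ.symm.trans σ).symm).submatrix σ σ := by
    ext i j
    simp
  rw [h1, Matrix.det_submatrix_equiv_self, Matrix.det_permute']
  exact h.sign_mul _

end Dom

/-- The same with representatives depending on the point, without the separation hypothesis. -/
theorem exists_isGRB_of_rep' {d n : ℕ} {G : Type} [AddCommGroup G] [Countable G]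
    (D : PerData2 d n G) {Ω : Set (Fin d → ℝ)} (hm : MeasurableSet Ω)
    (hb : ∃ R : ℝ, ∀ y ∈ Ω, ∀ i, |y i| ≤ R)
    (hdet : ∀ x ∈ cube d, ∃ rep : Fin n → (Fin d → ℤ), (∀ ρ, (D.e (rep ρ)).2 = ρ) ∧
      ∃ Φ : Matrix (Fin n) (Fin n) (AddMonoidAlgebra ℂ G),
        (∀ ρ k g, (x + zv (rep ρ + D.ι g) - D.m k ∈ Ω →
          (Φ ρ k).coeff g = D.chi k (rep ρ + D.ι g)) ∧
          (x + zv (rep ρ + D.ι g) - D.m k ∉ Ω → (Φ ρ k).coeff g = 0)) ∧ DomAt Φ.det) :
    ∃ S, IsGRB Ω S := by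
  refine exists_isGRB_of_rep D hm hb ?_ hdet
  rintro k k' ⟨g0, hg0⟩ ⟨γ, hγ⟩
  by_contra hkk
  obtain ⟨rep, hrep, Φ, hΦ, hdom⟩ := hdet (fun _ => 1) (fun i => by norm_num)
  have hchi : ∀ t : Fin d → ℤ, D.chi k t = D.chi k' t := by
    intro t
    have h1 : (∑ i, D.a0 k i * (t i : ℝ)) = ((∑ i, γ i * t i : ℤ) : ℝ) +
        ∑ i, D.a0 k' i * (t i : ℝ) := by
      push_cast
      rw [← Finset.sum_add_distrib]
      refine Finset.sum_congr rfl (fun i _ => ?_)
      rw [← hγ i]
      ring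
    unfold PerData2.chi
    rw [h1, ee_add, ee_int, one_mul]
  have h0 : Φ.det = 0 := by
    refine det_eq_zero_of_col Φ hkk (AddMonoidAlgebra.single g0 (D.chi k' (D.ι g0)))
      (fun ρ => ?_)
    apply AddMonoidAlgebra.coeff_injective
    ext g
    rw [AddMonoidAlgebra.coeff_single_mul_apply]
    have harg : (fun _ => (1 : ℝ)) + zv (rep ρ + D.ι g) - D.m k =
        (fun _ => (1 : ℝ)) + zv (rep ρ + D.ι (-g0 + g)) - D.m k' := by
      rw [hg0]
      funext i
      simp only [zv, Pi.add_apply, Pi.sub_apply, map_add, map_neg, Pi.neg_apply]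
      push_cast
      ring
    by_cases h : (fun _ => (1 : ℝ)) + zv (rep ρ + D.ι g) - D.m k ∈ Ω
    · rw [(hΦ ρ k g).1 h, (hΦ ρ k' (-g0 + g)).1 (by rwa [← harg]), hchi, ← D.chi_add]
      congr 1
      rw [map_add, map_neg]
      abel
    · rw [(hΦ ρ k g).2 h, (hΦ ρ k' (-g0 + g)).2 (by rwa [← harg]), mul_zero]
  rw [h0] at hdom
  exact not_domAt_zero hdom

/-- The splitting of the integer lattice modulo `M`. -/
noncomputable def latEquiv (d M : ℕ) [NeZero M] : (Fin d → ℤ) ≃ (Fin d → ℤ) × Fin (M ^ d) :=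
  ((Equiv.arrowCongr (Equiv.refl (Fin d)) (Int.divModEquiv M)).trans
    (Equiv.arrowProdEquivProdArrow (Fin d) (fun _ => ℤ) (fun _ => Fin M))).trans
    (Equiv.prodCongr (Equiv.refl _) finFunctionFinEquiv)

lemma divModEquiv_add (M : ℕ) [NeZero M] (p g : ℤ) :
    Int.divModEquiv M (p + (M : ℤ) * g) =
      ((Int.divModEquiv M p).1 + g, (Int.divModEquiv M p).2) := by
  have h0 := (Int.divModEquiv M).symm_apply_apply p
  rw [Int.divModEquiv_symm_apply] at h0
  rw [← Equiv.eq_symm_apply, Int.divModEquiv_symm_apply]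
  simp only
  conv_lhs => rw [← h0]
  ring

lemma latEquiv_add (d M : ℕ) [NeZero M] (p g : Fin d → ℤ) :
    latEquiv d M (p + (M : ℤ) • g) = ((latEquiv d M p).1 + g, (latEquiv d M p).2) := by
  have h1 : ∀ i, Int.divModEquiv M ((p + (M : ℤ) • g) i) =
      ((Int.divModEquiv M (p i)).1 + g i, (Int.divModEquiv M (p i)).2) := fun i =>
    divModEquiv_add M (p i) (g i)
  refine Prod.ext ?_ ?_
  · funext i
    exact congrArg Prod.fst (h1 i)
  · show finFunctionFinEquiv (fun i => (Int.divModEquiv M ((p + (M : ℤ) • g) i)).2) =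
      finFunctionFinEquiv (fun i => (Int.divModEquiv M (p i)).2)
    congr 1
    funext i
    rw [h1 i]

lemma latEquiv_snd_eq (d M : ℕ) [NeZero M] {p q : Fin d → ℤ}
    (h : (latEquiv d M p).2 = (latEquiv d M q).2) :
    p = q + (M : ℤ) • ((latEquiv d M p).1 - (latEquiv d M q).1) := by
  apply (latEquiv d M).injective
  rw [latEquiv_add]
  refine Prod.ext ?_ h
  simp

/-- The periodic design of the page. -/
noncomputable def design (d M : ℕ) [NeZero M] (φ : (Fin d → ℤ) →+ ℤ)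
    (m : Fin (M ^ d) → Fin d → ℝ) (θ : Fin (M ^ d) → ℝ) : PerData2 d (M ^ d) (Fin d → ℤ) where
  e := latEquiv d M
  ι := { toFun := fun g => (M : ℤ) • g
         map_zero' := smul_zero _
         map_add' := smul_add _ }
  he := latEquiv_add d M
  m := m
  a0 := fun k i => θ k * (φ (Pi.single i 1) : ℝ)

lemma design_chi (d M : ℕ) [NeZero M] (φ : (Fin d → ℤ) →+ ℤ)
    (m : Fin (M ^ d) → Fin d → ℝ) (θ : Fin (M ^ d) → ℝ) (k : Fin (M ^ d)) (t : Fin d → ℤ) :
    (design d M φ m θ).chi k t = ee (θ k * (φ t : ℝ)) := by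
  unfold PerData2.chi design
  simp only
  congr 1
  have h1 : t = ∑ i, t i • (Pi.single i (1 : ℤ) : Fin d → ℤ) := by
    funext j
    rw [Finset.sum_apply, Finset.sum_eq_single j]
    · simp
    · intro i _ hi
      simp [Ne.symm hi]
    · intro h
      exact absurd (Finset.mem_univ j) h
  have h2 : (φ t : ℝ) = ∑ i, (φ (Pi.single i 1) : ℝ) * (t i : ℝ) := by
    conv_lhs => rw [h1]
    rw [map_sum]
    push_cast
    refine Finset.sum_congr rfl (fun i _ => ?_)
    rw [map_zsmul, smul_eq_mul]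
    push_cast
    ring
  rw [h2, Finset.mul_sum]
  refine Finset.sum_congr rfl (fun i _ => ?_)
  ring

/-- **Row A.** The unit ball, the fibre lattice `(4/M) ℤ^d`, the periods `4 ℤ^d`, columns `K` with
positions `u` and parameters `θ`. If for every `x` there are representatives of the row classes
for which the matrix of the fibre has a determinant with a dominant coefficient, then the unit
ball is the window of a Gabor Riesz basis. -/
theorem exists_isGRB_ball_of_dom {d M : ℕ} (hM : 0 < M) (φ : (Fin d → ℤ) →+ ℤ)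
    {K : Type} [Fintype K] [DecidableEq K] (hK : Fintype.card K = M ^ d)
    (u : K → Fin d → ℝ) (θ : K → ℝ)
    (hdet : ∀ x : Fin d → ℝ, ∃ rep : K → (Fin d → ℤ),
      (∀ k k', (∃ g : Fin d → ℤ, rep k = rep k' + (M : ℤ) • g) → k = k') ∧
      ∃ Φ : Matrix K K (AddMonoidAlgebra ℂ (Fin d → ℤ)),
        (∀ ρ k (g : Fin d → ℤ),
          (∑ i, (x i + 4 / (M : ℝ) * (rep ρ i : ℝ) + 4 * (g i : ℝ) - u k i) ^ 2 < 1 →
            (Φ ρ k).coeff g = ee (θ k * (φ (rep ρ + (M : ℤ) • g) : ℝ))) ∧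
          (¬ ∑ i, (x i + 4 / (M : ℝ) * (rep ρ i : ℝ) + 4 * (g i : ℝ) - u k i) ^ 2 < 1 →
            (Φ ρ k).coeff g = 0)) ∧ DomAt Φ.det) :
    ∃ S, IsGRB {y : Fin d → ℝ | ∑ i, y i ^ 2 < 1} S := by
  classical
  have hMr : (0 : ℝ) < M := by exact_mod_cast hM
  have : NeZero M := ⟨hM.ne'⟩
  let Gm : Matrix (Fin d) (Fin d) ℝ := (4 / (M : ℝ)) • (1 : Matrix (Fin d) (Fin d) ℝ)
  have hGm : Gm.det ≠ 0 := by
    simp only [Gm]
    rw [Matrix.det_smul, Matrix.det_one, mul_one]
    positivity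
  have hGv : ∀ v : Fin d → ℝ, Gm.mulVec v = fun i => 4 / (M : ℝ) * v i := by
    intro v
    simp only [Gm]
    rw [Matrix.smul_mulVec, Matrix.one_mulVec]
    rfl
  refine exists_isGRB_linear Gm hGm ?_
  have hΩ : {v : Fin d → ℝ | Gm.mulVec v ∈ {y : Fin d → ℝ | ∑ i, y i ^ 2 < 1}} =
      {v : Fin d → ℝ | ∑ i, (4 / (M : ℝ) * v i) ^ 2 < 1} := by
    ext v
    simp only [Set.mem_ofPred_eq, hGv]
  rw [hΩ]
  let κ : K ≃ Fin (M ^ d) := Fintype.equivFinOfCardEq hK
  let D := design d M φ (fun k i => (M : ℝ) / 4 * u (κ.symm k) i) (fun k => θ (κ.symm k))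
  refine exists_isGRB_of_rep' D ?_ ?_ ?_
  · refine measurableSet_lt ?_ measurable_const
    exact Continuous.measurable (by fun_prop)
  · refine ⟨(M : ℝ) / 4, fun y hy i => ?_⟩
    have h1 : (4 / (M : ℝ) * y i) ^ 2 ≤ ∑ i, (4 / (M : ℝ) * y i) ^ 2 :=
      Finset.single_le_sum (f := fun i => (4 / (M : ℝ) * y i) ^ 2) (fun _ _ => sq_nonneg _)
        (Finset.mem_univ i)
    have h2 : (4 / (M : ℝ) * y i) ^ 2 < 1 := lt_of_le_of_lt h1 hy
    have h3 : |4 / (M : ℝ) * y i| < 1 := by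
      have := sq_lt_one_iff_abs_lt_one (4 / (M : ℝ) * y i)
      exact this.1 h2
    rw [abs_mul, abs_of_pos (by positivity : (0 : ℝ) < 4 / (M : ℝ))] at h3
    have h4 : |y i| < 1 / (4 / (M : ℝ)) := by
      rw [lt_div_iff₀ (by positivity)]
      linarith
    have h5 : 1 / (4 / (M : ℝ)) = (M : ℝ) / 4 := by
      rw [one_div_div]
    rw [h5] at h4
    exact h4.le
  · intro x _
    obtain ⟨rep, hrep, Φ, hΦ, hdom⟩ := hdet (fun i => 4 / (M : ℝ) * x i)
    -- the bijection rows - classes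
    have hinj : Function.Injective (fun k : K => (latEquiv d M (rep k)).2) := by
      intro k k' h
      exact hrep k k' ⟨_, latEquiv_snd_eq d M h⟩
    have hbij : Function.Bijective (fun k : K => (latEquiv d M (rep k)).2) := by
      rw [Fintype.bijective_iff_injective_and_card]
      exact ⟨hinj, by rw [hK, Fintype.card_fin]⟩
    let σ : K ≃ Fin (M ^ d) := Equiv.ofBijective _ hbij
    have hσ : ∀ k, σ k = (latEquiv d M (rep k)).2 := fun k => rfl
    refine ⟨fun ρ => rep (σ.symm ρ), ?_, Φ.submatrix σ.symm κ.symm, ?_,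
      domAt_det_reindex Φ σ.symm κ.symm hdom⟩
    · intro ρ
      show (latEquiv d M (rep (σ.symm ρ))).2 = ρ
      rw [← hσ, Equiv.apply_symm_apply]
    · intro ρ k g
      rw [Matrix.submatrix_apply]
      have harg : (x + zv (rep (σ.symm ρ) + D.ι g) - D.m k ∈
          {v : Fin d → ℝ | ∑ i, (4 / (M : ℝ) * v i) ^ 2 < 1}) ↔
          ∑ i, (4 / (M : ℝ) * x i + 4 / (M : ℝ) * (rep (σ.symm ρ) i : ℝ) + 4 * (g i : ℝ) -
            u (κ.symm k) i) ^ 2 < 1 := by
        rw [Set.mem_ofPred_eq]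
        have h1 : ∀ i, 4 / (M : ℝ) * (x + zv (rep (σ.symm ρ) + D.ι g) - D.m k) i =
            4 / (M : ℝ) * x i + 4 / (M : ℝ) * (rep (σ.symm ρ) i : ℝ) + 4 * (g i : ℝ) -
              u (κ.symm k) i := by
          intro i
          have h2 : (D.ι g) i = (M : ℤ) * g i := rfl
          have h3 : (D.m k) i = (M : ℝ) / 4 * u (κ.symm k) i := rfl
          rw [Pi.sub_apply, Pi.add_apply, h3]
          simp only [zv, Pi.add_apply, h2]
          push_cast
          field_simp
          ring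
        simp only [h1]
      rw [harg]
      have hchi : D.chi k (rep (σ.symm ρ) + D.ι g) =
          ee (θ (κ.symm k) * (φ (rep (σ.symm ρ) + (M : ℤ) • g) : ℝ)) := design_chi _ _ _ _ _ _ _
      rw [hchi]
      exact hΦ (σ.symm ρ) (κ.symm k) g

end Pool.Agent.MP7c5cdb
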