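import Pool.Agent.MP_7c5cdb.Unfold

set_option autoImplicit false
open MeasureTheory Set
open scoped ENNReal ComplexConjugate

namespace Pool.Agent.MP7c5cdb

/-- normalised Haar measure on the circle, as in the Mathlib file on multivariate Fourier series -/
noncomputable local instance : MeasureSpace UnitAddCircle := ⟨AddCircle.haarAddCircle⟩

local instance : Measure.IsAddHaarMeasure (volume : Measure UnitAddCircle) :=
  inferInstanceAs (Measure.IsAddHaarMeasure AddCircle.haarAddCircle)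

local instance : IsProbabilityMeasure (volume : Measure UnitAddCircle) :=
  inferInstanceAs (IsProbabilityMeasure AddCircle.haarAddCircle)

variable {d : ℕ}

lemma eLpNorm_two_sq {α : Type*} [MeasurableSpace α] (μ : Measure α) (f : α → ℂ) :
    eLpNorm f 2 μ ^ 2 = ∫⁻ x, ‖f x‖ₑ ^ 2 ∂μ := by
  have h := eLpNorm_nnreal_pow_eq_lintegral (f := f) (μ := μ) (p := 2) (by norm_num)
  simp only [NNReal.coe_ofNat, ENNReal.rpow_ofNat, ENNReal.coe_ofNat] at h
  exact h

/-- The pairing of an integer vector with a real vector. -/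
noncomputable def dotz (n : Fin d → ℤ) (x : Fin d → ℝ) : ℝ := ∑ i, (n i : ℝ) * x i

lemma dotz_neg (n : Fin d → ℤ) (x : Fin d → ℝ) : dotz (-n) x = -dotz n x := by
  simp [dotz]

lemma mFourier_mk (n : Fin d → ℤ) (x : Fin d → ℝ) :
    UnitAddTorus.mFourier n (fun i => (x i : UnitAddCircle)) = ee (dotz n x) := by
  simp only [UnitAddTorus.mFourier, ContinuousMap.coe_mk, fourier_coe_apply]
  rw [← Complex.exp_sum]
  unfold ee dotz
  congr 1
  push_cast
  rw [Finset.mul_sum]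
  refine Finset.sum_congr rfl (fun i _ => ?_)
  simp
  ring

/-- Parseval for trigonometric polynomials on the cube. -/
lemma lintegral_cube_trig (T : Finset (Fin d → ℤ)) (c : (Fin d → ℤ) → ℂ) :
    ∫⁻ x in cube d, ‖∑ γ ∈ T, c γ * ee (dotz γ x)‖ₑ ^ 2 = ∑ γ ∈ T, ‖c γ‖ₑ ^ 2 := by
  classical
  -- the continuous function on the torus
  let P : C(UnitAddTorus (Fin d), ℂ) := ∑ γ ∈ T, c γ • UnitAddTorus.mFourier γ
  have hP : ∀ x : Fin d → ℝ, P (fun i => (x i : UnitAddCircle)) =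
      ∑ γ ∈ T, c γ * ee (dotz γ x) := by
    intro x
    simp only [P, ContinuousMap.sum_apply, ContinuousMap.smul_apply, smul_eq_mul, mFourier_mk]
  have h1 : ∫⁻ x in cube d, ‖∑ γ ∈ T, c γ * ee (dotz γ x)‖ₑ ^ 2 =
      ∫⁻ t : UnitAddTorus (Fin d), ‖P t‖ₑ ^ 2 := by
    rw [UnitAddTorus.lintegral_preimage (fun t => ‖P t‖ₑ ^ 2) (fun _ => (0 : ℝ))]
    refine lintegral_congr (fun x => ?_)
    rw [hP]
  rw [h1]
  -- the L2 element
  let PL : Lp ℂ 2 (volume : Measure (UnitAddTorus (Fin d))) := ContinuousMap.toLp 2 volume ℂ P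
  have hPL : PL = ∑ γ ∈ T, c γ • UnitAddTorus.mFourierLp 2 γ := by
    simp only [PL, P, map_sum, map_smul]
  have hn : ‖PL‖ ^ 2 = ∑ γ ∈ T, ‖c γ‖ ^ 2 := by
    have ho := UnitAddTorus.orthonormal_mFourier (d := Fin d)
    have h2 := ho.inner_sum c c T
    rw [← hPL, inner_self_eq_norm_sq_to_K] at h2
    have h3 : ((‖PL‖ ^ 2 : ℝ) : ℂ) = ((∑ γ ∈ T, ‖c γ‖ ^ 2 : ℝ) : ℂ) := by
      push_cast
      refine Eq.trans ?_ (h2.trans ?_)
      · rfl
      · refine Finset.sum_congr rfl (fun γ _ => ?_)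
        rw [mul_comm, Complex.mul_conj, Complex.normSq_eq_norm_sq]
        push_cast
        rfl
    exact_mod_cast h3
  have h4 : ∫⁻ t : UnitAddTorus (Fin d), ‖P t‖ₑ ^ 2 = ENNReal.ofReal (‖PL‖ ^ 2) := by
    have h5 : eLpNorm (P : UnitAddTorus (Fin d) → ℂ) 2 volume = ENNReal.ofReal ‖PL‖ := by
      rw [ofReal_norm, Lp.enorm_def]
      exact (eLpNorm_congr_ae (ContinuousMap.coeFn_toLp (E := ℂ) (p := 2) (𝕜 := ℂ)
        volume P)).symm
    rw [← eLpNorm_two_sq, h5, ENNReal.ofReal_pow (norm_nonneg _)]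
  rw [h4, hn, ENNReal.ofReal_sum_of_nonneg (fun _ _ => by positivity)]
  refine Finset.sum_congr rfl (fun γ _ => ?_)
  rw [ENNReal.ofReal_pow (norm_nonneg _), ofReal_norm]

/-- Uniqueness of Fourier coefficients on the cube. -/
lemma ae_zero_of_coeff (h : (Fin d → ℝ) → ℂ) (hm : StronglyMeasurable h)
    (h2 : ∫⁻ x in cube d, ‖h x‖ₑ ^ 2 < ∞)
    (h0 : ∀ γ : Fin d → ℤ, ∫ x in cube d, ee (-(dotz γ x)) * h x = 0) :
    ∀ᵐ x ∂((volume : Measure (Fin d → ℝ)).restrict (cube d)), h x = 0 := by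
  classical
  let E := UnitAddTorus.measurableEquivPiIoc (ι := Fin d) (fun _ => (0 : ℝ))
  let H : UnitAddTorus (Fin d) → ℂ := fun t => h (E t).1
  have hHm : StronglyMeasurable H :=
    hm.comp_measurable (measurable_subtype_coe.comp E.measurable)
  have hmk : ∀ x ∈ cube d, H (fun i => (x i : UnitAddCircle)) = h x := by
    intro x hx
    have h1 : E.symm ⟨x, hx⟩ = fun i => (x i : UnitAddCircle) := rfl
    simp only [H]
    rw [← h1, MeasurableEquiv.apply_symm_apply]
  have hL : ∫⁻ t : UnitAddTorus (Fin d), ‖H t‖ₑ ^ 2 = ∫⁻ x in cube d, ‖h x‖ₑ ^ 2 := by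
    rw [UnitAddTorus.lintegral_preimage (fun t => ‖H t‖ₑ ^ 2) (fun _ => (0 : ℝ))]
    refine setLIntegral_congr_fun measurableSet_cube (fun x hx => ?_)
    simp only [hmk x hx]
  have hmem : MemLp H 2 volume := by
    refine ⟨hHm.aestronglyMeasurable, ?_⟩
    have h3 : eLpNorm H 2 volume ^ 2 < ∞ := by
      rw [eLpNorm_two_sq, hL]
      exact h2
    exact (ENNReal.pow_lt_top_iff.1 h3).resolve_right (by norm_num)
  have hcoef : ∀ γ : Fin d → ℤ, UnitAddTorus.mFourierCoeff (hmem.toLp H) γ = 0 := by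
    intro γ
    have h4 : UnitAddTorus.mFourierCoeff (hmem.toLp H) γ = UnitAddTorus.mFourierCoeff H γ := by
      unfold UnitAddTorus.mFourierCoeff
      refine integral_congr_ae ?_
      filter_upwards [hmem.coeFn_toLp] with t ht
      rw [ht]
    rw [h4, UnitAddTorus.mFourierCoeff_eq_integral H γ (fun _ => (0 : ℝ))]
    rw [← h0 γ]
    refine setIntegral_congr_fun measurableSet_cube (fun x hx => ?_)
    simp only [smul_eq_mul, mFourier_mk, dotz_neg, hmk x hx]
  have hs := UnitAddTorus.hasSum_sq_mFourierCoeff (hmem.toLp H)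
  simp only [hcoef, norm_zero, ne_eq, OfNat.ofNat_ne_zero, not_false_eq_true, zero_pow] at hs
  have h5 : ∫ t, ‖(hmem.toLp H) t‖ ^ 2 = 0 := hs.unique hasSum_zero
  have h6 : ∫⁻ t : UnitAddTorus (Fin d), ‖H t‖ₑ ^ 2 = 0 := by
    have h7 : ‖hmem.toLp H‖ ^ 2 = 0 := by
      have h8 : ∫ t, ‖(hmem.toLp H) t‖ ^ 2 = ‖hmem.toLp H‖ ^ 2 := by
        have h9 := UnitAddTorus.mFourierBasis.hasSum_repr (hmem.toLp H)
        have h10 : ∀ γ, UnitAddTorus.mFourierBasis.repr (hmem.toLp H) γ = 0 := by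
          intro γ
          rw [UnitAddTorus.mFourierBasis_repr, hcoef]
        simp only [h10, zero_smul] at h9
        have h11 : hmem.toLp H = 0 := h9.unique hasSum_zero
        rw [h5, h11]
        simp
      rw [← h8, h5]
    have h12 : eLpNorm H 2 volume = 0 := by
      have h13 : ‖hmem.toLp H‖ₑ = eLpNorm H 2 volume := by
        rw [Lp.enorm_def]
        exact eLpNorm_congr_ae hmem.coeFn_toLp
      rw [← h13]
      have h14 : ‖hmem.toLp H‖ = 0 := by simpa using h7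
      rw [enorm_eq_zero]
      exact norm_eq_zero.1 h14
    rw [← eLpNorm_two_sq, h12]
    simp
  rw [hL] at h6
  rw [lintegral_eq_zero_iff (hm.enorm.pow_const 2)] at h6
  filter_upwards [h6] with x hx
  simpa using hx

end Pool.Agent.MP7c5cdb
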