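import Pool.Agent.MP_7c5cdb.Defs

set_option autoImplicit false
open MeasureTheory Set
open scoped ENNReal ComplexConjugate

namespace Pool.Agent.MP7c5cdb

variable {d : ℕ}

/-- The half open unit cube. -/
def cube (d : ℕ) : Set (Fin d → ℝ) := {x | ∀ i, x i ∈ Ioc (0 : ℝ) (0 + 1)}

lemma measurableSet_cube : MeasurableSet (cube d) := by
  have : cube d = Set.pi Set.univ (fun _ => Ioc (0 : ℝ) (0 + 1)) := by
    ext x
    simp [cube]
  rw [this]
  exact MeasurableSet.univ_pi (fun _ => measurableSet_Ioc)

/-- Integer vectors as real vectors. -/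
def zv (n : Fin d → ℤ) : Fin d → ℝ := fun i => (n i : ℝ)

/-- translated cube -/
def tcube (n : Fin d → ℤ) : Set (Fin d → ℝ) := {x | x - zv n ∈ cube d}

lemma measurableSet_tcube (n : Fin d → ℤ) : MeasurableSet (tcube n) := by
  unfold tcube
  exact measurableSet_cube.preimage (measurable_sub_const _)

lemma tcube_disjoint : Pairwise (Function.onFun Disjoint (tcube (d := d))) := by
  intro m n hmn
  rw [Function.onFun, Set.disjoint_left]
  intro x hx hy
  apply hmn
  funext i
  have h1 := hx i
  have h2 := hy i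
  simp only [Pi.sub_apply, zv, mem_Ioc, zero_add] at h1 h2
  have h3 : (m i : ℝ) < n i + 1 := by linarith [h1.1, h2.2]
  have h4 : (n i : ℝ) < m i + 1 := by linarith [h1.2, h2.1]
  have h5 : m i < n i + 1 := by exact_mod_cast h3
  have h6 : n i < m i + 1 := by exact_mod_cast h4
  omega

lemma tcube_iUnion : (⋃ n : Fin d → ℤ, tcube n) = Set.univ := by
  rw [Set.eq_univ_iff_forall]
  intro x
  rw [Set.mem_iUnion]
  refine ⟨fun i => ⌈x i⌉ - 1, ?_⟩
  intro i
  simp only [Pi.sub_apply, zv, mem_Ioc, zero_add]
  push_cast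
  constructor
  · linarith [Int.ceil_lt_add_one (x i)]
  · linarith [Int.le_ceil (x i)]

lemma map_restrict_tcube (n : Fin d → ℤ) :
    Measure.map (fun x => x + zv n) ((volume : Measure (Fin d → ℝ)).restrict (cube d)) =
      volume.restrict (tcube n) := by
  have hmp : MeasurePreserving (fun x : Fin d → ℝ => x + zv n) volume volume :=
    measurePreserving_add_right volume (zv n)
  have h := hmp.restrict_preimage (measurableSet_tcube n)
  have hpre : (fun x : Fin d → ℝ => x + zv n) ⁻¹' (tcube n) = cube d := by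
    ext x
    simp [tcube]
  rw [hpre] at h
  exact h.map_eq

lemma lintegral_tcube (n : Fin d → ℤ) (f : (Fin d → ℝ) → ℝ≥0∞) (hf : Measurable f) :
    ∫⁻ x in tcube n, f x = ∫⁻ x in cube d, f (x + zv n) := by
  rw [← map_restrict_tcube, lintegral_map hf (measurable_add_const _)]

/-- Unfolding of the integral over `ℝ^d`. -/
lemma lintegral_unfold (f : (Fin d → ℝ) → ℝ≥0∞) (hf : Measurable f) :
    ∫⁻ x, f x = ∫⁻ x in cube d, ∑' n : Fin d → ℤ, f (x + zv n) := by
  have hm : ∀ n : Fin d → ℤ, AEMeasurable (fun x => f (x + zv n))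
      ((volume : Measure (Fin d → ℝ)).restrict (cube d)) := fun n =>
    (hf.comp (measurable_add_const _)).aemeasurable
  rw [lintegral_tsum hm]
  rw [← setLIntegral_univ, ← tcube_iUnion,
    lintegral_iUnion measurableSet_tcube tcube_disjoint]
  exact tsum_congr (fun n => lintegral_tcube n f hf)

/-- Unfolding for Bochner integrals. -/
lemma integral_unfold (f : (Fin d → ℝ) → ℂ) (hf : StronglyMeasurable f) (hi : Integrable f) :
    ∫ x, f x = ∫ x in cube d, ∑' n : Fin d → ℤ, f (x + zv n) := by
  have hmeas : ∀ n : Fin d → ℤ, StronglyMeasurable (fun x => f (x + zv n)) := fun n =>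
    hf.comp_measurable (measurable_add_const _)
  rw [integral_tsum (fun n => (hmeas n).aestronglyMeasurable)]
  · have h := hasSum_integral_iUnion (f := f) (μ := (volume : Measure (Fin d → ℝ)))
      measurableSet_tcube tcube_disjoint hi.integrableOn
    rw [tcube_iUnion, setIntegral_univ] at h
    rw [← h.tsum_eq]
    refine tsum_congr (fun n => ?_)
    rw [← map_restrict_tcube, integral_map (measurable_add_const _).aemeasurable
      hf.aestronglyMeasurable]
  · have h1 : ∑' n : Fin d → ℤ, ∫⁻ x in cube d, ‖f (x + zv n)‖ₑ = ∫⁻ x, ‖f x‖ₑ := by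
      rw [lintegral_unfold (fun x => ‖f x‖ₑ) hf.enorm]
      rw [lintegral_tsum (fun n => ((hmeas n).enorm).aemeasurable)]
    rw [h1]
    exact hi.2.ne

end Pool.Agent.MP7c5cdb
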